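import Pool.Agent.MPfa412c.Twist

/-!
# The element `A = 2 (1 - a) + t`
-/

set_option linter.unusedSectionVars false

open Matrix MeasureTheory Filter Topology MonoidAlgebra
open scoped ComplexOrder ComplexConjugate

namespace Pool.Agent.MPfa412c

section comm

/-- The cyclotomic product identity in a commutative ring. -/
lemma prod_cyc {D : Type*} [CommRing D] (k : ℕ) : ∀ (A C : D),
    1 + C ^ (3 ^ k) + (C ^ (3 ^ k)) ^ 2 = 0 →
    ∏ j ∈ Finset.range (3 ^ (k + 1)), (1 - A * C ^ j) = 1 - A ^ (3 ^ (k + 1)) := by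
  induction k with
  | zero =>
    intro A C h
    simp only [pow_zero, pow_one, zero_add] at h ⊢
    rw [Finset.prod_range_succ, Finset.prod_range_succ, Finset.prod_range_succ, Finset.prod_range_zero]
    have h3 : C ^ 2 = -1 - C := by linear_combination h
    linear_combination (-A + A ^ 2 * C + (1 - C) * A ^ 3) * h
  | succ k ih =>
    intro A C h
    -- split j = i + 3^(k+1) l
    have hsplit : ∏ j ∈ Finset.range (3 ^ (k + 1 + 1)), (1 - A * C ^ j)
        = ∏ i ∈ Finset.range (3 ^ (k + 1)), ∏ l ∈ Finset.range 3, (1 - A * C ^ (i + 3 ^ (k + 1) * l)) := by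
      rw [Finset.prod_comm]
      rw [pow_succ 3 (k + 1)]
      generalize 3 ^ (k + 1) = n
      rw [show n * 3 = n + n + n by ring, Finset.prod_range_add, Finset.prod_range_add]
      rw [Finset.prod_range_succ, Finset.prod_range_succ, Finset.prod_range_succ,
        Finset.prod_range_zero, one_mul]
      have e0 : ∏ i ∈ Finset.range n, (1 - A * C ^ (i + n * 0)) = ∏ i ∈ Finset.range n, (1 - A * C ^ i) := by
        apply Finset.prod_congr rfl
        intro i _
        rw [mul_zero, add_zero]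
      have e1 : ∏ i ∈ Finset.range n, (1 - A * C ^ (i + n * 1))
          = ∏ i ∈ Finset.range n, (1 - A * C ^ (n + i)) := by
        apply Finset.prod_congr rfl
        intro i _
        rw [mul_one, add_comm]
      have e2 : ∏ i ∈ Finset.range n, (1 - A * C ^ (i + n * 2))
          = ∏ i ∈ Finset.range n, (1 - A * C ^ (n + n + i)) := by
        apply Finset.prod_congr rfl
        intro i _
        rw [mul_two, add_comm]
      rw [e0, e1, e2]
    rw [hsplit]
    have hinner : ∀ i, ∏ l ∈ Finset.range 3, (1 - A * C ^ (i + 3 ^ (k + 1) * l))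
        = 1 - A ^ 3 * (C ^ 3) ^ i := by
      intro i
      rw [Finset.prod_range_succ, Finset.prod_range_succ, Finset.prod_range_succ,
        Finset.prod_range_zero]
      simp only [mul_zero, add_zero, mul_one]
      generalize 3 ^ (k + 1) = n at h ⊢
      rw [pow_add, pow_add, mul_two, pow_add]
      generalize hZ : C ^ n = Z at h ⊢
      have e : (C ^ 3) ^ i = (C ^ i) ^ 3 := by ring
      rw [e]
      generalize C ^ i = B
      linear_combination (-(A * B) + A ^ 2 * B ^ 2 * Z + (1 - Z) * A ^ 3 * B ^ 3) * h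
    simp_rw [hinner]
    rw [ih (A ^ 3) (C ^ 3)]
    · rw [← pow_mul]
      congr 2
      ring
    · have e : (C ^ 3) ^ 3 ^ k = C ^ 3 ^ (k + 1) := by
        rw [← pow_mul]
        congr 1
        ring
      rw [e]; exact h

/-- Divisibility form. -/
lemma prod_cyc_dvd {D : Type*} [CommRing D] (k : ℕ) (A C : D) :
    ∃ W : D, ∏ j ∈ Finset.range (3 ^ (k + 1)), (1 - A * C ^ j)
      = 1 - A ^ (3 ^ (k + 1)) + (1 + C ^ (3 ^ k) + (C ^ (3 ^ k)) ^ 2) * W := by
  set I := Ideal.span ({1 + C ^ (3 ^ k) + (C ^ (3 ^ k)) ^ 2} : Set D) with hI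
  have h0 : (Ideal.Quotient.mk I) (1 + C ^ (3 ^ k) + (C ^ (3 ^ k)) ^ 2) = 0 := by
    rw [Ideal.Quotient.eq_zero_iff_mem]
    exact Ideal.subset_span rfl
  have h1 := prod_cyc k (Ideal.Quotient.mk I A) (Ideal.Quotient.mk I C) (by simpa using h0)
  have h2 : (Ideal.Quotient.mk I) (∏ j ∈ Finset.range (3 ^ (k + 1)), (1 - A * C ^ j)
      - (1 - A ^ (3 ^ (k + 1)))) = 0 := by
    rw [map_sub, map_prod]
    simp only [map_sub, map_one, map_mul, map_pow]
    rw [h1, sub_self]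
  rw [Ideal.Quotient.eq_zero_iff_mem, hI, Ideal.mem_span_singleton'] at h2
  obtain ⟨W, hW⟩ := h2
  exact ⟨W, by linear_combination -hW⟩

end comm

section A

variable {Γ : Type*} [Group Γ]

/-- The element `A = 2 (1 - a) + t`. -/
noncomputable def Ael (a t : Γ) : MonoidAlgebra ℂ Γ := 2 * (1 - u a) + u t

namespace GApprox

variable (b : GApprox Γ)

lemma two_eq : (2 : MonoidAlgebra ℂ Γ) = (2 : ℂ) • 1 := by
  rw [two_smul, one_add_one_eq_two]

lemma norm_det_two_smul {n : Type*} [Fintype n] [DecidableEq n] (M : Matrix n n ℂ) :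
    ‖((2 : ℂ) • M).det‖ = 2 ^ Fintype.card n * ‖M.det‖ := by
  rw [Matrix.det_smul, norm_mul, norm_pow]
  simp

lemma log_card_aux {d : ℕ} {x : ℝ} (h : 2 ^ d ≤ x) : Real.log 2 * d ≤ Real.log x := by
  have h1 := Real.log_le_log (by positivity) h
  rw [Real.log_pow] at h1
  linarith

/-- Lower bound `log det A ≥ log 2` when both `a` and `t` are detected by homomorphisms to `ℤ`. -/
theorem A_lower (φa φt : Γ →* Multiplicative ℤ) {a t : Γ} (haa : φa a = Multiplicative.ofAdd 1)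
    (hat : φa t = 1) (hta : φt a = 1) (htt : φt t = Multiplicative.ofAdd 1) :
    b.F (sc (Ael a t)) ∧ Real.log 2 ≤ b.dt (sc (Ael a t)) := by
  have hex1 : ∀ i : b.ι, ∃ z : ℂ, ‖z‖ = 1 ∧ 1 ≤ ‖((1 : Matrix (b.D i) (b.D i) ℂ) - z • b.ρ i a).det‖ := by
    intro i
    obtain ⟨z, hz, h⟩ := exists_unit_det_ge (1 : Matrix (b.D i) (b.D i) ℂ) (-(b.ρ i a))
    refine ⟨z, hz, ?_⟩
    rw [Matrix.det_one, norm_one, smul_neg, ← sub_eq_add_neg] at h
    exact h
  choose z hz hdet using hex1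
  have hex2 : ∀ i : b.ι, ∃ w : ℂ, ‖w‖ = 1 ∧ 2 ^ Fintype.card (b.D i)
      ≤ ‖((2 : ℂ) • ((1 : Matrix (b.D i) (b.D i) ℂ) - z i • b.ρ i a) + w • b.ρ i t).det‖ := by
    intro i
    obtain ⟨w, hw, h⟩ := exists_unit_det_ge ((2 : ℂ) • ((1 : Matrix (b.D i) (b.D i) ℂ) - z i • b.ρ i a))
      (b.ρ i t)
    refine ⟨w, hw, le_trans ?_ h⟩
    rw [norm_det_two_smul]
    have := hdet i
    have h2 : (0 : ℝ) < 2 ^ Fintype.card (b.D i) := by positivity
    nlinarith
  choose w hw hdet2 using hex2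
  have hb : ∀ ε : ℝ, 0 < ε → Real.log 2 ≤ (b.toT Unit).L (sc (Ael a t)) ε := by
    intro ε hε
    rw [(b.toT Unit).L_eq (((b.twist φa z hz).twist φt w hw).toT Unit) _ hε]
    apply ((b.twist φa z hz).twist φt w hw).le_L_sc hε
    intro i
    rw [twist_lift, twist_lift]
    have h1 : b.lift i (tw φa (z i) (hz i) (tw φt (w i) (hw i) (Ael a t)))
        = (2 : ℂ) • ((1 : Matrix (b.D i) (b.D i) ℂ) - z i • b.ρ i a) + w i • b.ρ i t := by
      unfold Ael
      rw [two_eq]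
      simp only [map_add, map_mul, map_sub, map_one, map_smul, tw_u, lift_u]
      have c1 : chr φt (w i) a = 1 := by unfold chr; rw [hta]; simp
      have c2 : chr φt (w i) t = w i := by unfold chr; rw [htt]; simp
      have c3 : chr φa (z i) a = z i := by unfold chr; rw [haa]; simp
      have c4 : chr φa (z i) t = 1 := by unfold chr; rw [hat]; simp
      rw [c1, c2, c3, c4]
      simp
    have h2 := hdet2 i
    have h3 : ‖(b.lift i (tw φa (z i) (hz i) (tw φt (w i) (hw i) (Ael a t)))).det‖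
        = ‖((2 : ℂ) • ((1 : Matrix (b.D i) (b.D i) ℂ) - z i • b.ρ i a) + w i • b.ρ i t).det‖ := by
      rw [h1]
    have h4 : (0 : ℝ) < 2 ^ Fintype.card (b.D i) := by positivity
    constructor
    · intro h0
      have h5 : (b.lift i (tw φa (z i) (hz i) (tw φt (w i) (hw i) (Ael a t)))).det = 0 := h0
      rw [h5, norm_zero] at h3
      linarith
    · have h6 := log_card_aux (h3 ▸ h2)
      have h7 : Nat.card (((b.twist φa z hz).twist φt w hw).D i) = Fintype.card (b.D i) :=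
        Nat.card_eq_fintype_card
      rw [h7]
      exact h6
  exact ⟨⟨_, hb⟩, (b.toT Unit).le_ldet hb⟩

/-- `A` always has a (nonnegative) log-determinant when `t` is detected by a homomorphism to `ℤ`. -/
theorem A_fin (φt : Γ →* Multiplicative ℤ) {a t : Γ}
    (hta : φt a = 1) (htt : φt t = Multiplicative.ofAdd 1) :
    b.F (sc (Ael a t)) ∧ 0 ≤ b.dt (sc (Ael a t)) := by
  have hex2 : ∀ i : b.ι, ∃ w : ℂ, ‖w‖ = 1 ∧ 1
      ≤ ‖((2 : ℂ) • ((1 : Matrix (b.D i) (b.D i) ℂ) - b.ρ i a) + w • b.ρ i t).det‖ := by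
    intro i
    obtain ⟨w, hw, h⟩ := exists_unit_det_ge (b.ρ i t) ((2 : ℂ) • ((1 : Matrix (b.D i) (b.D i) ℂ) - b.ρ i a))
    have hw0 : w ≠ 0 := by rintro rfl; simp at hw
    refine ⟨w⁻¹, by rw [norm_inv, hw, inv_one], ?_⟩
    have h1 : ‖(b.ρ i t).det‖ = 1 := by
      have h2 := congrArg Matrix.det (b.ρ_mul_conj i t)
      rw [Matrix.det_mul, Matrix.det_conjTranspose, Matrix.det_one, Complex.star_def,
        Complex.mul_conj, Complex.normSq_eq_norm_sq] at h2
      have h3 : ‖(b.ρ i t).det‖ ^ 2 = 1 := by exact_mod_cast h2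
      nlinarith [norm_nonneg (b.ρ i t).det]
    rw [h1] at h
    refine h.trans (le_of_eq ?_)
    have h4 : b.ρ i t + w • ((2 : ℂ) • ((1 : Matrix (b.D i) (b.D i) ℂ) - b.ρ i a))
        = w • ((2 : ℂ) • ((1 : Matrix (b.D i) (b.D i) ℂ) - b.ρ i a) + w⁻¹ • b.ρ i t) := by
      rw [smul_add, smul_smul w w⁻¹, mul_inv_cancel₀ hw0, one_smul, add_comm]
    rw [h4, Matrix.det_smul, norm_mul, norm_pow, hw, one_pow, one_mul]
  choose w hw hdet2 using hex2
  have hb : ∀ ε : ℝ, 0 < ε → 0 ≤ (b.toT Unit).L (sc (Ael a t)) ε := by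
    intro ε hε
    rw [(b.toT Unit).L_eq ((b.twist φt w hw).toT Unit) _ hε]
    apply (b.twist φt w hw).le_L_sc hε
    intro i
    rw [twist_lift]
    have h1 : b.lift i (tw φt (w i) (hw i) (Ael a t))
        = (2 : ℂ) • ((1 : Matrix (b.D i) (b.D i) ℂ) - b.ρ i a) + w i • b.ρ i t := by
      unfold Ael
      rw [two_eq]
      simp only [map_add, map_mul, map_sub, map_one, map_smul, tw_u, lift_u]
      have c1 : chr φt (w i) a = 1 := by unfold chr; rw [hta]; simp
      have c2 : chr φt (w i) t = w i := by unfold chr; rw [htt]; simp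
      rw [c1, c2]
      simp
    have h2 := hdet2 i
    have h3 : ‖(b.lift i (tw φt (w i) (hw i) (Ael a t))).det‖
        = ‖((2 : ℂ) • ((1 : Matrix (b.D i) (b.D i) ℂ) - b.ρ i a) + w i • b.ρ i t).det‖ := by
      rw [h1]
    constructor
    · intro h0
      have h5 : (b.lift i (tw φt (w i) (hw i) (Ael a t))).det = 0 := h0
      rw [h5, norm_zero] at h3
      linarith
    · rw [zero_mul]
      exact Real.log_nonneg (h2.trans_eq h3.symm)
  exact ⟨⟨_, hb⟩, (b.toT Unit).le_ldet hb⟩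

/-- unipotent elements have trivial log-determinant -/
theorem F_one_add_nilpotent {N : MonoidAlgebra ℂ Γ} (hN : IsNilpotent N) :
    b.F (sc (1 + N)) ∧ b.dt (sc (1 + N)) = 0 := by
  obtain ⟨v, hv⟩ := hN.isUnit_one_add
  have hdet : ∀ i, (b.lift i (1 + N)).det = 1 := by
    intro i
    rw [map_add, map_one]
    exact det_one_add_nilpotent (hN.map (b.lift i))
  have hdetv : ∀ i, (b.lift i ((v⁻¹ : (MonoidAlgebra ℂ Γ)ˣ) : MonoidAlgebra ℂ Γ)).det = 1 := by
    intro i
    have h1 : (1 + N) * ((v⁻¹ : (MonoidAlgebra ℂ Γ)ˣ) : MonoidAlgebra ℂ Γ) = 1 := by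
      rw [← hv]; exact v.mul_inv
    have h2 := congrArg (fun x => (b.lift i x).det) h1
    simp only [map_mul, Matrix.det_mul, map_one, Matrix.det_one] at h2
    rwa [hdet, one_mul] at h2
  have key : ∀ x : MonoidAlgebra ℂ Γ, (∀ i, (b.lift i x).det = 1) → b.F (sc x) ∧ 0 ≤ b.dt (sc x) := by
    intro x hx
    have hb : ∀ ε : ℝ, 0 < ε → 0 ≤ (b.toT Unit).L (sc x) ε := by
      intro ε hε
      apply b.le_L_sc hε
      intro i
      rw [hx i]
      simp
    exact ⟨⟨_, hb⟩, (b.toT Unit).le_ldet hb⟩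
  have h1 := key _ hdet
  have h2 := key _ hdetv
  have h3 := (b.F_mul h1.1 h2.1).2
  rw [sc_mul, ← hv, v.mul_inv, sc_one, b.F_one.2] at h3
  refine ⟨h1.1, ?_⟩
  rw [← hv] at h1 ⊢
  linarith [h1.2, h2.2]

/-- the averaging idempotent of an element of order three -/
noncomputable def e0 (z : Γ) : MonoidAlgebra ℂ Γ := (1 / 3 : ℂ) • (1 + u z + u (z ^ 2))

lemma e0_idem {z : Γ} (hz : z ^ 3 = 1) : e0 z * e0 z = e0 z := by
  unfold e0
  rw [smul_mul_smul_comm]
  have h : (1 + u z + u (z ^ 2)) * (1 + u z + u (z ^ 2)) = (3 : ℂ) • (1 + u z + u (z ^ 2)) := by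
    have h1 : u z * u z = u (z ^ 2) := by rw [u_mul, pow_two]
    have h2 : u z * u (z ^ 2) = 1 := by rw [u_mul, ← pow_succ', hz, u_one]
    have h3 : u (z ^ 2) * u z = 1 := by rw [u_mul, ← pow_succ, hz, u_one]
    have h4 : u (z ^ 2) * u (z ^ 2) = u z := by
      rw [u_mul, ← pow_add, show 2 + 2 = 3 + 1 by norm_num, pow_succ, hz, one_mul]
    have h5 : (3 : ℂ) • (1 + u z + u (z ^ 2)) = (1 + u z + u (z ^ 2)) + (1 + u z + u (z ^ 2)) + (1 + u z + u (z ^ 2)) := by
      module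
    rw [h5, add_mul, add_mul, mul_add, mul_add, mul_add, mul_add, mul_add, mul_add, h1, h2, h3, h4]
    simp only [one_mul, mul_one]
    abel
  rw [h, smul_smul]
  norm_num

lemma e0_comm {z : Γ} (hz : ∀ g : Γ, z * g = g * z) (x : MonoidAlgebra ℂ Γ) : e0 z * x = x * e0 z := by
  have h : ∀ w : Γ, (∀ g : Γ, w * g = g * w) → u w * x = x * u w := by
    intro w hw
    induction x using MonoidAlgebra.induction_linear with
    | zero => simp
    | add x y hx hy => rw [mul_add, hx, hy, add_mul]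
    | single g c =>
      unfold u
      rw [MonoidAlgebra.single_mul_single, MonoidAlgebra.single_mul_single, hw, one_mul, mul_one]
  have hz2 : ∀ g : Γ, z ^ 2 * g = g * z ^ 2 := by
    intro g
    rw [pow_two, mul_assoc, hz g, ← mul_assoc, hz g, mul_assoc]
  unfold e0
  rw [smul_mul_assoc, mul_smul_comm, add_mul, add_mul, one_mul, h z hz, h _ hz2, mul_add, mul_add,
    mul_one]

lemma gst_e0 {z : Γ} (hz : z ^ 3 = 1) : gst (e0 z) = e0 z := by
  unfold e0
  have hs : ∀ (c : ℂ) (x : MonoidAlgebra ℂ Γ), gst (c • x) = (starRingEnd ℂ c) • gst x := by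
    intro c x
    induction x using MonoidAlgebra.induction_linear with
    | zero => simp [gst_zero]
    | add x y hx hy => rw [smul_add, gst_add, hx, hy, gst_add, smul_add]
    | single g d =>
      rw [MonoidAlgebra.smul_single, gst_single, gst_single, MonoidAlgebra.smul_single, smul_eq_mul,
        map_mul, smul_eq_mul]
  rw [hs, gst_add, gst_add, gst_one, gst_u, gst_u]
  have h1 : z⁻¹ = z ^ 2 := by
    rw [inv_eq_iff_mul_eq_one, ← pow_succ', hz]
  have h2 : (z ^ 2)⁻¹ = z := by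
    rw [inv_eq_iff_mul_eq_one, ← pow_succ, hz]
  rw [h1, h2]
  have h3 : (starRingEnd ℂ) (1 / 3 : ℂ) = 1 / 3 := by
    have h4 : (1 / 3 : ℂ) = ((1 / 3 : ℝ) : ℂ) := by push_cast; rfl
    rw [h4, Complex.conj_ofReal]
  rw [h3]
  congr 1
  abel

/-- the commutative model -/
abbrev CM := MonoidAlgebra ℂ (Multiplicative ℤ × Multiplicative ℤ)

/-- commuting pair homomorphism -/
def pairHom {a c : Γ} (h : a * c = c * a) : Multiplicative ℤ × Multiplicative ℤ →* Γ where
  toFun p := a ^ (Multiplicative.toAdd p.1) * c ^ (Multiplicative.toAdd p.2)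
  map_one' := by simp
  map_mul' p q := by
    have hc : Commute a c := h
    have h1 : Commute (c ^ (Multiplicative.toAdd p.2)) (a ^ (Multiplicative.toAdd q.1)) :=
      (hc.symm.zpow_zpow _ _)
    simp only [Prod.fst_mul, Prod.snd_mul, toAdd_mul, _root_.zpow_add]
    rw [mul_assoc, mul_assoc, ← mul_assoc (c ^ (Multiplicative.toAdd p.2)), h1.eq, mul_assoc]

/-- `(t⁻¹ (1 - a)) ^ m`. -/
lemma S_pow {a c t : Γ} (hc : ∀ g : Γ, c * g = g * c) (hta : t * a = a * c * t) (m : ℕ) :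
    (u t⁻¹ * (1 - u a)) ^ m = u (t⁻¹ ^ m) *
      MonoidAlgebra.mapDomainRingHom ℂ (pairHom (a := a) (c := c) (hc a).symm)
        (∏ j ∈ Finset.range m, (1 - u ((Multiplicative.ofAdd (1 : ℤ), Multiplicative.ofAdd (0 : ℤ)))
          * u ((Multiplicative.ofAdd (0 : ℤ), Multiplicative.ofAdd (1 : ℤ))) ^ j : CM)) := by
  set Ψ := MonoidAlgebra.mapDomainRingHom ℂ (pairHom (a := a) (c := c) (hc a).symm) with hΨ
  have hΨa : Ψ (u ((Multiplicative.ofAdd (1 : ℤ), Multiplicative.ofAdd (0 : ℤ)))) = u a := by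
    rw [hΨ]
    unfold u
    simp [pairHom]
  have hΨc : Ψ (u ((Multiplicative.ofAdd (0 : ℤ), Multiplicative.ofAdd (1 : ℤ)))) = u c := by
    rw [hΨ]
    unfold u
    simp [pairHom]
  -- products
  have hfac : ∀ j : ℕ, Ψ (1 - u ((Multiplicative.ofAdd (1 : ℤ), Multiplicative.ofAdd (0 : ℤ)))
          * u ((Multiplicative.ofAdd (0 : ℤ), Multiplicative.ofAdd (1 : ℤ))) ^ j) = 1 - u (a * c ^ j) := by
    intro j
    rw [map_sub, map_one, map_mul, map_pow, hΨa, hΨc, u_pow, u_mul]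
  have hcp : ∀ (j : ℕ) (g : Γ), c ^ j * g = g * c ^ j := by
    intro j g
    have : Commute c g := hc g
    exact (this.pow_left j).eq
  have hmove : ∀ j : ℕ, (1 - u (a * c ^ j)) * u t⁻¹ = u t⁻¹ * (1 - u (a * c ^ (j + 1))) := by
    intro j
    rw [sub_mul, mul_sub, one_mul, mul_one, u_mul, u_mul]
    congr 2
    have h1 : t * (a * c ^ j * t⁻¹) = a * c ^ (j + 1) := by
      calc t * (a * c ^ j * t⁻¹) = (t * a) * (c ^ j * t⁻¹) := by group
        _ = (a * c * t) * (t⁻¹ * c ^ j) := by rw [hta, hcp]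
        _ = a * (c * c ^ j) := by group
        _ = a * c ^ (j + 1) := by rw [pow_succ']
    rw [← h1]; group
  -- shift map: prod over j of (1 - a c^(j+1))
  have hprod : ∀ m : ℕ, Ψ (∏ j ∈ Finset.range m, (1 - u ((Multiplicative.ofAdd (1 : ℤ), Multiplicative.ofAdd (0 : ℤ)))
          * u ((Multiplicative.ofAdd (0 : ℤ), Multiplicative.ofAdd (1 : ℤ))) ^ j)) * u t⁻¹
      = u t⁻¹ * Ψ (∏ j ∈ Finset.range m, (1 - u ((Multiplicative.ofAdd (1 : ℤ), Multiplicative.ofAdd (0 : ℤ)))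
          * u ((Multiplicative.ofAdd (0 : ℤ), Multiplicative.ofAdd (1 : ℤ))) ^ (j + 1))) := by
    intro m
    induction m with
    | zero => simp
    | succ m ih =>
      rw [Finset.prod_range_succ, Finset.prod_range_succ, map_mul, map_mul, hfac, hfac, mul_assoc,
        hmove, ← mul_assoc, ih, mul_assoc]
  induction m with
  | zero => simp [u_one]
  | succ m ih =>
    rw [pow_succ, ih, mul_assoc, ← mul_assoc (Ψ _), hprod, pow_succ, ← u_mul]
    rw [Finset.prod_range_succ', map_mul, hfac]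
    simp only [pow_zero, mul_one, mul_assoc]

/-- nilpotency -/
lemma S_nilp {a c t : Γ} (k : ℕ) (hc : ∀ g : Γ, c * g = g * c) (hta : t * a = a * c * t)
    (ha : a ^ (3 ^ (k + 1)) = 1) (hc3 : (c ^ (3 ^ k)) ^ 3 = 1) :
    IsNilpotent (2 * (u t⁻¹ * (1 - u a)) * (1 - e0 (c ^ (3 ^ k)))) := by
  set z := c ^ (3 ^ k) with hz
  have hzc : ∀ g : Γ, z * g = g * z := by
    intro g
    have : Commute c g := hc g
    exact (this.pow_left _).eq
  have hidem := e0_idem hc3
  have hcomm : Commute (2 * (u t⁻¹ * (1 - u a))) (1 - e0 z) := by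
    have : Commute (2 * (u t⁻¹ * (1 - u a))) (e0 z) := (e0_comm hzc _).symm
    exact (Commute.one_right _).sub_right this
  have h1e : (1 - e0 z) * (1 - e0 z) = 1 - e0 z := by
    rw [mul_sub, mul_one, sub_mul, one_mul, hidem, sub_self, sub_zero]
  have h1ep : ∀ m : ℕ, (1 - e0 z) ^ (m + 1) = 1 - e0 z := by
    intro m
    induction m with
    | zero => simp
    | succ m ih => rw [pow_succ, ih, h1e]
  refine ⟨3 ^ (k + 1), ?_⟩
  rw [hcomm.mul_pow]
  have hpos : 3 ^ (k + 1) = (3 ^ (k + 1) - 1) + 1 := by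
    have : 0 < 3 ^ (k + 1) := by positivity
    omega
  have h2 : (1 - e0 z) ^ (3 ^ (k + 1)) = 1 - e0 z := by
    rw [hpos]; exact h1ep _
  rw [h2]
  have hcomm2 : Commute (2 : MonoidAlgebra ℂ Γ) (u t⁻¹ * (1 - u a)) := Commute.ofNat_left 2 _
  rw [hcomm2.mul_pow, S_pow hc hta]
  set Ψ := MonoidAlgebra.mapDomainRingHom ℂ (pairHom (a := a) (c := c) (hc a).symm) with hΨ
  have hΨa : Ψ (u ((Multiplicative.ofAdd (1 : ℤ), Multiplicative.ofAdd (0 : ℤ)))) = u a := by
    rw [hΨ]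
    unfold u
    simp [pairHom]
  have hΨc : Ψ (u ((Multiplicative.ofAdd (0 : ℤ), Multiplicative.ofAdd (1 : ℤ)))) = u c := by
    rw [hΨ]
    unfold u
    simp [pairHom]
  obtain ⟨W, hW⟩ := prod_cyc_dvd k (u ((Multiplicative.ofAdd (1 : ℤ), Multiplicative.ofAdd (0 : ℤ))) : CM)
    (u ((Multiplicative.ofAdd (0 : ℤ), Multiplicative.ofAdd (1 : ℤ))) : CM)
  rw [hW]
  have hΨW : Ψ (1 - (u ((Multiplicative.ofAdd (1 : ℤ), Multiplicative.ofAdd (0 : ℤ))) : CM) ^ 3 ^ (k + 1)
      + (1 + (u ((Multiplicative.ofAdd (0 : ℤ), Multiplicative.ofAdd (1 : ℤ))) : CM) ^ 3 ^ k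
        + ((u ((Multiplicative.ofAdd (0 : ℤ), Multiplicative.ofAdd (1 : ℤ))) : CM) ^ 3 ^ k) ^ 2) * W)
      = (1 + u z + u (z ^ 2)) * Ψ W := by
    rw [map_add Ψ, map_mul Ψ, map_sub Ψ, map_one Ψ, map_add Ψ, map_add Ψ, map_one Ψ, map_pow Ψ, map_pow Ψ,
      map_pow Ψ, hΨa, hΨc, u_pow a, ha, u_one, sub_self, zero_add, u_pow c, ← hz, map_pow Ψ, hΨc,
      u_pow c, ← hz, u_pow z]
  rw [hΨW]
  have h3 : 1 + u z + u (z ^ 2) = (3 : ℂ) • e0 z := by
    unfold e0
    rw [smul_smul]; norm_num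
  rw [h3, smul_mul_assoc, mul_smul_comm, mul_smul_comm, smul_mul_assoc]
  have h4 : u (t⁻¹ ^ 3 ^ (k + 1)) * (e0 z * Ψ W) = (u (t⁻¹ ^ 3 ^ (k + 1)) * Ψ W) * e0 z := by
    rw [e0_comm hzc, mul_assoc]
  rw [h4, mul_assoc, mul_assoc, mul_sub, mul_one, hidem, sub_self, mul_zero, mul_zero, smul_zero]

lemma gst_smul (r : ℂ) (x : MonoidAlgebra ℂ Γ) : gst (r • x) = (starRingEnd ℂ r) • gst x := by
  induction x using MonoidAlgebra.induction_linear with
  | zero => simp [gst_zero]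
  | add x y hx hy => rw [smul_add, gst_add, hx, hy, gst_add, smul_add]
  | single g d =>
    rw [MonoidAlgebra.smul_single, gst_single, gst_single, MonoidAlgebra.smul_single, smul_eq_mul,
      map_mul, smul_eq_mul]

lemma gst_sub (x y : MonoidAlgebra ℂ Γ) : gst (x - y) = gst x - gst y := by
  have : gst (x - y) + gst y = gst x := by rw [← gst_add]; simp
  exact eq_sub_of_add_eq this

lemma gtr_u_ne {g : Γ} (h : g ≠ 1) : (u g).coeff 1 = 0 := by
  classical
  rw [coeff_u_one, if_neg h]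

lemma gtr_u_one' : (1 : MonoidAlgebra ℂ Γ).coeff 1 = 1 := by
  rw [MonoidAlgebra.one_def, coeff_single]; simp

/-- Upper bound. -/
theorem A_upper (φt : Γ →* Multiplicative ℤ) {a c t : Γ} (k : ℕ) (hc : ∀ g : Γ, c * g = g * c)
    (hta : t * a = a * c * t) (ha : a ^ (3 ^ (k + 1)) = 1) (hc3 : (c ^ (3 ^ k)) ^ 3 = 1)
    (hz1 : c ^ (3 ^ k) ≠ 1) (ha0 : a ≠ 1) (ha1 : a * c ^ (3 ^ k) ≠ 1) (ha2 : a * (c ^ (3 ^ k)) ^ 2 ≠ 1)
    (hφa : φt a = 1) (hφt : φt t = Multiplicative.ofAdd 1) :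
    b.dt (sc (Ael a t)) ≤ 1 / 2 * Real.log (11 / 3) := by
  have hnil := S_nilp k hc hta ha hc3
  have hφc : φt c = 1 := by
    have h := congrArg φt hta
    rw [map_mul, map_mul, map_mul, hφa, hφt, one_mul, mul_one] at h
    exact (right_eq_mul.1 h)
  set z := c ^ (3 ^ k) with hz
  have hφz : φt z = 1 := by rw [hz, map_pow, hφc, one_pow]
  have hzc : ∀ g : Γ, z * g = g * z := by
    intro g
    have : Commute c g := hc g
    exact (this.pow_left _).eq
  have hz2 : z ^ 2 ≠ 1 := by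
    intro h
    apply hz1
    rw [pow_succ, h, one_mul] at hc3
    exact hc3
  have hidem := e0_idem hc3
  obtain ⟨S, hS⟩ : ∃ S, S = 2 * (u t⁻¹ * (1 - u a)) := ⟨_, rfl⟩
  rw [← hS] at hnil
  have hSe : e0 z * S = S * e0 z := e0_comm hzc S
  have hdec1 : Ael a t = u t * (1 + S) := by
    rw [hS]
    unfold Ael
    have h1 : u t * u t⁻¹ = 1 := by rw [u_mul, mul_inv_cancel, u_one]
    have h2 : u t * (2 * (u t⁻¹ * (1 - u a))) = 2 * ((u t * u t⁻¹) * (1 - u a)) := by
      rw [two_mul, two_mul, mul_add, mul_assoc]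
    rw [mul_add, mul_one, h2, h1, one_mul, add_comm]
  have hdec2 : 1 + S = (1 + S * e0 z) * (1 + S * (1 - e0 z)) := by
    have h1 : S * e0 z * (S * (1 - e0 z)) = 0 := by
      rw [mul_assoc, ← mul_assoc (e0 z), hSe, mul_assoc, mul_sub, mul_one, hidem, sub_self, mul_zero,
        mul_zero]
    have h2 : S * (1 - e0 z) = S - S * e0 z := by rw [mul_sub, mul_one]
    rw [add_mul, mul_add, mul_add, h1, one_mul, one_mul, mul_one, h2]
    abel
  obtain ⟨hF, -⟩ := b.A_fin φt hφa hφt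
  rw [hdec1, ← sc_mul] at hF ⊢
  obtain ⟨hF1, hF2⟩ := b.F_of_mul hF
  rw [(b.F_mul hF1 hF2).2, (b.F_u t).2, zero_add]
  rw [hdec2, ← sc_mul] at hF2 ⊢
  obtain ⟨hF3, hF4⟩ := b.F_of_mul hF2
  rw [(b.F_mul hF3 hF4).2, (b.F_one_add_nilpotent hnil).2, add_zero]
  -- trace computation
  have htr : gtr ((1 + S * e0 z) * gst (1 + S * e0 z)) = 11 / 3 := by
    have e1 : gst (1 + S * e0 z) = 1 + e0 z * gst S := by
      rw [gst_add, gst_one, gst_mul, gst_e0 hc3]
    have e2 : gst S = 2 * ((1 - u a⁻¹) * u t) := by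
      rw [hS, two_mul, gst_add, gst_mul, gst_sub, gst_one, gst_u, gst_u, inv_inv, two_mul]
    have e3 : (1 + S * e0 z) * (1 + e0 z * gst S)
        = 1 + S * e0 z + e0 z * gst S + S * gst S * e0 z := by
      have h1 : S * e0 z * (e0 z * gst S) = S * gst S * e0 z := by
        rw [mul_assoc, ← mul_assoc (e0 z), hidem, e0_comm hzc, mul_assoc]
      rw [add_mul, one_mul, mul_add, mul_one, h1]
      abel
    have e4 : S * gst S = (4 : ℂ) • ((2 : ℂ) • 1 - u (t⁻¹ * a * t) - u (t⁻¹ * a⁻¹ * t)) := by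
      rw [e2, hS]
      have h1 : u t⁻¹ * (1 - u a) * ((1 - u a⁻¹) * u t) =
          (2 : ℂ) • 1 - u (t⁻¹ * a * t) - u (t⁻¹ * a⁻¹ * t) := by
        have h2 : u t⁻¹ * (1 - u a) * ((1 - u a⁻¹) * u t)
            = u t⁻¹ * ((1 - u a) * (1 - u a⁻¹)) * u t := by
          simp only [mul_assoc]
        have h3 : (1 - u a) * (1 - u a⁻¹) = (2 : ℂ) • (1 : MonoidAlgebra ℂ Γ) - u a - u a⁻¹ := by
          have h4 : u a * u a⁻¹ = 1 := by rw [u_mul, mul_inv_cancel, u_one]
          rw [sub_mul, mul_sub, mul_sub, h4, two_smul]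
          simp only [one_mul, mul_one]
          abel
        rw [h2, h3, mul_sub, mul_sub, sub_mul, sub_mul, mul_smul_comm, smul_mul_assoc, mul_one, u_mul,
          u_mul, u_mul, u_mul, u_mul, inv_mul_cancel, u_one]
      have h5 : 2 * (u t⁻¹ * (1 - u a)) * (2 * ((1 - u a⁻¹) * u t))
          = (4 : ℂ) • (u t⁻¹ * (1 - u a) * ((1 - u a⁻¹) * u t)) := by
        rw [two_eq, smul_mul_assoc, one_mul, smul_mul_assoc (2 : ℂ) 1, one_mul, smul_mul_smul_comm]
        norm_num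
      rw [h5, h1]
    rw [e1, e3, e4, e2, hS]
    unfold e0
    -- expand
    have n1 : ∀ w : Γ, φt w = 1 → t⁻¹ * w ≠ 1 := by
      intro w hw h
      have h1 := congrArg φt h
      rw [map_mul, map_inv, hφt, hw, map_one φt, mul_one] at h1
      have h2 := congrArg Multiplicative.toAdd h1
      simp at h2
    have n2 : ∀ w : Γ, φt w = 1 → w * t ≠ 1 := by
      intro w hw h
      have h1 := congrArg φt h
      rw [map_mul, hφt, hw, map_one φt, one_mul] at h1
      have h2 := congrArg Multiplicative.toAdd h1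
      simp at h2
    have c1 : (2 * (u t⁻¹ * (1 - u a)) * ((1 / 3 : ℂ) • (1 + u z + u (z ^ 2)))).coeff 1 = 0 := by
      rw [mul_smul_comm, two_eq, smul_mul_assoc, one_mul, smul_mul_assoc]
      have : u t⁻¹ * (1 - u a) * (1 + u z + u (z ^ 2))
          = u (t⁻¹ * 1) - u (t⁻¹ * a) + (u (t⁻¹ * z) - u (t⁻¹ * (a * z)))
            + (u (t⁻¹ * z ^ 2) - u (t⁻¹ * (a * z ^ 2))) := by
        rw [mul_add, mul_add, mul_sub, mul_one, mul_one, u_mul, sub_mul, sub_mul, u_mul, u_mul, u_mul,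
          u_mul, mul_one, mul_assoc, mul_assoc]
      rw [this]
      simp only [coeff_smul, coeff_add, coeff_sub, Finsupp.smul_apply, Finsupp.add_apply,
        Finsupp.sub_apply]
      rw [gtr_u_ne (n1 _ (map_one φt)), gtr_u_ne (n1 _ hφa), gtr_u_ne (n1 _ hφz),
        gtr_u_ne (n1 _ (by rw [map_mul, hφa, hφz, one_mul])),
        gtr_u_ne (n1 _ (by rw [map_pow, hφz, one_pow])),
        gtr_u_ne (n1 _ (by rw [map_mul, map_pow, hφa, hφz, one_mul, one_pow]))]
      simp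
    have c2 : ((1 / 3 : ℂ) • (1 + u z + u (z ^ 2)) * (2 * ((1 - u a⁻¹) * u t))).coeff 1 = 0 := by
      rw [smul_mul_assoc, two_eq, smul_mul_assoc, one_mul, mul_smul_comm]
      have : (1 + u z + u (z ^ 2)) * ((1 - u a⁻¹) * u t)
          = u (1 * t) - u (a⁻¹ * t) + (u (z * t) - u ((z * a⁻¹) * t))
            + (u (z ^ 2 * t) - u ((z ^ 2 * a⁻¹) * t)) := by
        rw [add_mul, add_mul, sub_mul, one_mul, one_mul, u_mul, mul_sub, mul_sub, u_mul, u_mul, u_mul,
          u_mul, one_mul, mul_assoc, mul_assoc]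
      rw [this]
      have hai : φt a⁻¹ = 1 := by rw [map_inv, hφa, inv_one]
      simp only [coeff_smul, coeff_add, coeff_sub, Finsupp.smul_apply, Finsupp.add_apply,
        Finsupp.sub_apply]
      rw [gtr_u_ne (n2 _ (map_one φt)), gtr_u_ne (n2 _ hai), gtr_u_ne (n2 _ hφz),
        gtr_u_ne (n2 _ (by rw [map_mul, hai, hφz, one_mul])),
        gtr_u_ne (n2 _ (by rw [map_pow, hφz, one_pow])),
        gtr_u_ne (n2 _ (by rw [map_mul, map_pow, hai, hφz, one_pow, one_mul]))]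
      simp
    have m1 : ∀ j : ℕ, a * z ^ j ≠ 1 → t⁻¹ * a * t * z ^ j ≠ 1 := by
      intro j hj h
      apply hj
      have hzj : Commute (z ^ j) t := (show Commute z t from hzc t).pow_left j
      have h1 : t⁻¹ * a * t * z ^ j = t⁻¹ * (a * z ^ j) * t := by
        rw [mul_assoc _ t, ← hzj.eq]; group
      rw [h1] at h
      have h2 : a * z ^ j = t * (t⁻¹ * (a * z ^ j) * t) * t⁻¹ := by group
      rw [h2, h]; group
    have m2 : ∀ j : ℕ, a⁻¹ * z ^ j ≠ 1 → t⁻¹ * a⁻¹ * t * z ^ j ≠ 1 := by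
      intro j hj h
      apply hj
      have hzj : Commute (z ^ j) t := (show Commute z t from hzc t).pow_left j
      have h1 : t⁻¹ * a⁻¹ * t * z ^ j = t⁻¹ * (a⁻¹ * z ^ j) * t := by
        rw [mul_assoc _ t, ← hzj.eq]; group
      rw [h1] at h
      have h2 : a⁻¹ * z ^ j = t * (t⁻¹ * (a⁻¹ * z ^ j) * t) * t⁻¹ := by group
      rw [h2, h]; group
    have q1 : a⁻¹ * z ^ 1 ≠ 1 := by
      intro h
      apply ha2
      have h1 : a = z := by
        rw [pow_one] at h
        exact (inv_mul_eq_one.1 h)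
      rw [h1, ← pow_succ', hc3]
    have q2 : a⁻¹ * z ^ 2 ≠ 1 := by
      intro h
      apply ha1
      have h1 : a = z ^ 2 := inv_mul_eq_one.1 h
      rw [h1, ← pow_succ, hc3]
    have q0 : a⁻¹ * z ^ 0 ≠ 1 := by
      rw [pow_zero, mul_one]; simpa using ha0
    have c3 : ((4 : ℂ) • ((2 : ℂ) • 1 - u (t⁻¹ * a * t) - u (t⁻¹ * a⁻¹ * t))
        * ((1 / 3 : ℂ) • (1 + u z + u (z ^ 2)))).coeff 1 = 8 / 3 := by
      rw [smul_mul_smul_comm]
      have : ((2 : ℂ) • (1 : MonoidAlgebra ℂ Γ) - u (t⁻¹ * a * t) - u (t⁻¹ * a⁻¹ * t)) * (1 + u z + u (z ^ 2))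
          = (2 : ℂ) • (1 + u z + u (z ^ 2))
            - (u (t⁻¹ * a * t * z ^ 0) + u (t⁻¹ * a * t * z ^ 1) + u (t⁻¹ * a * t * z ^ 2))
            - (u (t⁻¹ * a⁻¹ * t * z ^ 0) + u (t⁻¹ * a⁻¹ * t * z ^ 1) + u (t⁻¹ * a⁻¹ * t * z ^ 2)) := by
        rw [sub_mul, sub_mul, smul_mul_assoc, one_mul, mul_add, mul_add, mul_add, mul_add, u_mul, u_mul,
          u_mul, u_mul, pow_zero, pow_one, mul_one, mul_one, mul_one, mul_one]
      rw [this]
      simp only [coeff_smul, coeff_add, coeff_sub, Finsupp.smul_apply, Finsupp.add_apply,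
        Finsupp.sub_apply]
      rw [gtr_u_ne (m1 0 (by simpa using ha0)), gtr_u_ne (m1 1 (by simpa using ha1)), gtr_u_ne (m1 2 ha2),
        gtr_u_ne (m2 0 q0), gtr_u_ne (m2 1 q1), gtr_u_ne (m2 2 q2), gtr_u_one', gtr_u_ne hz1,
        gtr_u_ne hz2]
      norm_num
    unfold gtr
    rw [coeff_add, coeff_add, coeff_add]
    simp only [Finsupp.add_apply]
    rw [c1, c2, c3, gtr_u_one']
    norm_num
  have h9 := b.dt_le_log hF3 (by rw [htr]; norm_num)
  rwa [htr] at h9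

end GApprox

end A

end Pool.Agent.MPfa412c
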