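import Pool.Agent.MPfa412c.Defs

/-!
# A criterion for being a closed triangulated 3-manifold
-/

namespace Pool.Agent.MPfa412c

namespace Delta

/-- cofaces of a simplex -/
def cof (K : Delta) (p : ℕ) (f : K.X p) : Type := {t : K.X (p + 1) × Fin (p + 2) // K.d p t.2 t.1 = f}

/-- cofaces in the link -/
def cofLink (K : Delta) (v : K.X 0) (p : ℕ) (f : (K.link v).X p) :
    (K.link v).cof p f ≃ K.cof (p + 1) f.1.1 where
  toFun t := ⟨(t.1.1.1.1, t.1.1.1.2.succAbove t.1.2), congrArg (fun s => s.1.1) t.2⟩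
  invFun t := ⟨(⟨(t.1.1, t.1.2.succAbove f.1.2), by
      have h := t.2
      have h2 := K.vertex_d (p + 1) t.1.2 f.1.2 t.1.1
      rw [h, f.2] at h2
      exact h2.symm⟩, f.1.2.predAbove t.1.2), by
      apply Subtype.ext
      have h := t.2
      change (K.d (p + 1) ((t.1.2.succAbove f.1.2).succAbove (f.1.2.predAbove t.1.2)) t.1.1,
        (f.1.2.predAbove t.1.2).predAbove (t.1.2.succAbove f.1.2)) = f.1
      rw [Fin.succAbove_succAbove_predAbove, Fin.predAbove_predAbove_succAbove, h]⟩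
  left_inv t := by
    obtain ⟨⟨⟨⟨τ, k⟩, hτ⟩, i'⟩, h⟩ := t
    apply Subtype.ext
    have h2 : i'.predAbove k = f.1.2 := congrArg (fun s => s.1.2) h
    refine Prod.ext (Subtype.ext (Prod.ext rfl ?_)) ?_
    · change (k.succAbove i').succAbove f.1.2 = k
      rw [← h2, Fin.succAbove_succAbove_predAbove]
    · change f.1.2.predAbove (k.succAbove i') = i'
      rw [← h2, Fin.predAbove_predAbove_succAbove]
  right_inv t := by
    obtain ⟨⟨τ, i⟩, h⟩ := t
    apply Subtype.ext
    refine Prod.ext rfl ?_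
    change (i.succAbove f.1.2).succAbove (f.1.2.predAbove i) = i
    rw [Fin.succAbove_succAbove_predAbove]

lemma vertex_one (K : Delta) (x : K.X 1) (j : Fin 2) : K.vertex 1 j x = K.d 0 (Fin.rev j) x := by
  fin_cases j
  · rfl
  · rfl

/-- the vertices of the link of a vertex in terms of cofaces -/
def linkVerts (K : Delta) (u : K.X 0) : (K.link u).X 0 ≃ K.cof 0 u where
  toFun s := ⟨(s.1.1, Fin.rev s.1.2), by
    have h := s.2
    change K.vertex 1 s.1.2 s.1.1 = u at h
    rw [vertex_one] at h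
    exact h⟩
  invFun t := ⟨(t.1.1, Fin.rev t.1.2), by
    have h := t.2
    change K.vertex 1 (Fin.rev t.1.2) t.1.1 = u
    rw [vertex_one, Fin.rev_rev]
    exact h⟩
  left_inv s := by
    apply Subtype.ext
    exact Prod.ext rfl (Fin.rev_rev _)
  right_inv s := by
    apply Subtype.ext
    exact Prod.ext rfl (Fin.rev_rev _)

lemma link_isFinite {K : Delta} (h : K.IsFinite) (v : K.X 0) : (K.link v).IsFinite := by
  obtain ⟨h1, n, h2⟩ := h
  refine ⟨fun p => ?_, n, fun p hp => ?_⟩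
  · have := h1 (p + 1)
    exact Finite.of_injective (fun s : (K.link v).X p => s.1) Subtype.val_injective
  · have := h2 (p + 1) (by omega)
    exact ⟨fun s => this.elim s.1.1⟩

lemma isEmpty_link {K : Delta} {n : ℕ} (h : ∀ p, n + 1 ≤ p → IsEmpty (K.X p)) (v : K.X 0) :
    ∀ p, n ≤ p → IsEmpty ((K.link v).X p) := fun p hp => by
  have := h (p + 1) (by omega)
  exact ⟨fun s => this.elim s.1.1⟩

/-- Criterion. -/
theorem isClosed3Manifold_of {K : Delta} (hfin : ∀ p, Finite (K.X p))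
    (h4 : ∀ p, 4 ≤ p → IsEmpty (K.X p)) (hconn : K.Connected)
    (htwo : ∀ f : K.X 2, Nat.card (K.cof 2 f) = 2)
    (hlink : ∀ v, (K.link v).Connected)
    (hlink2 : ∀ (v : K.X 0) (w : (K.link v).X 0), ((K.link v).link w).Connected)
    (hchi : ∀ v, (Nat.card ((K.link v).X 0) : ℤ) - Nat.card ((K.link v).X 1)
      + Nat.card ((K.link v).X 2) = 2) : K.IsClosed3Manifold := by
  have hK : K.IsFinite := ⟨hfin, 4, h4⟩
  refine ⟨hK, hconn, fun v => ⟨link_isFinite hK v, hlink v, fun w => ⟨link_isFinite (link_isFinite hK v) w,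
    hlink2 v w, fun u => ⟨?_, ?_⟩⟩, hchi v⟩⟩
  · rw [Nat.card_congr (((K.link v).link w).linkVerts u), Nat.card_congr ((K.link v).cofLink w 0 u),
      Nat.card_congr (K.cofLink v 1 u.1.1)]
    exact htwo _
  · intro p
    have e1 := isEmpty_link (n := 3) h4 v
    have e2 := isEmpty_link (n := 2) e1 w
    have e3 := isEmpty_link (n := 1) e2 u
    exact e3 (p + 1) (by omega)

/-- Connectedness from a rank function. -/
theorem connected_of_rank {K : Delta} (root : K.X 0) (rank : K.X 0 → ℕ)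
    (h : ∀ v, v = root ∨ ∃ e : K.X 1, (K.d 0 0 e = v ∧ rank (K.d 0 1 e) < rank v) ∨
      (K.d 0 1 e = v ∧ rank (K.d 0 0 e) < rank v)) : K.Connected := by
  have key : ∀ n : ℕ, ∀ v, rank v ≤ n → Relation.EqvGen (fun x y => ∃ e : K.X 1, K.d 0 1 e = x ∧ K.d 0 0 e = y) v root := by
    intro n
    induction n with
    | zero =>
      intro v hv
      rcases h v with rfl | ⟨e, ⟨-, h2⟩ | ⟨-, h2⟩⟩
      · exact Relation.EqvGen.refl _
      · omega
      · omega
    | succ n ih =>
      intro v hv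
      rcases h v with rfl | ⟨e, ⟨h1, h2⟩ | ⟨h1, h2⟩⟩
      · exact Relation.EqvGen.refl _
      · refine Relation.EqvGen.trans _ _ _ ?_ (ih (K.d 0 1 e) (by omega))
        exact Relation.EqvGen.symm _ _ (Relation.EqvGen.rel _ _ ⟨e, rfl, h1⟩)
      · refine Relation.EqvGen.trans _ _ _ ?_ (ih (K.d 0 0 e) (by omega))
        exact Relation.EqvGen.rel _ _ ⟨e, h1, rfl⟩
  exact ⟨⟨root⟩, fun v w => Relation.EqvGen.trans _ _ _ (key _ v le_rfl)
    (Relation.EqvGen.symm _ _ (key _ w le_rfl))⟩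

end Delta

end Pool.Agent.MPfa412c
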