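import Pool.Agent.MPfa412c.AElem

/-!
# Heisenberg groups, their quotients, and approximation by finite quotients
-/

set_option linter.unusedSectionVars false

open Matrix MeasureTheory Filter Topology MonoidAlgebra
open scoped ComplexOrder ComplexConjugate

namespace Pool.Agent.MPfa412c

section reg

variable {Q : Type*} [Group Q] [Fintype Q] [DecidableEq Q]

/-- left regular representation of a finite group -/
noncomputable def reg : Q →* Matrix Q Q ℂ where
  toFun q := fun x y => if x = q * y then 1 else 0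
  map_one' := by
    ext x y
    rw [one_mul, Matrix.one_apply]
  map_mul' q r := by
    ext x y
    rw [Matrix.mul_apply]
    simp only [ite_mul, one_mul, zero_mul]
    rw [Finset.sum_eq_single (r * y)]
    · simp [mul_assoc]
    · intro z _ hz
      simp [hz]
    · intro h; exact absurd (Finset.mem_univ _) h

lemma reg_apply (q x y : Q) : reg q x y = if x = q * y then 1 else 0 := rfl

lemma reg_inv (q : Q) : reg q⁻¹ = (reg q)ᴴ := by
  ext x y
  rw [Matrix.conjTranspose_apply, reg_apply, reg_apply]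
  by_cases h : x = q⁻¹ * y
  · rw [if_pos h, if_pos (by rw [h, mul_inv_cancel_left])]; simp
  · rw [if_neg h, if_neg (fun h' => h (by rw [h', inv_mul_cancel_left]))]; simp

lemma reg_trace {q : Q} (hq : q ≠ 1) : (reg q).trace = 0 := by
  unfold Matrix.trace
  apply Finset.sum_eq_zero
  intro x _
  rw [Matrix.diag_apply, reg_apply, if_neg]
  intro h
  exact hq (by simpa using h.symm)

end reg

namespace GApprox

/-- approximation by finite quotients -/
noncomputable def ofFinite {Γ : Type*} [Group Γ] (Q : ℕ → Type) [∀ i, Group (Q i)]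
    [∀ i, Fintype (Q i)] [∀ i, DecidableEq (Q i)] (f : ∀ i, Γ →* Q i)
    (hf : ∀ g : Γ, g ≠ 1 → ∀ᶠ i in atTop, f i g ≠ 1) : GApprox Γ where
  ι := ℕ
  l := atTop
  neBot := inferInstance
  D := Q
  fin := inferInstance
  dec := inferInstance
  ne := fun _ => ⟨1⟩
  ρ := fun i => reg.comp (f i)
  ρ_inv := fun i g => by
    rw [MonoidHom.comp_apply, MonoidHom.comp_apply, map_inv, reg_inv]
  tr_lim := fun g hg => by
    refine tendsto_const_nhds.congr' ?_
    filter_upwards [hf g hg] with i hi
    rw [MonoidHom.comp_apply, reg_trace hi, zero_div]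

/-- pull back along an injective homomorphism -/
noncomputable def comap {Γ Γ' : Type*} [Group Γ] [Group Γ'] (b : GApprox Γ') (f : Γ →* Γ')
    (hf : Function.Injective f) : GApprox Γ where
  ι := b.ι
  l := b.l
  neBot := b.neBot
  D := b.D
  fin := b.fin
  dec := b.dec
  ne := b.ne
  ρ := fun i => (b.ρ i).comp f
  ρ_inv := fun i g => by
    rw [MonoidHom.comp_apply, MonoidHom.comp_apply, map_inv]
    exact b.ρ_inv i _
  tr_lim := fun g hg => b.tr_lim (f g) (fun h => hg (hf (by rw [h, map_one])))

end GApprox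

/-- Heisenberg type groups `(x, z, y) (x', z', y') = (x + x', z + z' + σ(y) x', y + y')`. -/
@[ext] structure HG {R S : Type} [CommRing R] [CommRing S] (σ : S →+* R) where
  x : R
  z : R
  y : S

namespace HG

variable {R S : Type} [CommRing R] [CommRing S] {σ : S →+* R}

instance : Mul (HG σ) := ⟨fun g h => ⟨g.x + h.x, g.z + h.z + σ g.y * h.x, g.y + h.y⟩⟩
instance : One (HG σ) := ⟨⟨0, 0, 0⟩⟩
instance : Inv (HG σ) := ⟨fun g => ⟨-g.x, -g.z + σ g.y * g.x, -g.y⟩⟩

@[simp] lemma mul_x (g h : HG σ) : (g * h).x = g.x + h.x := rfl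
@[simp] lemma mul_z (g h : HG σ) : (g * h).z = g.z + h.z + σ g.y * h.x := rfl
@[simp] lemma mul_y (g h : HG σ) : (g * h).y = g.y + h.y := rfl
@[simp] lemma one_x : (1 : HG σ).x = 0 := rfl
@[simp] lemma one_z : (1 : HG σ).z = 0 := rfl
@[simp] lemma one_y : (1 : HG σ).y = 0 := rfl
@[simp] lemma inv_x (g : HG σ) : (g⁻¹).x = -g.x := rfl
@[simp] lemma inv_z (g : HG σ) : (g⁻¹).z = -g.z + σ g.y * g.x := rfl
@[simp] lemma inv_y (g : HG σ) : (g⁻¹).y = -g.y := rfl

instance : Group (HG σ) :=
  Group.ofLeftAxioms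
    (by intro g h k; ext <;> simp <;> ring)
    (by intro g; ext <;> simp)
    (by intro g; ext <;> simp)

/-- the element `a` -/
def ea : HG σ := ⟨1, 0, 0⟩
/-- the element `c` -/
def ec : HG σ := ⟨0, 1, 0⟩
/-- the element `t` -/
def et : HG σ := ⟨0, 0, 1⟩

lemma ta : (et : HG σ) * ea = ea * ec * et := by
  ext <;> simp [ea, ec, et]

lemma c_central (g : HG σ) : ec * g = g * ec := by
  ext <;> simp [ec, add_comm]

lemma ea_pow (n : ℕ) : (ea : HG σ) ^ n = ⟨n, 0, 0⟩ := by
  induction n with
  | zero => ext <;> simp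
  | succ n ih => rw [pow_succ, ih]; ext <;> simp [ea]

lemma ec_pow (n : ℕ) : (ec : HG σ) ^ n = ⟨0, n, 0⟩ := by
  induction n with
  | zero => ext <;> simp
  | succ n ih => rw [pow_succ, ih]; ext <;> simp [ec]

/-- the homomorphism reading off `y` -/
def hy (σ : S →+* R) : HG σ →* Multiplicative S where
  toFun g := Multiplicative.ofAdd g.y
  map_one' := rfl
  map_mul' _ _ := rfl

/-- the homomorphism reading off `x` -/
def hx (σ : S →+* R) : HG σ →* Multiplicative R where
  toFun g := Multiplicative.ofAdd g.x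
  map_one' := rfl
  map_mul' _ _ := rfl

/-- functoriality -/
def map {R' S' : Type} [CommRing R'] [CommRing S'] {σ' : S' →+* R'} (f : R →+* R') (g : S →+* S')
    (h : ∀ s, f (σ s) = σ' (g s)) : HG σ →* HG σ' where
  toFun p := ⟨f p.x, f p.z, g p.y⟩
  map_one' := by ext <;> simp
  map_mul' p q := by ext <;> simp [h]

lemma map_x {R' S' : Type} [CommRing R'] [CommRing S'] {σ' : S' →+* R'} (f : R →+* R') (g : S →+* S')
    (h : ∀ s, f (σ s) = σ' (g s)) (p : HG σ) : (map f g h p).x = f p.x := rfl
lemma map_z {R' S' : Type} [CommRing R'] [CommRing S'] {σ' : S' →+* R'} (f : R →+* R') (g : S →+* S')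
    (h : ∀ s, f (σ s) = σ' (g s)) (p : HG σ) : (map f g h p).z = f p.z := rfl
lemma map_y {R' S' : Type} [CommRing R'] [CommRing S'] {σ' : S' →+* R'} (f : R →+* R') (g : S →+* S')
    (h : ∀ s, f (σ s) = σ' (g s)) (p : HG σ) : (map f g h p).y = g p.y := rfl

/-- an equivalence with triples -/
def equivProd (σ : S →+* R) : HG σ ≃ R × R × S where
  toFun g := (g.x, g.z, g.y)
  invFun p := ⟨p.1, p.2.1, p.2.2⟩
  left_inv _ := rfl
  right_inv _ := rfl

instance [Fintype R] [Fintype S] : Fintype (HG σ) := Fintype.ofEquiv _ (equivProd σ).symm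
instance [DecidableEq R] [DecidableEq S] : DecidableEq (HG σ) := fun g h =>
  decidable_of_iff (g.x = h.x ∧ g.z = h.z ∧ g.y = h.y)
    ⟨fun ⟨h1, h2, h3⟩ => HG.ext h1 h2 h3, fun h => by rw [h]; exact ⟨rfl, rfl, rfl⟩⟩

end HG

/-- an integer divisible by arbitrarily high powers of three vanishes -/
lemma int_eventually {m : ℤ} (hm : m ≠ 0) (k : ℕ) : ∀ᶠ i : ℕ in atTop, ((m : ZMod (3 ^ (k + i))) ≠ 0) := by
  filter_upwards [eventually_ge_atTop m.natAbs] with i hi h
  rw [ZMod.intCast_zmod_eq_zero_iff_dvd] at h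
  have h1 := Int.le_of_dvd (by positivity) ((Int.dvd_natAbs.2 h) : ((3 ^ (k + i) : ℕ) : ℤ) ∣ (m.natAbs : ℤ))
  have h2 : (3 : ℕ) ^ (k + i) ≤ m.natAbs := by exact_mod_cast h1
  have h3 : i < 3 ^ i := Nat.lt_pow_self (by norm_num)
  have h4 : (3 : ℕ) ^ i ≤ 3 ^ (k + i) := Nat.pow_le_pow_right (by norm_num) (by omega)
  omega

/-- The integral Heisenberg group. -/
abbrev G3 : Type := HG (RingHom.id ℤ)

/-- The quotient by `n`-th powers in the normal abelian part. -/
abbrev H3 (n : ℕ) : Type := HG (Int.castRingHom (ZMod n))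

/-- reduction -/
def red (n : ℕ) : G3 →* H3 n := HG.map (Int.castRingHom (ZMod n)) (RingHom.id ℤ) (fun _ => rfl)

/-- approximation of the integral Heisenberg group -/
noncomputable def approxG : GApprox G3 :=
  GApprox.ofFinite (fun i => HG (RingHom.id (ZMod (3 ^ (0 + i)))))
    (fun i => HG.map (Int.castRingHom _) (Int.castRingHom _) (fun _ => rfl)) (by
      intro g hg
      have h1 : g.x ≠ 0 ∨ g.z ≠ 0 ∨ g.y ≠ 0 := by
        by_contra h
        push Not at h
        exact hg (HG.ext h.1 h.2.1 h.2.2)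
      rcases h1 with h | h | h
      · filter_upwards [int_eventually h 0] with i hi h2
        exact hi (congrArg HG.x h2)
      · filter_upwards [int_eventually h 0] with i hi h2
        exact hi (congrArg HG.z h2)
      · filter_upwards [int_eventually h 0] with i hi h2
        exact hi (congrArg HG.y h2))

/-- approximation of the quotients of the integral Heisenberg group -/
noncomputable def approxH (k : ℕ) : GApprox (H3 (3 ^ k)) :=
  GApprox.ofFinite (fun i => HG (ZMod.castHom (pow_dvd_pow 3 (Nat.le_add_right k i)) (ZMod (3 ^ k))))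
    (fun i => HG.map (RingHom.id _) (Int.castRingHom _) (fun s => by simp)) (by
      intro g hg
      have h1 : g.x ≠ 0 ∨ g.z ≠ 0 ∨ g.y ≠ 0 := by
        by_contra h
        push Not at h
        exact hg (HG.ext h.1 h.2.1 h.2.2)
      rcases h1 with h | h | h
      · exact Eventually.of_forall fun i h2 => h (congrArg HG.x h2)
      · exact Eventually.of_forall fun i h2 => h (congrArg HG.z h2)
      · filter_upwards [int_eventually h k] with i hi h2
        exact hi (congrArg HG.y h2))

end Pool.Agent.MPfa412c
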