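import Pool.Agent.MPfa412c.Link
import Pool.Agent.MPfa412c.Groups

/-!
# Determinant class over the trivial group
-/

set_option linter.unusedSectionVars false

open Matrix MeasureTheory Filter Topology MonoidAlgebra

namespace Pool.Agent.MPfa412c

section

variable {Γ : Type} [Group Γ] [Subsingleton Γ]

/-- the augmentation -/
noncomputable def aug : MonoidAlgebra ℤ Γ →ₐ[ℤ] ℤ := MonoidAlgebra.lift ℤ ℤ Γ (1 : Γ →* ℤ)

lemma aug_eq (x : MonoidAlgebra ℤ Γ) : aug x = x.coeff 1 := by
  induction x using MonoidAlgebra.induction_linear with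
  | zero => simp
  | add x y hx hy => rw [map_add, hx, hy, coeff_add, Finsupp.add_apply]
  | single g c =>
    have hg : g = 1 := Subsingleton.elim _ _
    subst hg
    unfold aug
    rw [MonoidAlgebra.lift_single, coeff_single, Finsupp.single_eq_same]
    simp

variable {n : Type} [Fintype n] [DecidableEq n]

lemma trace_aug (H : Matrix n n (MonoidAlgebra ℤ Γ)) (m : ℕ) :
    ((∑ i, ((H ^ m) i i).coeff 1 : ℤ) : ℝ) = (((H.map aug).map (Int.cast : ℤ → ℝ)) ^ m).trace := by
  have h1 : (((H.map aug).map (Int.cast : ℤ → ℝ)) ^ m) = ((H ^ m).map aug).map (Int.cast : ℤ → ℝ) := by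
    have e1 : (H ^ m).map aug = (H.map aug) ^ m := by
      have := map_pow ((aug : MonoidAlgebra ℤ Γ →ₐ[ℤ] ℤ).toRingHom.mapMatrix (m := n)) H m
      exact this
    have e2 : ((H.map aug) ^ m).map (Int.cast : ℤ → ℝ) = ((H.map aug).map (Int.cast : ℤ → ℝ)) ^ m := by
      have := map_pow ((Int.castRingHom ℝ).mapMatrix (m := n)) (H.map aug) m
      exact this
    rw [e1, e2]
  rw [h1]
  unfold Matrix.trace
  push_cast
  apply Finset.sum_congr rfl
  intro i _
  simp only [Matrix.diag_apply, Matrix.map_apply]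
  rw [aug_eq]

lemma integral_poly {H : Matrix n n (MonoidAlgebra ℤ Γ)} {μ : Measure ℝ} (hμ : IsSpectralMeasure H μ)
    (P : Polynomial ℝ) : Integrable (fun x => P.eval x) μ ∧
    ∫ x, P.eval x ∂μ = (Polynomial.aeval ((H.map aug).map (Int.cast : ℤ → ℝ)) P).trace := by
  obtain ⟨h1, ⟨C, hC⟩, h3⟩ := hμ
  have hae : ∀ᵐ x ∂μ, x ∈ Set.Icc 0 C := by
    rw [ae_iff]; exact hC
  have hint : ∀ P : Polynomial ℝ, Integrable (fun x => P.eval x) μ := by
    intro P
    obtain ⟨B, hB⟩ := (isCompact_Icc (a := (0 : ℝ)) (b := C)).exists_bound_of_continuousOn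
      (P.continuous.continuousOn)
    refine Integrable.of_bound (P.continuous.aestronglyMeasurable) B ?_
    filter_upwards [hae] with x hx using hB x hx
  refine ⟨hint P, ?_⟩
  induction P using Polynomial.induction_on' with
  | add p q hp hq =>
    simp only [Polynomial.eval_add]
    rw [integral_add (hint p) (hint q), hp, hq, map_add, Matrix.trace_add]
  | monomial m a =>
    simp only [Polynomial.eval_monomial]
    rw [integral_const_mul, h3, trace_aug, Polynomial.aeval_monomial, ← Algebra.smul_def,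
      Matrix.trace_smul, smul_eq_mul]

theorem integrableOn_log_of_subsingleton {H : Matrix n n (MonoidAlgebra ℤ Γ)} {μ : Measure ℝ}
    (hμ : IsSpectralMeasure H μ) : IntegrableOn Real.log (Set.Ioi 0) μ := by
  have := hμ.finite
  obtain ⟨M, hM⟩ : ∃ M, M = (H.map aug).map (Int.cast : ℤ → ℝ) := ⟨_, rfl⟩
  have hP : ∫ x, (M.charpoly ^ 2).eval x ∂μ = 0 := by
    rw [(integral_poly hμ _).2, ← hM, map_pow, Matrix.aeval_self_charpoly]
    simp
  have hne : M.charpoly ≠ 0 := (Matrix.charpoly_monic M).ne_zero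
  have hint := (integral_poly hμ (M.charpoly ^ 2)).1
  have hnn : 0 ≤ᵐ[μ] fun x => (M.charpoly ^ 2).eval x := by
    filter_upwards with x
    simp only [Pi.zero_apply, Polynomial.eval_pow]
    positivity
  have hz := (integral_eq_zero_iff_of_nonneg_ae hnn hint).1 hP
  have hroots : ∀ᵐ x ∂μ, x ∈ M.charpoly.roots.toFinset := by
    filter_upwards [hz] with x hx
    simp only [Pi.zero_apply, Polynomial.eval_pow] at hx
    rw [Multiset.mem_toFinset, Polynomial.mem_roots hne]
    exact pow_eq_zero_iff (two_ne_zero) |>.1 hx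
  apply Integrable.integrableOn
  refine Integrable.of_bound (by fun_prop) (∑ r ∈ M.charpoly.roots.toFinset, |Real.log r|) ?_
  filter_upwards [hroots] with x hx
  rw [Real.norm_eq_abs]
  exact Finset.single_le_sum (f := fun r => |Real.log r|) (fun _ _ => abs_nonneg _) hx

end

/-- the approximation of the trivial group by itself -/
noncomputable def approxTriv (Γ : Type) [Group Γ] [Subsingleton Γ] : GApprox Γ :=
  GApprox.ofFinite (fun _ => Multiplicative (ZMod 1)) (fun _ => 1)
    (fun g hg => absurd (Subsingleton.elim g 1) hg)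

theorem Delta.detClass_of_subsingleton (K : Delta) [∀ p, Fintype (K.X p)] [∀ p, DecidableEq (K.X p)]
    {Γ : Type} [Group Γ] [Subsingleton Γ] (γ : K.X 1 → Γ) : K.DetClass γ := by
  intro p
  have h := spectralMeasure_spec (approxTriv Γ) (K.lap_pos (approxTriv Γ) γ p)
  exact ⟨h, integrableOn_log_of_subsingleton h⟩

end Pool.Agent.MPfa412c
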