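import Pool.Agent.MPfa412c.OneSub
import Pool.Agent.MPfa412c.Manifold
import Pool.Agent.MPfa412c.TrivialGroup

/-!
# Assembling the pieces
-/

set_option linter.unusedSectionVars false

open Matrix MeasureTheory Filter Topology MonoidAlgebra
open scoped ComplexOrder ComplexConjugate

namespace Pool.Agent.MPfa412c

/-- A group with a map from the Heisenberg group, an approximation, and a compatible map to `ℤ`. -/
structure Good (Γ : Type) [Group Γ] where
  π : G3 →* Γ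
  b : GApprox Γ
  φ : Γ →* Multiplicative ℤ
  hφ : ∀ g, φ (π g) = Multiplicative.ofAdd g.y

/-- the group itself -/
noncomputable def goodG : Good G3 := ⟨MonoidHom.id _, approxG, HG.hy _, fun _ => rfl⟩

/-- the quotients -/
noncomputable def goodQ {k : ℕ} (hk : k ≠ 0) : Good (G3 ⧸ NN k) :=
  ⟨QuotientGroup.mk' (NN k), approxQ hk, φQ hk, fun _ => rfl⟩

/-- the element `2 - 2 a + t` of the integral group ring -/
noncomputable def AZ : MonoidAlgebra ℤ G3 :=
  MonoidAlgebra.single ⟨0, 0, 0⟩ 2 + (MonoidAlgebra.single ⟨1, 0, 0⟩ (-2) + MonoidAlgebra.single ⟨0, 0, 1⟩ 1)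

/-- Elements whose log-determinant is known to be a multiple of that of `A`. -/
inductive DTy : MonoidAlgebra ℤ G3 → ℕ → Prop
  | unit (g : G3) : DTy (MonoidAlgebra.single g 1) 0
  | negUnit (g : G3) : DTy (MonoidAlgebra.single g (-1)) 0
  | sub (g : G3) (h : g.y ≠ 0) : DTy (MonoidAlgebra.single g 1 - 1) 0
  | A : DTy AZ 1
  | adj {x : MonoidAlgebra ℤ G3} {n : ℕ} (h : DTy x n) : DTy (MonoidAlgebra.mapDomain (fun g => g⁻¹) x) n
  | mul {x y : MonoidAlgebra ℤ G3} {n m : ℕ} (h : DTy x n) (h' : DTy y m) : DTy (x * y) (n + m)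

namespace Good

variable {Γ : Type} [Group Γ] (g : Good Γ)

/-- the induced map on group rings -/
noncomputable def ρ : MonoidAlgebra ℤ G3 →+* MonoidAlgebra ℂ Γ :=
  toC.comp (MonoidAlgebra.mapDomainRingHom ℤ g.π)

lemma ρ_single (x : G3) (c : ℤ) : g.ρ (MonoidAlgebra.single x c) = MonoidAlgebra.single (g.π x) (c : ℂ) := by
  change toC (MonoidAlgebra.mapDomainRingHom ℤ g.π (MonoidAlgebra.single x c)) = _
  rw [MonoidAlgebra.mapDomainRingHom_apply, MonoidAlgebra.mapDomain_single, toC_single]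

lemma ρ_inv (x : MonoidAlgebra ℤ G3) : g.ρ (MonoidAlgebra.mapDomain (fun g => g⁻¹) x) = gst (g.ρ x) := by
  induction x using MonoidAlgebra.induction_linear with
  | zero => simp [gst_zero]
  | add x y hx hy => rw [MonoidAlgebra.mapDomain_add, map_add, hx, hy, map_add, gst_add]
  | single x c =>
    rw [MonoidAlgebra.mapDomain_single, ρ_single, ρ_single, gst_single, map_inv]
    simp

/-- the log-determinant of `A` -/
noncomputable def dA : ℝ := g.b.dt (sc (Ael (g.π HG.ea) (g.π HG.et)))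

lemma ρ_A : g.ρ AZ = Ael (g.π HG.ea) (g.π HG.et) := by
  unfold AZ Ael
  rw [map_add, map_add, ρ_single, ρ_single, ρ_single]
  have h1 : (⟨0, 0, 0⟩ : G3) = 1 := rfl
  have h2 : (⟨1, 0, 0⟩ : G3) = HG.ea := rfl
  have h3 : (⟨0, 0, 1⟩ : G3) = HG.et := rfl
  rw [h1, h2, h3, map_one, mul_sub, mul_one]
  unfold u
  have e1 : (2 : MonoidAlgebra ℂ Γ) = MonoidAlgebra.single 1 ((2 : ℤ) : ℂ) := by
    rw [GApprox.two_eq, MonoidAlgebra.one_def, MonoidAlgebra.smul_single]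
    simp
  rw [← e1]
  have e2 : (2 : MonoidAlgebra ℂ Γ) * MonoidAlgebra.single (g.π HG.ea) 1
      = - MonoidAlgebra.single (g.π HG.ea) (((-2 : ℤ)) : ℂ) := by
    rw [e1, MonoidAlgebra.single_mul_single, one_mul, ← MonoidAlgebra.single_neg]
    simp
  rw [e2]
  simp only [Int.cast_one]
  abel

theorem dty {x : MonoidAlgebra ℤ G3} {n : ℕ} (h : DTy x n) :
    g.b.F (sc (g.ρ x)) ∧ g.b.dt (sc (g.ρ x)) = n * g.dA := by
  induction h with
  | unit x =>
    rw [ρ_single, Int.cast_one]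
    have := g.b.F_u (g.π x)
    exact ⟨this.1, by rw [Nat.cast_zero, zero_mul]; exact this.2⟩
  | negUnit x =>
    rw [ρ_single]
    have h1 : g.b.F (sc (MonoidAlgebra.single (g.π x) (((-1 : ℤ)) : ℂ))) ∧
        g.b.dt (sc (MonoidAlgebra.single (g.π x) (((-1 : ℤ)) : ℂ))) = 0 := by
      apply g.b.F_unitary
      rw [GApprox.mst_sc, GApprox.sc_mul, gst_single, MonoidAlgebra.single_mul_single, mul_inv_cancel]
      simp only [Int.cast_neg, Int.cast_one, map_neg, map_one, mul_neg, mul_one, neg_neg]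
      exact GApprox.sc_one
    exact ⟨h1.1, by rw [Nat.cast_zero, zero_mul]; exact h1.2⟩
  | sub x hx =>
    rw [map_sub, map_one, ρ_single, Int.cast_one]
    have h0 : g.φ (g.π x) ≠ 1 := by
      rw [g.hφ]
      intro h
      exact hx (by simpa using congrArg Multiplicative.toAdd h)
    have := g.b.F_u_sub_one g.φ h0
    exact ⟨this.1, by rw [Nat.cast_zero, zero_mul]; exact this.2⟩
  | A =>
    rw [ρ_A]
    refine ⟨(g.b.A_fin g.φ (g.hφ _) (g.hφ _)).1, ?_⟩
    rw [Nat.cast_one, one_mul]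
    rfl
  | adj h ih =>
    rw [ρ_inv, ← GApprox.mst_sc]
    have := g.b.F_mst ih.1
    exact ⟨this.1, by rw [this.2, ih.2]⟩
  | mul h h' ih ih' =>
    rw [map_mul, ← GApprox.sc_mul]
    have := g.b.F_mul ih.1 ih'.1
    exact ⟨this.1, by rw [this.2, ih.2, ih'.2]; push_cast; ring⟩

/-- Log-determinants from a factorisation over the integral group ring. -/
theorem lu {n : ℕ} (B : Matrix (Fin n) (Fin n) (MonoidAlgebra ℤ G3)) (σ τ : Fin n ≃ Fin n)
    (L U : Matrix (Fin n) (Fin n) (MonoidAlgebra ℤ G3)) (hB : B.submatrix σ τ = L * U)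
    (hL : ∀ i j, i < j → L i j = 0) (hU : ∀ i j, j < i → U i j = 0) (dL dU : Fin n → ℕ)
    (hdL : ∀ i, DTy (L i i) (dL i)) (hdU : ∀ i, DTy (U i i) (dU i)) :
    g.b.F (B.map g.ρ) ∧ g.b.dt (B.map g.ρ) = ((∑ i, dL i + ∑ i, dU i : ℕ) : ℝ) * g.dA := by
  have h1 : (B.map g.ρ).submatrix σ τ = L.map g.ρ * U.map g.ρ := by
    rw [← Matrix.map_mul, ← hB]
    rfl
  have h2 := g.b.F_LU (B.map g.ρ) (L.map g.ρ) (U.map g.ρ) σ τ h1
    (fun i j hij => by rw [Matrix.map_apply, hL i j hij, map_zero])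
    (fun i => (g.dty (hdL i)).1)
    (fun i j hij => by rw [Matrix.map_apply, hU i j hij, map_zero])
    (fun i => (g.dty (hdU i)).1)
  refine ⟨h2.1, ?_⟩
  rw [h2.2]
  simp only [Matrix.map_apply]
  rw [Finset.sum_congr rfl fun i _ => (g.dty (hdL i)).2, Finset.sum_congr rfl fun i _ => (g.dty (hdU i)).2,
    ← Finset.sum_mul, ← Finset.sum_mul]
  push_cast
  ring

end Good

namespace Delta

variable (K : Delta) [∀ p, Fintype (K.X p)] [∀ p, DecidableEq (K.X p)]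

lemma bd_map {G Γ : Type} [Group G] [Group Γ] (γ : K.X 1 → G) (π : G →* Γ) (p : ℕ) :
    K.bd (π ∘ γ) p = (K.bd γ p).map (MonoidAlgebra.mapDomainRingHom ℤ π) := by
  apply Matrix.ext
  intro s t
  unfold bd
  rw [Matrix.map_apply, map_sum]
  apply Finset.sum_congr rfl
  intro i _
  split
  · rw [MonoidAlgebra.mapDomainRingHom_apply, MonoidAlgebra.mapDomain_single]
    congr 1
    split
    · rfl
    · rw [map_one]
  · rw [map_zero]

/-- Torsion of the covering induced by a good homomorphism. -/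
theorem torsion_good {Γ : Type} [Group Γ] (g : Good Γ) (γ : K.X 1 → G3)
    (hdim : ∀ p, 4 ≤ p → IsEmpty (K.X p))
    {e1 : Type} [Fintype e1] [DecidableEq e1] (x1 : K.X 0 ⊕ e1 ≃ K.X 1) (x2 : e1 ⊕ K.X 3 ≃ K.X 2)
    (h21 : K.bd γ 1 * K.bd γ 0 = 0) (h32 : K.bd γ 2 * K.bd γ 1 = 0) (n1 n2 n3 : ℕ)
    (h1 : g.b.F (((K.bd γ 0).submatrix (x1 ∘ Sum.inl) id).map g.ρ) ∧
      g.b.dt (((K.bd γ 0).submatrix (x1 ∘ Sum.inl) id).map g.ρ) = n1 * g.dA)
    (h2 : g.b.F (((K.bd γ 1).submatrix (x2 ∘ Sum.inl) (x1 ∘ Sum.inr)).map g.ρ) ∧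
      g.b.dt (((K.bd γ 1).submatrix (x2 ∘ Sum.inl) (x1 ∘ Sum.inr)).map g.ρ) = n2 * g.dA)
    (h3 : g.b.F (((K.bd γ 2).submatrix id (x2 ∘ Sum.inr)).map g.ρ) ∧
      g.b.dt (((K.bd γ 2).submatrix id (x2 ∘ Sum.inr)).map g.ρ) = n3 * g.dA) :
    K.Acyclic (g.π ∘ γ) ∧ K.DetClass (g.π ∘ γ) ∧ K.torsion (g.π ∘ γ) = (n1 + n3 - n2 : ℝ) * g.dA := by
  have hm : ∀ {m n m' n' : Type} (A : Matrix m n (MonoidAlgebra ℤ G3)) (e : m' → m) (f : n' → n),
      mC ((A.map (MonoidAlgebra.mapDomainRingHom ℤ g.π)).submatrix e f) = (A.submatrix e f).map g.ρ :=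
    fun A e f => rfl
  obtain ⟨a1, a2, a3⟩ := K.torsion_eq g.b (g.π ∘ γ) hdim x1 x2
    (by rw [bd_map, bd_map, ← Matrix.map_mul, h21]; exact Matrix.map_zero _ (map_zero _))
    (by rw [bd_map, bd_map, ← Matrix.map_mul, h32]; exact Matrix.map_zero _ (map_zero _))
    (by rw [bd_map, hm]; exact h1.1)
    (by rw [bd_map, hm]; exact h2.1)
    (by rw [bd_map, hm]; exact h3.1)
  refine ⟨a1, a2, ?_⟩
  rw [a3, bd_map, bd_map, bd_map, hm, hm, hm, h1.2, h2.2, h3.2]
  ring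

end Delta

end Pool.Agent.MPfa412c
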