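import Pool.Agent.MPfa412c.Link

/-!
# The normal chain in the integral Heisenberg group
-/

set_option linter.unusedSectionVars false

open Matrix MeasureTheory Filter Topology MonoidAlgebra
open scoped ComplexOrder ComplexConjugate

namespace Pool.Agent.MPfa412c

/-- The normal chain: `NN k` consists of all `(x, z, 0)` with `x, z` divisible by `3 ^ k`
(for `k ≥ 1`). -/
def NN (k : ℕ) : Subgroup G3 := if k = 0 then ⊤ else (red (3 ^ k)).ker

instance NN_normal (k : ℕ) : (NN k).Normal := by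
  unfold NN
  split
  · infer_instance
  · infer_instance

lemma NN_zero : NN 0 = ⊤ := if_pos rfl

lemma NN_pos {k : ℕ} (hk : k ≠ 0) : NN k = (red (3 ^ k)).ker := if_neg hk

lemma mem_NN {k : ℕ} (hk : k ≠ 0) (g : G3) :
    g ∈ NN k ↔ ((3 ^ k : ℕ) : ℤ) ∣ g.x ∧ ((3 ^ k : ℕ) : ℤ) ∣ g.z ∧ g.y = 0 := by
  rw [NN_pos hk, MonoidHom.mem_ker, HG.ext_iff]
  change ((g.x : ZMod (3 ^ k)) = 0 ∧ (g.z : ZMod (3 ^ k)) = 0 ∧ g.y = 0) ↔ _
  rw [ZMod.intCast_zmod_eq_zero_iff_dvd, ZMod.intCast_zmod_eq_zero_iff_dvd]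

lemma NN_antitone : Antitone NN := by
  apply antitone_nat_of_succ_le
  intro k g hg
  by_cases hk : k = 0
  · subst hk; rw [NN_zero]; trivial
  · rw [mem_NN (Nat.succ_ne_zero k)] at hg
    rw [mem_NN hk]
    have h : ((3 ^ k : ℕ) : ℤ) ∣ ((3 ^ (k + 1) : ℕ) : ℤ) := by
      exact_mod_cast pow_dvd_pow 3 (Nat.le_succ k)
    exact ⟨h.trans hg.1, h.trans hg.2.1, hg.2.2⟩

lemma dvd_all_pow {m : ℤ} (h : ∀ k : ℕ, k ≠ 0 → ((3 ^ k : ℕ) : ℤ) ∣ m) : m = 0 := by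
  by_contra hm
  have h1 := h (m.natAbs + 1) (Nat.succ_ne_zero _)
  have h2 := Int.le_of_dvd (by positivity) ((Int.dvd_natAbs.2 h1))
  have h3 : (3 : ℕ) ^ (m.natAbs + 1) ≤ m.natAbs := by exact_mod_cast h2
  have h4 : m.natAbs + 1 < 3 ^ (m.natAbs + 1) := Nat.lt_pow_self (by norm_num)
  omega

lemma NN_inf : ⨅ k, NN k = ⊥ := by
  rw [eq_bot_iff]
  intro g hg
  rw [Subgroup.mem_iInf] at hg
  have h : ∀ k : ℕ, k ≠ 0 → _ := fun k hk => (mem_NN hk g).1 (hg k)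
  rw [Subgroup.mem_bot]
  exact HG.ext (dvd_all_pow fun k hk => (h k hk).1) (dvd_all_pow fun k hk => (h k hk).2.1)
    (h 1 one_ne_zero).2.2

/-- the quotient embeds in `H3 (3 ^ k)` -/
def emb {k : ℕ} (hk : k ≠ 0) : G3 ⧸ NN k →* H3 (3 ^ k) :=
  QuotientGroup.lift (NN k) (red (3 ^ k)) (fun x hx => by rw [NN_pos hk] at hx; exact hx)

lemma emb_mk {k : ℕ} (hk : k ≠ 0) (g : G3) : emb hk (QuotientGroup.mk' (NN k) g) = red (3 ^ k) g := rfl

lemma emb_injective {k : ℕ} (hk : k ≠ 0) : Function.Injective (emb hk) := by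
  rw [injective_iff_map_eq_one]
  intro q hq
  obtain ⟨g, rfl⟩ := QuotientGroup.mk'_surjective (NN k) q
  rw [emb_mk] at hq
  rw [QuotientGroup.mk'_apply, QuotientGroup.eq_one_iff, NN_pos hk]
  exact hq

/-- approximation of the quotients -/
noncomputable def approxQ {k : ℕ} (hk : k ≠ 0) : GApprox (G3 ⧸ NN k) :=
  (approxH k).comap (emb hk) (emb_injective hk)

/-- the homomorphism to `ℤ` on the quotients -/
def φQ {k : ℕ} (hk : k ≠ 0) : (G3 ⧸ NN k) →* Multiplicative ℤ := (HG.hy _).comp (emb hk)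

lemma pow_ne_zero_zmod {k : ℕ} : ((3 ^ k : ℕ) : ZMod (3 ^ (k + 1))) ≠ 0 := by
  rw [Ne, ZMod.natCast_eq_zero_iff]
  intro h
  have := Nat.le_of_dvd (by positivity) h
  have h2 : 3 ^ k < 3 ^ (k + 1) := Nat.pow_lt_pow_right (by norm_num) (Nat.lt_succ_self k)
  omega

lemma one_ne_zero_zmod {k : ℕ} : (1 : ZMod (3 ^ (k + 1))) ≠ 0 := by
  have h1 : 1 < 3 ^ (k + 1) := Nat.one_lt_pow (Nat.succ_ne_zero k) (by norm_num)
  have : Fact (1 < 3 ^ (k + 1)) := ⟨h1⟩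
  exact one_ne_zero

/-- The lower bound over the group itself. -/
theorem G_lower : approxG.F (sc (Ael (HG.ea : G3) HG.et)) ∧
    Real.log 2 ≤ approxG.dt (sc (Ael (HG.ea : G3) HG.et)) :=
  approxG.A_lower (HG.hx _) (HG.hy _) rfl rfl rfl rfl

/-- The upper bound over the quotients. -/
theorem Q_upper {k : ℕ} (hk : k ≠ 0) :
    (approxQ hk).F (sc (Ael (QuotientGroup.mk' (NN k) HG.ea) (QuotientGroup.mk' (NN k) HG.et))) ∧
    (approxQ hk).dt (sc (Ael (QuotientGroup.mk' (NN k) HG.ea) (QuotientGroup.mk' (NN k) HG.et)))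
      ≤ 1 / 2 * Real.log (11 / 3) := by
  have hta : φQ hk (QuotientGroup.mk' (NN k) HG.ea) = 1 := rfl
  have htt : φQ hk (QuotientGroup.mk' (NN k) HG.et) = Multiplicative.ofAdd 1 := rfl
  refine ⟨((approxQ hk).A_fin (φQ hk) hta htt).1, ?_⟩
  obtain ⟨j, rfl⟩ := Nat.exists_eq_succ_of_ne_zero hk
  have hinj := emb_injective hk
  have hcpow : red (3 ^ (j + 1)) HG.ec ^ (3 ^ j) = (⟨0, ((3 ^ j : ℕ) : ZMod (3 ^ (j + 1))), 0⟩ : H3 (3 ^ (j + 1))) := by
    have : red (3 ^ (j + 1)) HG.ec = HG.ec := by ext <;> simp [red, HG.map, HG.ec]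
    rw [this, HG.ec_pow]
  have hea : red (3 ^ (j + 1)) HG.ea = HG.ea := by ext <;> simp [red, HG.map, HG.ea]
  have hz1 : (QuotientGroup.mk' (NN (j + 1)) HG.ec) ^ (3 ^ j) ≠ 1 := by
    intro h
    have h1 := congrArg (emb hk) h
    rw [map_pow, map_one, emb_mk] at h1
    change red (3 ^ (j + 1)) HG.ec ^ (3 ^ j) = 1 at h1
    rw [hcpow] at h1
    exact pow_ne_zero_zmod (congrArg HG.z h1)
  have key : ∀ i : ℕ, QuotientGroup.mk' (NN (j + 1)) HG.ea * ((QuotientGroup.mk' (NN (j + 1)) HG.ec) ^ (3 ^ j)) ^ i ≠ 1 := by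
    intro i h
    have h1 := congrArg (emb hk) h
    rw [map_mul, map_pow, map_pow, map_one, emb_mk, emb_mk] at h1
    change red (3 ^ (j + 1)) HG.ea * (red (3 ^ (j + 1)) HG.ec ^ (3 ^ j)) ^ i = 1 at h1
    rw [← pow_mul, hea] at h1
    have h2 : red (3 ^ (j + 1)) HG.ec = HG.ec := by ext <;> simp [red, HG.map, HG.ec]
    rw [h2, HG.ec_pow] at h1
    have h3 := congrArg HG.x h1
    simp [HG.ea] at h3
    exact one_ne_zero_zmod h3
  refine (approxQ hk).A_upper (φQ hk) j (c := QuotientGroup.mk' (NN (j + 1)) HG.ec) ?_ ?_ ?_ ?_ hz1 ?_ ?_ ?_ hta htt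
  · intro g
    obtain ⟨g, rfl⟩ := QuotientGroup.mk'_surjective _ g
    rw [← map_mul, HG.c_central, map_mul]
  · rw [← map_mul, HG.ta, map_mul, map_mul]
  · apply hinj
    rw [map_pow, map_one, emb_mk]
    change red (3 ^ (j + 1)) HG.ea ^ 3 ^ (j + 1) = 1
    rw [hea, HG.ea_pow]
    ext
    · simp only [HG.one_x]
      rw [ZMod.natCast_self]
    · rfl
    · rfl
  · apply hinj
    rw [map_pow, map_pow, map_one, emb_mk]
    change (red (3 ^ (j + 1)) HG.ec ^ 3 ^ j) ^ 3 = 1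
    have h2 : red (3 ^ (j + 1)) HG.ec = HG.ec := by ext <;> simp [red, HG.map, HG.ec]
    rw [← pow_mul, ← pow_succ, h2, HG.ec_pow]
    ext
    · rfl
    · simp only [HG.one_z]
      rw [ZMod.natCast_self]
    · rfl
  · have := key 0
    rwa [pow_zero, mul_one] at this
  · have := key 1
    rwa [pow_one] at this
  · exact key 2

end Pool.Agent.MPfa412c
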