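import Pool.Agent.MPfa412c.Sparse

/-!
# Explicit data: a one-vertex triangulation with 30 tetrahedra
-/

namespace Pool.Agent.MPfa412c.Data

/-- faces of the triangles -/
def t2 : List (ℕ × ℕ × ℕ) :=
  [(4, 1, 26), (2, 12, 24), (3, 7, 8), (5, 17, 4), (6, 5, 22), (13, 6, 15), (7, 14, 22), (8, 18, 29), (9, 19, 18), (0, 23, 10), (17, 11, 10), (12, 11, 23), (13, 26, 25), (30, 14, 27), (0, 15, 26), (26, 16, 30), (23, 12, 26), (8, 20, 22), (28, 19, 28), (30, 19, 20), (25, 21, 30), (15, 29, 22), (28, 10, 27), (15, 25, 24), (27, 19, 21), (17, 21, 28), (24, 27, 13), (24, 20, 23), (7, 16, 29), (9, 30, 29), (3, 16, 18), (3, 14, 20), (13, 5, 29), (13, 16, 21), (12, 17, 0), (2, 11, 20), (29, 18, 20), (26, 7, 9),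 (27, 28, 17), (24, 19, 16), (6, 26, 24), (24, 9, 3), (21, 11, 27), (23, 2, 6), (25, 11, 14), (10, 19, 17), (25, 2, 3), (15, 2, 9), (0, 2, 7), (10, 7, 6), (10, 14, 5), (14, 19, 4), (27, 20, 4), (13, 23, 4), (13, 12, 1), (1, 18, 22), (5, 12, 8), (8, 1, 15), (8, 4, 0), (29, 1, 8)]

/-- faces of the tetrahedra -/
def t3 : List (ℕ × ℕ × ℕ × ℕ) :=
  [(2, 30, 28, 7), (2, 31, 6, 17), (5, 32, 4, 21), (12, 33, 15, 20), (34, 11, 10, 9), (1, 35, 11, 27), (29, 8, 19, 36), (37, 15, 28, 29), (38, 24, 18, 25), (26, 39, 24, 33), (5, 12, 40, 23), (41, 39, 8, 30), (25, 10, 42, 22), (43, 16, 1, 40), (20, 44, 42, 13), (22, 18, 45, 38), (46, 44, 35, 31), (23, 47, 46, 41), (14, 48, 47, 37), (9, 48, 43, 49), (49, 50, 6, 4),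 (50, 45, 51, 3), (13, 19, 51, 52), (26, 27, 52, 53), (53, 54, 16, 0), (59, 36, 55, 17), (32, 54, 56, 59), (58, 57, 0, 14), (57, 7, 55, 21), (56, 3, 34, 58)]

/-- the cocycle: triples `(x, z, y)` -/
def tg : List (ℤ × ℤ × ℤ) :=
  [(1, 0, -1), (0, 0, -1), (1, 0, 0), (1, 0, 1), (0, 0, -1), (1, 1, 0), (1, 0, 0), (0, -1, 1), (-1, -1, 0), (0, -1, 1), (-1, -1, 1), (0, 0, 0), (0, 0, 0), (0, 0, 1), (0, 0, 1), (1, 0, -1), (1, 0, 0), (1, 0, -1), (0, 1, -1), (0, 0, 0), (-1, 0, 0), (1, 0, -1), (0, 1, 0), (0, 0, 0), (-1, 0, 0), (0, 0, -1), (0, 0, 0), (-1, -1, 1), (0, 0, 0), (1, 1, -1), (1, 0, 0)]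

/-- lower factor -/
def L2 : List (List Mono) :=
  [[⟨0, 0, 0, 0, 1⟩],
   [⟨1, 0, 0, 0, 1⟩],
   [⟨2, 0, 0, 0, 1⟩],
   [⟨3, 0, 0, 0, 1⟩],
   [⟨4, 0, 0, 0, 1⟩],
   [⟨5, 0, 0, 0, 1⟩],
   [⟨6, 0, 0, 0, 1⟩],
   [⟨7, 0, 0, 0, 1⟩],
   [⟨8, 0, 0, 0, 1⟩],
   [⟨9, 0, 0, 0, 1⟩],
   [⟨9, 0, 0, 0, 1⟩, ⟨10, 0, 0, 0, 1⟩],
   [⟨10, 0, 0, 0, 1⟩, ⟨11, 0, 0, 0, 1⟩],
   [⟨12, 0, 0, 0, 1⟩],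
   [⟨13, 0, 0, 0, 1⟩],
   [⟨14, 0, 0, 0, 1⟩],
   [⟨15, 0, 0, 0, 1⟩],
   [⟨11, 0, 0, 0, -1⟩, ⟨16, 0, 0, 0, 1⟩],
   [⟨7, 1, -1, -1, 1⟩, ⟨17, 0, 0, 0, 1⟩],
   [⟨18, 0, 0, 0, 1⟩],
   [⟨18, 0, 0, 0, 1⟩, ⟨19, 0, 0, 0, 1⟩],
   [⟨20, 0, 0, 0, 1⟩],
   [⟨14, 0, 0, 1, -1⟩, ⟨21, 0, 0, 0, 1⟩],
   [⟨9, 0, 0, 0, -1⟩, ⟨22, 0, 0, 0, 1⟩],
   [⟨14, 0, -1, 0, -1⟩, ⟨23, 0, 0, 0, 1⟩],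
   [⟨18, 0, 0, 0, 1⟩, ⟨20, 0, 0, 0, -1⟩, ⟨24, 0, 0, 0, 1⟩],
   [⟨16, -1, 1, 0, -1⟩, ⟨20, 0, 0, 0, 1⟩, ⟨22, -1, 1, 0, -1⟩, ⟨24, 0, 0, 0, -1⟩, ⟨25, 0, 0, 0, 1⟩],
   [⟨12, 1, 0, 0, 1⟩, ⟨23, 1, 0, 0, 1⟩, ⟨25, 2, -2, -3, -1⟩, ⟨25, 2, -1, -2, 1⟩, ⟨26, 0, 0, 0, -1⟩, ⟨26, 1, -1, -1, 2⟩, ⟨26, 1, 0, 0, -2⟩],
   [⟨19, 0, 0, 0, -1⟩, ⟨22, 0, 0, 0, -1⟩, ⟨23, 0, 0, 0, 1⟩, ⟨24, 0, -1, 0, 1⟩, ⟨25, 1, -2, -1, -1⟩, ⟨26, -1, 0, 0, -1⟩, ⟨26, 0, -1, 0, 2⟩, ⟨26, 0, 0, 0, 1⟩, ⟨27, 0, -1, 0, 2⟩, ⟨27, 0, 0, 0, -2⟩, ⟨27, 1, -1, -1, 1⟩],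
   [⟨6, -1, 1, 0, 1⟩, ⟨13, -1, 1, 0, -1⟩, ⟨15, 0, 0, 0, 1⟩, ⟨21, -1, 1, 0, -1⟩, ⟨25, 0, 0, 1, 1⟩, ⟨25, 1, 0, -1, -1⟩, ⟨26, -1, 1, 0, 1⟩, ⟨26, -1, 1, 1, -2⟩, ⟨26, 0, 1, 0, 2⟩, ⟨28, -1, 1, 0, -1⟩, ⟨28, 0, 0, 0, 1⟩],
   [⟨8, 0, 1, 0, 1⟩, ⟨17, -1, 2, 0, -1⟩, ⟨18, 0, 1, 0, -1⟩, ⟨19, -1, 2, 0, -1⟩, ⟨21, -1, 2, 0, 1⟩, ⟨25, 0, 1, 1, -1⟩, ⟨26, -1, 2, 1, 2⟩, ⟨27, -1, 2, 0, -2⟩, ⟨27, 0, 1, 0, 2⟩, ⟨28, -1, 2, 0, 1⟩, ⟨28, 0, 0, 0, 1⟩, ⟨28, 0, 1, 0, -1⟩, ⟨29, -1, 1, 1, 1⟩, ⟨29, 0, 0, 0, -1⟩]]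

/-- upper factor -/
def U2 : List (List Mono) :=
  [[⟨0, 0, 0, 0, -1⟩, ⟨3, 0, 0, 0, 1⟩, ⟨25, 0, 0, 0, 1⟩],
   [⟨1, 0, -1, 0, 1⟩, ⟨11, 0, 0, 0, -1⟩, ⟨23, 0, 0, 0, 1⟩],
   [⟨2, 0, -1, -1, 1⟩, ⟨6, 0, 0, 0, -1⟩, ⟨7, 0, 0, 0, 1⟩],
   [⟨3, 0, 0, 0, 1⟩, ⟨4, -1, 0, 0, 1⟩, ⟨16, 0, 0, 0, -1⟩],
   [⟨4, 0, 0, 0, -1⟩, ⟨5, 0, 0, 1, 1⟩, ⟨21, 0, 0, 0, 1⟩],
   [⟨5, 0, 0, 0, -1⟩, ⟨12, -1, 1, 0, 1⟩, ⟨14, 0, 0, 0, 1⟩],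
   [⟨6, 0, 0, 1, 1⟩, ⟨13, 0, 0, 0, -1⟩, ⟨21, 0, 0, 0, 1⟩],
   [⟨7, -1, 1, 1, 1⟩, ⟨17, 0, 0, 0, -1⟩, ⟨28, 0, 0, 0, 1⟩],
   [⟨8, -1, 0, 1, 1⟩, ⟨17, 0, 0, 0, 1⟩, ⟨18, 0, 0, 0, -1⟩],
   [⟨9, 0, 0, 0, 1⟩, ⟨22, 0, 0, 0, -1⟩],
   [⟨10, 0, 0, 0, -1⟩, ⟨16, 1, -1, -1, 1⟩, ⟨22, 0, 0, 0, 1⟩],
   [⟨11, 0, 0, 0, 1⟩, ⟨16, 1, -1, -1, -1⟩],
   [⟨12, -1, 0, 0, 1⟩, ⟨24, 0, 0, 0, 1⟩, ⟨25, 0, 0, 0, -1⟩],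
   [⟨13, 0, 0, 0, -1⟩, ⟨26, 0, 0, 0, 1⟩, ⟨29, 1, -1, -1, 1⟩],
   [⟨14, 0, 0, 0, -1⟩, ⟨25, 0, 0, 0, 1⟩],
   [⟨15, 0, 0, 0, -1⟩, ⟨25, 0, 1, 0, 1⟩, ⟨29, 0, 0, 0, 1⟩],
   [⟨16, 1, -1, -1, -1⟩, ⟨22, 0, 0, 0, 1⟩, ⟨25, 0, 0, 0, 1⟩],
   [⟨17, 1, -1, -1, 1⟩, ⟨19, 0, 0, 0, -1⟩, ⟨21, 0, 0, 0, 1⟩, ⟨28, 1, -1, -1, -1⟩],
   [⟨18, 0, 0, 0, -1⟩, ⟨27, 0, 0, 0, 2⟩],
   [⟨19, 0, 0, 0, 1⟩, ⟨27, 0, 0, 0, -2⟩, ⟨29, 0, -1, 0, 1⟩],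
   [⟨20, 0, 0, 0, -1⟩, ⟨24, 0, 1, 0, 1⟩, ⟨29, 0, 0, 0, 1⟩],
   [⟨21, 0, 0, 0, 1⟩, ⟨25, 0, 0, 1, 1⟩, ⟨28, 0, 0, 0, -1⟩],
   [⟨22, 0, 0, 0, -1⟩, ⟨26, 0, 0, 0, 1⟩, ⟨27, 1, -1, -1, 1⟩],
   [⟨23, 0, 0, 0, 1⟩, ⟨24, 0, 0, 0, -1⟩, ⟨25, 0, -1, 0, 1⟩],
   [⟨24, 0, 1, 0, 1⟩, ⟨26, -1, 1, 0, 1⟩, ⟨27, 0, 0, 0, -2⟩, ⟨29, 0, 0, 0, 1⟩],
   [⟨25, -1, 1, 0, 1⟩, ⟨26, -1, 1, 0, 2⟩],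
   [⟨26, 0, 0, 0, 1⟩],
   [⟨27, 0, 0, 0, 1⟩],
   [⟨28, 0, 0, 0, 1⟩],
   [⟨29, 0, 0, 0, 1⟩]]

/-- lower factor -/
def L3 : List (List Mono) :=
  [[⟨0, 0, 0, 0, 1⟩],
   [⟨1, 0, 0, 0, 1⟩],
   [⟨2, 0, 0, 0, 1⟩],
   [⟨3, 0, 0, 0, 1⟩],
   [⟨4, 0, 0, 0, 1⟩],
   [⟨5, 0, 0, 0, 1⟩],
   [⟨6, 0, 0, 0, 1⟩],
   [⟨7, 0, 0, 0, 1⟩],
   [⟨8, 0, 0, 0, 1⟩],
   [⟨3, 0, 0, 0, 1⟩, ⟨9, 0, 0, 0, 1⟩],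
   [⟨10, 0, 0, 0, 1⟩],
   [⟨0, 0, 0, 0, 1⟩, ⟨9, 0, 0, 0, 1⟩, ⟨11, 0, 0, 0, 1⟩],
   [⟨12, 0, 0, 0, 1⟩],
   [⟨10, 0, 0, 0, -1⟩, ⟨13, 0, 0, 0, 1⟩],
   [⟨12, 0, 0, 0, 1⟩, ⟨14, 0, 0, 0, 1⟩],
   [⟨8, 0, 0, 0, -1⟩, ⟨15, 0, 0, 0, 1⟩],
   [⟨1, 0, 0, 0, 1⟩, ⟨5, 0, 0, 0, -1⟩, ⟨14, 0, 0, 0, 1⟩, ⟨16, 0, 0, 0, 1⟩],
   [⟨11, 1, 0, -1, -1⟩, ⟨16, 0, 1, 0, 1⟩, ⟨17, 0, 0, 0, 1⟩],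
   [⟨7, 1, -1, -2, -1⟩, ⟨17, 0, 0, 0, -1⟩, ⟨18, 0, 0, 0, 1⟩],
   [⟨13, 0, 1, 0, 1⟩, ⟨18, 0, 0, 0, 1⟩, ⟨19, 0, 0, 0, 1⟩],
   [⟨19, 0, 0, 1, -1⟩, ⟨20, 0, 0, 0, 1⟩],
   [⟨15, 0, 0, 0, -1⟩, ⟨20, -1, 0, 0, -1⟩, ⟨21, 0, 0, 0, 1⟩],
   [⟨21, 0, 0, 0, 1⟩, ⟨22, 0, 0, 0, 1⟩],
   [⟨22, 0, 0, 0, -1⟩, ⟨23, 0, 0, 0, 1⟩],
   [⟨23, 0, 0, 0, -1⟩, ⟨24, 0, 0, 0, 1⟩],
   [⟨6, 0, 0, 0, 1⟩, ⟨25, 0, 0, 0, 1⟩],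
   [⟨2, 0, -1, -1, -1⟩, ⟨24, 0, 0, 0, 1⟩, ⟨26, 0, 0, 0, 1⟩],
   [⟨27, 0, 0, 0, 1⟩],
   [⟨25, 0, 0, 0, 1⟩, ⟨27, 0, 0, 1, -1⟩, ⟨28, 0, 0, 0, 1⟩],
   [⟨4, -1, 1, 0, 1⟩, ⟨26, -1, 1, 0, 1⟩, ⟨28, 0, 0, -1, -1⟩, ⟨29, -1, 1, 0, 1⟩, ⟨29, 0, 0, 0, -1⟩]]

/-- upper factor -/
def U3 : List (List Mono) :=
  [[⟨0, 0, 0, 0, -1⟩],
   [⟨1, 0, 0, 0, -1⟩],
   [⟨2, 0, 0, 0, -1⟩],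
   [⟨3, 0, 0, 0, -1⟩],
   [⟨4, 1, -1, -1, 1⟩],
   [⟨5, 0, 0, 0, -1⟩],
   [⟨6, 0, 0, 0, -1⟩],
   [⟨7, -1, 1, 1, 1⟩],
   [⟨8, 0, 0, 0, 1⟩],
   [⟨9, 0, 0, 0, -1⟩],
   [⟨10, 0, 0, 0, 1⟩],
   [⟨11, -1, 0, 1, 1⟩],
   [⟨12, 0, 0, 0, 1⟩],
   [⟨13, 0, -1, 0, 1⟩],
   [⟨14, 0, 0, 0, -1⟩],
   [⟨15, 0, 0, 0, 1⟩],
   [⟨16, 0, -1, 0, 1⟩],
   [⟨17, 0, 0, 0, -1⟩],
   [⟨18, 0, 0, 0, -1⟩],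
   [⟨19, 0, 0, 0, -1⟩],
   [⟨20, 0, 0, 0, -1⟩],
   [⟨21, 0, 0, 0, 1⟩],
   [⟨22, 0, 0, 0, -1⟩],
   [⟨23, 0, 0, 0, -1⟩],
   [⟨24, 0, 0, 0, -1⟩],
   [⟨25, 0, 0, 0, 1⟩, ⟨29, 0, 0, 1, 1⟩],
   [⟨26, 0, 0, 0, 1⟩, ⟨29, 0, 0, 0, -1⟩],
   [⟨27, 0, 0, 0, -1⟩, ⟨28, 0, 0, 0, 1⟩],
   [⟨28, 0, 0, 1, 1⟩, ⟨29, 0, 0, 1, -1⟩],
   [⟨29, 0, 0, 0, 1⟩]]

/-- ranks and edges for the vertex link; code `((f * 3 + j) * 2 + side) * 100 + rank` -/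
def tabL : List ℕ :=
  [0, 5804, 5, 505, 804, 26304, 18805, 1602, 34801, 30904, 2404, 19703, 24204, 24402, 28905, 29101, 33705, 10605, 28305, 5203, 5503, 5701, 6603, 7104, 604, 32903, 15705, 7602, 18603, 30502, 28404, 8905, 23503, 9502, 20401, 2304, 4903, 4706, 27002, 27502, 31202, 31704, 15003, 15505, 10303, 12905, 9802, 32303, 15803, 23803, 26603, 28005, 22404, 8701, 13304, 23203, 22802, 13602, 4304, 17706, 8004, 11803]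

/-- ranks and edges for the links of link vertices; code `(((t * 4 + j) * 3 + k) * 2 + side) * 100 + rank` -/
def tabLL : List ℕ :=
  [0, 0, 0, 0, 0, 0, 0, 0, 0, 0, 0, 0, 0, 0, 0, 0, 0, 0, 69802, 0, 70802, 0, 0, 0, 0, 48302, 0, 0, 49302, 0, 0, 5801, 0, 0, 6801, 0, 48001, 0, 48601, 3501, 0, 4501, 0, 0, 0, 901, 0, 1501, 26402, 0, 27002, 0, 0, 0, 0, 0, 0, 0, 0, 0, 9601, 0, 10201, 10702, 0, 11702, 9801, 10001, 10801, 13101, 11401, 14101, 0, 24403, 0, 25701, 25803, 26301, 0, 33903, 0, 0, 34903, 0, 64901, 65103, 65501, 44802, 66103, 45402, 7202, 0, 7802, 18503, 0, 19103, 57601, 31601, 58201, 32902, 33001, 33502, 2502, 0, 3102, 3301, 0, 3901, 0, 19703, 0, 20302, 21103, 21302, 14402, 14901, 15002, 54501, 16301,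 55101, 34401, 0, 35001, 8101, 0, 8701, 4901, 67501, 5501, 5701, 68501, 6301, 28902, 29102, 29502, 29702, 30102, 30302, 24102, 24301, 24702, 24901, 25301, 25501, 21602, 22102, 22202, 22703, 23502, 23703, 19301, 29802, 19901, 20103, 30802, 20703, 22403, 56202, 23003, 56802, 57202, 57402, 12102, 12303, 12702, 12901, 13303, 13501, 1, 17301, 601, 1101, 18701, 2101, 16902, 15402, 17502, 16001, 16402, 16601, 201, 402, 1201, 1701, 1802, 2301, 2601, 2801, 3601, 4101, 4201, 4701, 5002, 63402, 6002, 6501, 64402, 7101, 7401, 7601, 8401, 8902, 9001, 9502, 10401, 70101, 11001, 11202, 71501, 11802, 38402, 12402, 39002, 13701, 13802, 14301, 60201, 60402, 61201, 15303, 61802, 15903, 17602, 17802, 18202, 44102, 18802,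 44702, 36102, 36301, 36702, 36903, 37301, 37503, 21802, 26801, 22802, 23303, 28201, 23903, 31301, 31502, 31901, 25102, 32502, 26102, 27202, 27401, 27802, 41703, 28401, 42303, 33601, 29301, 34201, 34701, 30701, 35701, 45602, 32201, 46202, 46701, 33201, 47701, 38602, 34002, 39602, 35302, 35402, 35902, 50601, 50803, 51601, 37103, 52203, 38103, 39202, 39402, 39802, 41902, 40402, 42902, 41002, 41203, 42002, 42502, 42603, 43102, 43403, 46002, 44403, 47301, 47402, 47901, 48801, 49002, 49401, 46501, 50002, 47101, 51201, 48401, 51801, 49702, 49801, 50302, 52803, 53302, 53403, 51502, 54702, 52502, 55202, 53103, 55802, 53701, 54103, 54301, 58401, 55503, 59001, 59203, 56503, 59803, 57801, 58002, 58801, 64102, 59402,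 64702, 67202, 67701, 67802, 68302, 69101, 69302, 62403, 70603, 63003, 71201, 71603, 71801, 68002, 65201, 68602, 68802, 66601, 69402, 69702, 65801, 70302, 66403, 66801, 67003, 60802, 62702, 61402, 63303, 63702, 63903]

/-- roots for the links of link vertices; code `(f * 3 + j) * 2 + k` -/
def tabR : List ℕ :=
  [57, 59, 1, 4, 9, 11, 15, 17, 3, 5, 21, 23, 27, 29, 13, 16, 12, 14, 51, 53, 54, 56, 61, 64, 7, 10, 33, 35, 37, 40, 30, 32, 91, 94, 19, 22, 43, 46, 49, 52, 103, 106, 121, 124, 24, 26, 55, 58, 6, 8, 72, 74, 0, 2, 78, 80, 108, 110, 42, 44, 81, 83]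

end Pool.Agent.MPfa412c.Data
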