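import Pool.Agent.MPfa412c.DefsLem

/-!
# Closed triangulated 3-manifolds, coverings given by cocycles, and their combinatorial `L²`-torsion
-/

open MeasureTheory

namespace Pool.Agent.MPfa412c

namespace Delta

/-- The faces in the link: if the vertex number `k` of `x` is marked, the `i`-th face is the face of
`x` opposite to the `i`-th of the other vertices, with the same marked vertex. -/
def linkD (K : Delta) (v : K.X 0) (p : ℕ) (i : Fin (p + 2)) (s : K.LinkX v (p + 1)) : K.LinkX v p :=
  ⟨(K.d (p + 1) (s.1.2.succAbove i) s.1.1, i.predAbove s.1.2), K.linkD_aux v p i s.1.1 s.1.2 s.2⟩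

lemma linkD_comm (K : Delta) (v : K.X 0) (p : ℕ) (i j : Fin (p + 2)) (hij : i ≤ j)
    (x : K.LinkX v (p + 2)) :
    K.linkD v p i (K.linkD v (p + 1) j.succ x) = K.linkD v p j (K.linkD v (p + 1) i.castSucc x) :=
  Subtype.ext (K.link_comm_aux i j hij x.1.1 x.1.2)

/-- The link of a vertex `v`: its `p`-simplices are the `(p+1)`-simplices with a marked vertex
which is `v`. -/
def link (K : Delta) (v : K.X 0) : Delta := ⟨K.LinkX v, K.linkD v, K.linkD_comm v⟩

/-- The complex is connected: non-empty, and any two vertices are joined by a path of edges. -/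
def Connected (K : Delta) : Prop :=
  Nonempty (K.X 0) ∧ ∀ v w : K.X 0,
    Relation.EqvGen (fun x y => ∃ e : K.X 1, K.d 0 1 e = x ∧ K.d 0 0 e = y) v w

/-- The complex is finite. -/
def IsFinite (K : Delta) : Prop :=
  (∀ p, Finite (K.X p)) ∧ ∃ n, ∀ p, n ≤ p → IsEmpty (K.X p)

/-- A `0`-sphere: two vertices and nothing else. -/
def IsSphere0 (K : Delta) : Prop := Nat.card (K.X 0) = 2 ∧ ∀ p, IsEmpty (K.X (p + 1))

/-- A circle: finite, connected, and all vertex links are `0`-spheres. -/
def IsCircle (K : Delta) : Prop := K.IsFinite ∧ K.Connected ∧ ∀ v, (K.link v).IsSphere0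

/-- A `2`-sphere: finite, connected, all vertex links are circles, and `V - E + F = 2`. -/
def IsSphere2 (K : Delta) : Prop := K.IsFinite ∧ K.Connected ∧ (∀ v, (K.link v).IsCircle) ∧
  (Nat.card (K.X 0) : ℤ) - Nat.card (K.X 1) + Nat.card (K.X 2) = 2

/-- A closed `3`-manifold: finite, connected, and all vertex links are `2`-spheres. -/
def IsClosed3Manifold (K : Delta) : Prop :=
  K.IsFinite ∧ K.Connected ∧ ∀ v, (K.link v).IsSphere2

/-- The edge of a simplex joining its vertices number `0` and `1`. -/
def first (K : Delta) : ∀ p : ℕ, K.X (p + 1) → K.X 1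
  | 0, x => x
  | p + 1, x => K.first p (K.d (p + 1) (Fin.last (p + 2)) x)

/-- `γ` is a `1`-cocycle with values in the group `G`. It describes the covering `G × K` with
faces `d i (g, s) = (g, d i s)` for `i > 0` and `d 0 (g, s) = (g * γ (first s), d 0 s)`, on which `G`
acts freely by left multiplication. -/
def IsCocycle (K : Delta) {G : Type} [Group G] (γ : K.X 1 → G) : Prop :=
  ∀ s : K.X 2, γ (K.d 1 1 s) = γ (K.d 1 2 s) * γ (K.d 1 0 s)

end Delta

/-- The adjoint of a matrix over the integral group ring. -/
noncomputable def adj {G : Type} [Group G] {m n : Type} (A : Matrix m n (MonoidAlgebra ℤ G)) :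
    Matrix n m (MonoidAlgebra ℤ G) :=
  fun i j => MonoidAlgebra.mapDomain (fun g => g⁻¹) (A j i)

namespace Delta

variable (K : Delta) [∀ p, Fintype (K.X p)] [∀ p, DecidableEq (K.X p)] {G : Type} [Group G]

/-- The differential `C (p + 1) → C p` of the cellular chain complex of the covering given by `γ`, as
a matrix over `ℤ[G]` (rows: `(p+1)`-simplices, columns: `p`-simplices). -/
noncomputable def bd (γ : K.X 1 → G) (p : ℕ) : Matrix (K.X (p + 1)) (K.X p) (MonoidAlgebra ℤ G) :=
  fun s t => ∑ i : Fin (p + 2), if K.d p i s = t then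
    MonoidAlgebra.single (if i = 0 then γ (K.first p s) else 1) ((-1) ^ (i : ℕ)) else 0

/-- The combinatorial Laplacian in degree `p` of the covering given by `γ`. -/
noncomputable def lap (γ : K.X 1 → G) : ∀ p : ℕ, Matrix (K.X p) (K.X p) (MonoidAlgebra ℤ G)
  | 0 => adj (K.bd γ 0) * K.bd γ 0
  | p + 1 => K.bd γ p * adj (K.bd γ p) + adj (K.bd γ (p + 1)) * K.bd γ (p + 1)

end Delta

/-- `μ` is the spectral measure, with respect to the von Neumann trace, of the positive operator
on `L²(G)^n` given by the matrix `H` over `ℤ[G]`: a finite measure with compact support in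
`[0, ∞)` whose moments are the von Neumann traces of the powers of `H`. -/
structure IsSpectralMeasure {G : Type} [Group G] {n : Type} [Fintype n] [DecidableEq n]
    (H : Matrix n n (MonoidAlgebra ℤ G)) (μ : Measure ℝ) : Prop where
  finite : IsFiniteMeasure μ
  support : ∃ C : ℝ, μ (Set.Icc 0 C)ᶜ = 0
  moment : ∀ m : ℕ, ∫ x, x ^ m ∂μ = ((∑ i, ((H ^ m) i i).coeff 1 : ℤ) : ℝ)

open scoped Classical in
/-- The spectral measure of a positive matrix over `ℤ[G]` (it is unique, being compactly
supported with given moments; the value is `0` if there is none). -/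
noncomputable def spectralMeasure {G : Type} [Group G] {n : Type} [Fintype n] [DecidableEq n]
    (H : Matrix n n (MonoidAlgebra ℤ G)) : Measure ℝ :=
  if h : ∃ μ, IsSpectralMeasure H μ then h.choose else 0

namespace Delta

variable (K : Delta) [∀ p, Fintype (K.X p)] [∀ p, DecidableEq (K.X p)] {G : Type} [Group G]

/-- The covering given by `γ` has vanishing `L²`-Betti numbers. -/
def Acyclic (γ : K.X 1 → G) : Prop := ∀ p, spectralMeasure (K.lap γ p) {0} = 0

/-- The covering given by `γ` is of determinant class (and its Laplacians do have spectral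
measures). -/
def DetClass (γ : K.X 1 → G) : Prop :=
  ∀ p, IsSpectralMeasure (K.lap γ p) (spectralMeasure (K.lap γ p)) ∧
    IntegrableOn Real.log (Set.Ioi 0) (spectralMeasure (K.lap γ p))

/-- The (combinatorial) `L²`-torsion of the covering given by `γ`:
`-1/2 * ∑ (-1)^p * p * log det (Δ_p)`, for a complex of dimension at most `3`. -/
noncomputable def torsion (γ : K.X 1 → G) : ℝ :=
  -(1 / 2) * ∑ p ∈ Finset.range 4, (-1) ^ p * p *
    ∫ x in Set.Ioi 0, Real.log x ∂(spectralMeasure (K.lap γ p))

end Delta

end Pool.Agent.MPfa412c
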