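import Mathlib

/-!
# Ordered Δ-complexes
-/

namespace Pool.Agent.MPfa412c

/-- An ordered Δ-complex (semi-simplicial set): `X p` is the set of `p`-simplices, `d p i` the
`i`-th face map (it omits the vertex number `i`). -/
structure Delta where
  X : ℕ → Type
  d : ∀ p : ℕ, Fin (p + 2) → X (p + 1) → X p
  comm : ∀ (p : ℕ) (i j : Fin (p + 2)) (_ : i ≤ j) (x : X (p + 2)),
    d p i (d (p + 1) j.succ x) = d p j (d (p + 1) i.castSucc x)

namespace Delta

/-- The vertex number `i` of a `p`-simplex. -/
def vertex (K : Delta) : ∀ p : ℕ, Fin (p + 1) → K.X p → K.X 0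
  | 0, _, x => x
  | p + 1, i, x => Fin.cases (K.vertex p 0 (K.d p (Fin.last (p + 1)) x))
      (fun j => K.vertex p j (K.d p 0 x)) i

/-- The `p`-simplices of the link of a vertex `v`: the `(p+1)`-simplices with a marked vertex which
is `v`. -/
abbrev LinkX (K : Delta) (v : K.X 0) (p : ℕ) : Type :=
  {s : K.X (p + 1) × Fin (p + 2) // K.vertex (p + 1) s.2 s.1 = v}

end Delta

end Pool.Agent.MPfa412c
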