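import Pool.Agent.MPfa412c.DefsA

/-!
# Identities for faces and vertices
-/

namespace Pool.Agent.MPfa412c

namespace Delta

lemma vertex_zero' (K : Delta) (p : ℕ) (x : K.X (p + 1)) :
    K.vertex (p + 1) 0 x = K.vertex p 0 (K.d p (Fin.last (p + 1)) x) := rfl

lemma vertex_succ (K : Delta) (p : ℕ) (j : Fin (p + 1)) (x : K.X (p + 1)) :
    K.vertex (p + 1) j.succ x = K.vertex p j (K.d p 0 x) := rfl

lemma vertex_d (K : Delta) : ∀ (p : ℕ) (i : Fin (p + 2)) (j : Fin (p + 1)) (x : K.X (p + 1)),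
    K.vertex p j (K.d p i x) = K.vertex (p + 1) (i.succAbove j) x := by
  intro p
  induction p with
  | zero =>
    intro i j x
    fin_cases j
    fin_cases i
    · rfl
    · rfl
  | succ p ih =>
    intro i j x
    rcases Fin.eq_zero_or_eq_succ i with hi | ⟨i', hi⟩
    · subst hi
      rw [Fin.succAbove_zero, vertex_succ]
    · subst hi
      rcases Fin.eq_zero_or_eq_succ j with hj | ⟨j', hj⟩
      · subst hj
        rw [Fin.succ_succAbove_zero, vertex_zero', vertex_zero', vertex_zero']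
        rcases Fin.eq_castSucc_or_eq_last i' with ⟨i'', hi''⟩ | hi''
        · have h2 := K.comm p i''.succ (Fin.last (p + 1)) (Fin.le_last _) x
          rw [Fin.succ_last, ← Fin.succ_castSucc, ← hi''] at h2
          rw [← h2, ih, Fin.succ_succAbove_zero, vertex_zero']
        · rw [hi'', Fin.succ_last]
      · subst hj
        rw [Fin.succ_succAbove_succ, vertex_succ, vertex_succ]
        have h2 := K.comm p 0 i' (Fin.zero_le _) x
        rw [h2, ih]
        rfl

lemma comm' (K : Delta) {p : ℕ} {a b c e : ℕ} (ha : a < p + 2) (hb : b < p + 3) (hc : c < p + 2)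
    (he : e < p + 3) (h1 : a = e) (h2 : b = c + 1) (h3 : a ≤ c) (x : K.X (p + 2)) :
    K.d p ⟨a, ha⟩ (K.d (p + 1) ⟨b, hb⟩ x) = K.d p ⟨c, hc⟩ (K.d (p + 1) ⟨e, he⟩ x) := by
  subst h1 h2
  exact K.comm p ⟨a, ha⟩ ⟨c, hc⟩ h3 x

lemma link_comm_aux (K : Delta) {p : ℕ} (i j : Fin (p + 2)) (hij : i ≤ j) (s : K.X (p + 3))
    (k : Fin (p + 4)) :
    (K.d (p + 1) ((j.succ.predAbove k).succAbove i) (K.d (p + 2) (k.succAbove j.succ) s),
      i.predAbove (j.succ.predAbove k))
      = (K.d (p + 1) ((i.castSucc.predAbove k).succAbove j) (K.d (p + 2) (k.succAbove i.castSucc) s),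
        j.predAbove (i.castSucc.predAbove k)) := by
  obtain ⟨i, hi⟩ := i
  obtain ⟨j, hj⟩ := j
  obtain ⟨k, hk⟩ := k
  have hij' : i ≤ j := hij
  rcases Nat.lt_or_ge i k with h1 | h1
  · rcases Nat.lt_or_ge (j + 1) k with h2 | h2
    · have e1 : (Fin.succ ⟨j, hj⟩ : Fin (p + 3)).predAbove (⟨k, hk⟩ : Fin (p + 4)) = ⟨k - 1, by omega⟩ := by
        apply Fin.ext
        simp [Fin.predAbove, Fin.lt_def, h2]
      have e2 : (⟨k, hk⟩ : Fin (p + 4)).succAbove (Fin.succ ⟨j, hj⟩ : Fin (p + 3)) = ⟨j + 1, by omega⟩ := by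
        apply Fin.ext
        simp [Fin.succAbove, Fin.lt_def, h2]
      have e3 : (⟨k - 1, by omega⟩ : Fin (p + 3)).succAbove (⟨i, hi⟩ : Fin (p + 2)) = ⟨i, by omega⟩ := by
        apply Fin.ext
        have : i < k - 1 := by omega
        simp [Fin.succAbove, Fin.lt_def, this]
      have e4 : (⟨i, hi⟩ : Fin (p + 2)).predAbove (⟨k - 1, by omega⟩ : Fin (p + 3)) = ⟨k - 2, by omega⟩ := by
        apply Fin.ext
        have : i < k - 1 := by omega
        simp [Fin.predAbove, Fin.lt_def, this]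
        omega
      have e5 : (Fin.castSucc ⟨i, hi⟩ : Fin (p + 3)).predAbove (⟨k, hk⟩ : Fin (p + 4)) = ⟨k - 1, by omega⟩ := by
        apply Fin.ext
        simp [Fin.predAbove, Fin.lt_def, h1]
      have e6 : (⟨k, hk⟩ : Fin (p + 4)).succAbove (Fin.castSucc ⟨i, hi⟩ : Fin (p + 3)) = ⟨i, by omega⟩ := by
        apply Fin.ext
        simp [Fin.succAbove, Fin.lt_def, h1]
      have e7 : (⟨k - 1, by omega⟩ : Fin (p + 3)).succAbove (⟨j, hj⟩ : Fin (p + 2)) = ⟨j, by omega⟩ := by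
        apply Fin.ext
        have : j < k - 1 := by omega
        simp [Fin.succAbove, Fin.lt_def, this]
      have e8 : (⟨j, hj⟩ : Fin (p + 2)).predAbove (⟨k - 1, by omega⟩ : Fin (p + 3)) = ⟨k - 2, by omega⟩ := by
        apply Fin.ext
        have : j < k - 1 := by omega
        simp [Fin.predAbove, Fin.lt_def, this]
        omega
      rw [e1, e2, e3, e4, e5, e6, e7, e8]
      rw [K.comm' _ _ _ _ rfl rfl hij' s]
    · have e1 : (Fin.succ ⟨j, hj⟩ : Fin (p + 3)).predAbove (⟨k, hk⟩ : Fin (p + 4)) = ⟨k, by omega⟩ := by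
        apply Fin.ext
        have : ¬ (j + 1 < k) := by omega
        simp [Fin.predAbove, Fin.lt_def, this]
      have e2 : (⟨k, hk⟩ : Fin (p + 4)).succAbove (Fin.succ ⟨j, hj⟩ : Fin (p + 3)) = ⟨j + 2, by omega⟩ := by
        apply Fin.ext
        have : ¬ (j + 1 < k) := by omega
        simp [Fin.succAbove, Fin.lt_def, this]
      have e3 : (⟨k, by omega⟩ : Fin (p + 3)).succAbove (⟨i, hi⟩ : Fin (p + 2)) = ⟨i, by omega⟩ := by
        apply Fin.ext
        simp [Fin.succAbove, Fin.lt_def, h1]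
      have e4 : (⟨i, hi⟩ : Fin (p + 2)).predAbove (⟨k, by omega⟩ : Fin (p + 3)) = ⟨k - 1, by omega⟩ := by
        apply Fin.ext
        simp [Fin.predAbove, Fin.lt_def, h1]
      have e5 : (Fin.castSucc ⟨i, hi⟩ : Fin (p + 3)).predAbove (⟨k, hk⟩ : Fin (p + 4)) = ⟨k - 1, by omega⟩ := by
        apply Fin.ext
        simp [Fin.predAbove, Fin.lt_def, h1]
      have e6 : (⟨k, hk⟩ : Fin (p + 4)).succAbove (Fin.castSucc ⟨i, hi⟩ : Fin (p + 3)) = ⟨i, by omega⟩ := by
        apply Fin.ext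
        simp [Fin.succAbove, Fin.lt_def, h1]
      have e7 : (⟨k - 1, by omega⟩ : Fin (p + 3)).succAbove (⟨j, hj⟩ : Fin (p + 2)) = ⟨j + 1, by omega⟩ := by
        apply Fin.ext
        have : ¬ (j < k - 1) := by omega
        simp [Fin.succAbove, Fin.lt_def, this]
      have e8 : (⟨j, hj⟩ : Fin (p + 2)).predAbove (⟨k - 1, by omega⟩ : Fin (p + 3)) = ⟨k - 1, by omega⟩ := by
        apply Fin.ext
        have : ¬ (j < k - 1) := by omega
        simp [Fin.predAbove, Fin.lt_def, this]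
      rw [e1, e2, e3, e4, e5, e6, e7, e8]
      rw [K.comm' _ _ _ _ rfl rfl (by omega : i ≤ j + 1) s]
  · have e1 : (Fin.succ ⟨j, hj⟩ : Fin (p + 3)).predAbove (⟨k, hk⟩ : Fin (p + 4)) = ⟨k, by omega⟩ := by
      apply Fin.ext
      have : ¬ (j + 1 < k) := by omega
      simp [Fin.predAbove, Fin.lt_def, this]
    have e2 : (⟨k, hk⟩ : Fin (p + 4)).succAbove (Fin.succ ⟨j, hj⟩ : Fin (p + 3)) = ⟨j + 2, by omega⟩ := by
      apply Fin.ext
      have : ¬ (j + 1 < k) := by omega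
      simp [Fin.succAbove, Fin.lt_def, this]
    have e3 : (⟨k, by omega⟩ : Fin (p + 3)).succAbove (⟨i, hi⟩ : Fin (p + 2)) = ⟨i + 1, by omega⟩ := by
      apply Fin.ext
      have : ¬ (i < k) := by omega
      simp [Fin.succAbove, Fin.lt_def, this]
    have e4 : (⟨i, hi⟩ : Fin (p + 2)).predAbove (⟨k, by omega⟩ : Fin (p + 3)) = ⟨k, by omega⟩ := by
      apply Fin.ext
      have : ¬ (i < k) := by omega
      simp [Fin.predAbove, Fin.lt_def, this]
    have e5 : (Fin.castSucc ⟨i, hi⟩ : Fin (p + 3)).predAbove (⟨k, hk⟩ : Fin (p + 4)) = ⟨k, by omega⟩ := by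
      apply Fin.ext
      have : ¬ (i < k) := by omega
      simp [Fin.predAbove, Fin.lt_def, this]
    have e6 : (⟨k, hk⟩ : Fin (p + 4)).succAbove (Fin.castSucc ⟨i, hi⟩ : Fin (p + 3)) = ⟨i + 1, by omega⟩ := by
      apply Fin.ext
      have : ¬ (i < k) := by omega
      simp [Fin.succAbove, Fin.lt_def, this]
    have e7 : (⟨k, by omega⟩ : Fin (p + 3)).succAbove (⟨j, hj⟩ : Fin (p + 2)) = ⟨j + 1, by omega⟩ := by
      apply Fin.ext
      have : ¬ (j < k) := by omega
      simp [Fin.succAbove, Fin.lt_def, this]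
    have e8 : (⟨j, hj⟩ : Fin (p + 2)).predAbove (⟨k, by omega⟩ : Fin (p + 3)) = ⟨k, by omega⟩ := by
      apply Fin.ext
      have : ¬ (j < k) := by omega
      simp [Fin.predAbove, Fin.lt_def, this]
    rw [e1, e2, e3, e4, e5, e6, e7, e8]
    rw [K.comm' _ _ _ _ rfl rfl (by omega : i + 1 ≤ j + 1) s]

lemma linkD_aux (K : Delta) (v : K.X 0) (p : ℕ) (i : Fin (p + 2)) (x : K.X (p + 2)) (k : Fin (p + 3))
    (h : K.vertex (p + 2) k x = v) :
    K.vertex (p + 1) (i.predAbove k) (K.d (p + 1) (k.succAbove i) x) = v := by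
  rw [K.vertex_d, Fin.succAbove_succAbove_predAbove]
  exact h

end Delta

end Pool.Agent.MPfa412c
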