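import Pool.Agent.MPfa412c.Model

/-!
# Factorisations of the minors of the differentials
-/

set_option linter.unusedSectionVars false

open MonoidAlgebra

namespace Pool.Agent.MPfa412c

section lists

/-- drop the first `k` columns -/
def cut (k : ℕ) : List Mono → List Mono
  | [] => []
  | m :: r => if Nat.blt m.j k then cut k r else ⟨m.j - k, m.y, m.x, m.z, m.c⟩ :: cut k r

lemma rowVal_cut (k : ℕ) (r : List Mono) (j : ℕ) : rowVal (cut k r) j = rowVal r (j + k) := by
  induction r with
  | nil => rfl
  | cons m r ih =>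
    unfold cut
    by_cases h : Nat.blt m.j k = true
    · rw [if_pos h, ih]
      rw [Nat.blt_eq] at h
      rw [rowVal]
      unfold Mono.val
      rw [if_neg (by omega), zero_add]
    · rw [if_neg h, rowVal, rowVal, ih]
      rw [Nat.blt_eq] at h
      congr 1
      unfold Mono.val
      by_cases hj : m.j = j + k
      · rw [if_pos hj, if_pos (by omega : m.j - k = j)]
      · rw [if_neg hj, if_neg (by omega : ¬ (m.j - k = j))]

/-- sort and combine -/
def canon : List Mono → List Mono
  | [] => []
  | m :: r => merge [m] (canon r)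

lemma rowVal_canon (r : List Mono) (j : ℕ) : rowVal (canon r) j = rowVal r j := by
  induction r with
  | nil => rfl
  | cons m r ih =>
    unfold canon
    rw [rowVal_merge, ih]
    simp [rowVal]

lemma rowVal_eq_zero (r : List Mono) (j : ℕ) (h : ∀ m ∈ r, m.j ≠ j) : rowVal r j = 0 := by
  induction r with
  | nil => rfl
  | cons m r ih =>
    rw [rowVal, ih (fun m' hm' => h m' (List.mem_cons_of_mem _ hm'))]
    unfold Mono.val
    rw [if_neg (h m List.mem_cons_self), add_zero]

/-- the entry in column `j`, moved to column `0` -/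
def at0 (j : ℕ) : List Mono → List Mono
  | [] => []
  | m :: r => if m.j == j then ⟨0, m.y, m.x, m.z, m.c⟩ :: at0 j r else at0 j r

lemma rowVal_at0 (j : ℕ) (r : List Mono) : rowVal (at0 j r) 0 = rowVal r j := by
  induction r with
  | nil => rfl
  | cons m r ih =>
    unfold at0
    by_cases h : (m.j == j) = true
    · rw [if_pos h, rowVal, rowVal, ih]
      congr 1
      rw [beq_iff_eq] at h
      unfold Mono.val
      rw [if_pos h]
      rfl
    · rw [if_neg h, rowVal, ih]
      rw [beq_iff_eq] at h
      unfold Mono.val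
      rw [if_neg h, zero_add]

/-- the entry in column `j` is plus or minus a group element -/
def unitCheck (j : ℕ) (r : List Mono) : Bool :=
  match at0 j r with
  | [m] => m.c == 1 || m.c == -1
  | _ => false

lemma dty_of_unitCheck {j : ℕ} {r : List Mono} (h : unitCheck j r = true) : DTy (rowVal r j) 0 := by
  rw [← rowVal_at0]
  unfold unitCheck at h
  split at h
  · rename_i m hm
    rw [hm]
    have h0 : m.j = 0 := by
      have : ∀ (r : List Mono), ∀ x ∈ at0 j r, x.j = 0 := by
        intro r
        induction r with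
        | nil => intro x hx; simp [at0] at hx
        | cons n r ih =>
          intro x hx
          unfold at0 at hx
          split at hx
          · rcases List.mem_cons.1 hx with rfl | hx
            · rfl
            · exact ih x hx
          · exact ih x hx
      exact this r m (by rw [hm]; exact List.mem_cons_self)
    have hv : rowVal [m] 0 = MonoidAlgebra.single ⟨m.x, m.z, m.y⟩ m.c := by
      simp [rowVal, Mono.val, h0]
    rw [hv]
    simp only [Bool.or_eq_true, beq_iff_eq] at h
    rcases h with h | h
    · rw [h]; exact DTy.unit _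
    · rw [h]; exact DTy.negUnit _
  · exact absurd h (by simp)

lemma toMat_zero (m n : ℕ) : toMat m n (fun _ => []) = 0 := by
  apply Matrix.ext
  intro i j
  rfl

/-- lower triangularity check -/
def lowerCheck (A : ℕ → List Mono) : ℕ → Bool
  | 0 => true
  | i + 1 => (A i).all (fun m => Nat.ble m.j i) && lowerCheck A i

/-- upper triangularity check -/
def upperCheck (A : ℕ → List Mono) : ℕ → Bool
  | 0 => true
  | i + 1 => (A i).all (fun m => Nat.ble i m.j) && upperCheck A i

lemma lower_of_check {A : ℕ → List Mono} {n : ℕ} (h : lowerCheck A n = true) (i j : Fin n) (hij : i < j) :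
    toMat n n A i j = 0 := by
  have key : ∀ n, lowerCheck A n = true → ∀ i, i < n → ∀ m ∈ A i, m.j ≤ i := by
    intro n
    induction n with
    | zero => intro _ i hi; omega
    | succ n ih =>
      intro h i hi m hm
      unfold lowerCheck at h
      simp only [Bool.and_eq_true, List.all_eq_true] at h
      rcases Nat.lt_succ_iff_lt_or_eq.1 hi with hi' | hi'
      · exact ih h.2 i hi' m hm
      · subst hi'
        exact Nat.le_of_ble_eq_true (h.1 m hm)
  apply rowVal_eq_zero
  intro m hm hmj
  have h1 := key n h i i.2 m hm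
  have h2 : (i : ℕ) < j := hij
  omega

lemma upper_of_check {A : ℕ → List Mono} {n : ℕ} (h : upperCheck A n = true) (i j : Fin n) (hij : j < i) :
    toMat n n A i j = 0 := by
  have key : ∀ n, upperCheck A n = true → ∀ i, i < n → ∀ m ∈ A i, i ≤ m.j := by
    intro n
    induction n with
    | zero => intro _ i hi; omega
    | succ n ih =>
      intro h i hi m hm
      unfold upperCheck at h
      simp only [Bool.and_eq_true, List.all_eq_true] at h
      rcases Nat.lt_succ_iff_lt_or_eq.1 hi with hi' | hi'
      · exact ih h.2 i hi' m hm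
      · subst hi'
        exact Nat.le_of_ble_eq_true (h.1 m hm)
  apply rowVal_eq_zero
  intro m hm hmj
  have h1 := key n h i i.2 m hm
  have h2 : (j : ℕ) < i := hij
  omega

end lists

namespace Model

open Data

/-- cocycle value as a monomial -/
def gm (j e : ℕ) (c : ℤ) : Mono :=
  ⟨j, (tg.getD e (0, 0, 0)).2.2, (tg.getD e (0, 0, 0)).1, (tg.getD e (0, 0, 0)).2.1, c⟩

/-- rows of the first differential -/
def row1 (e : ℕ) : List Mono := [gm 0 e 1, ⟨0, 0, 0, 0, -1⟩]

/-- rows of the second differential -/
def row2 (f : ℕ) : List Mono :=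
  [gm (face2 0 f) (face2 2 f) 1, ⟨face2 1 f, 0, 0, 0, -1⟩, ⟨face2 2 f, 0, 0, 0, 1⟩]

/-- rows of the third differential -/
def row3 (t : ℕ) : List Mono :=
  [gm (face3 0 t) (face2 2 (face3 3 t)) 1, ⟨face3 1 t, 0, 0, 0, -1⟩, ⟨face3 2 t, 0, 0, 0, 1⟩,
    ⟨face3 3 t, 0, 0, 0, -1⟩]

lemma val_d1 : ∀ (i : Fin 3) (s : Fin 60), (show Fin 31 from dd 1 i s).val = face2 i.val s.val := by
  decide +kernel

lemma val_d2 : ∀ (i : Fin 4) (s : Fin 30), (show Fin 60 from dd 2 i s).val = face3 i.val s.val := by
  decide +kernel

lemma bd0 : K.bd γ 0 = toMat 31 1 row1 := by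
  apply Matrix.ext
  intro s t
  have ht : (show Fin 1 from t) = 0 := Subsingleton.elim _ _
  have ht' : (show Fin 1 from t).val = 0 := by rw [ht]; rfl
  have h0 : ∀ i : Fin 2, K.d 0 i s = t := fun i => Subsingleton.elim (α := Fin 1) _ _
  unfold Delta.bd toMat
  rw [Fin.sum_univ_two, if_pos (h0 0), if_pos (h0 1), if_pos rfl, if_neg (by decide)]
  change _ = rowVal (row1 (show Fin 31 from s).val) (show Fin 1 from t).val
  rw [ht']
  simp only [row1, rowVal, Mono.val, gm, if_true, add_zero]
  rfl

lemma bd1 : K.bd γ 1 = toMat 60 31 row2 := by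
  apply Matrix.ext
  intro s t
  unfold Delta.bd toMat
  rw [Fin.sum_univ_three]
  have h : ∀ i : Fin 3, (K.d 1 i s = t) ↔ (face2 i.val (show Fin 60 from s).val = (show Fin 31 from t).val) := by
    intro i
    rw [← val_d1]
    exact Fin.ext_iff
  have hg : γ (K.first 1 s) = ⟨(tg.getD (face2 2 (show Fin 60 from s).val) (0, 0, 0)).1,
      (tg.getD (face2 2 (show Fin 60 from s).val) (0, 0, 0)).2.1,
      (tg.getD (face2 2 (show Fin 60 from s).val) (0, 0, 0)).2.2⟩ := by
    have h1 := val_d1 2 s
    change γ (dd 1 2 s) = _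
    unfold γ
    rw [h1]
    rfl
  rw [hg]
  simp only [h]
  change _ = rowVal (row2 (show Fin 60 from s).val) (show Fin 31 from t).val
  simp only [row2, rowVal, Mono.val, gm, add_zero]
  rw [← add_assoc]
  congr 1

lemma bd2 : K.bd γ 2 = toMat 30 60 row3 := by
  apply Matrix.ext
  intro s t
  unfold Delta.bd toMat
  rw [Fin.sum_univ_four]
  have h : ∀ i : Fin 4, (K.d 2 i s = t) ↔ (face3 i.val (show Fin 30 from s).val = (show Fin 60 from t).val) := by
    intro i
    rw [← val_d2]
    exact Fin.ext_iff
  have hg : γ (K.first 2 s) = ⟨(tg.getD (face2 2 (face3 3 (show Fin 30 from s).val)) (0, 0, 0)).1,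
      (tg.getD (face2 2 (face3 3 (show Fin 30 from s).val)) (0, 0, 0)).2.1,
      (tg.getD (face2 2 (face3 3 (show Fin 30 from s).val)) (0, 0, 0)).2.2⟩ := by
    have h1 := val_d1 2 (dd 2 3 s)
    have h2 := val_d2 3 s
    change γ (dd 1 2 (dd 2 3 s)) = _
    unfold γ
    rw [h1]
    change (⟨(tg.getD (face2 2 (show Fin 60 from dd 2 3 s).val) (0, 0, 0)).1,
      (tg.getD (face2 2 (show Fin 60 from dd 2 3 s).val) (0, 0, 0)).2.1,
      (tg.getD (face2 2 (show Fin 60 from dd 2 3 s).val) (0, 0, 0)).2.2⟩ : G3) = _
    rw [h2]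
    rfl
  rw [hg]
  simp only [h]
  change _ = rowVal (row3 (show Fin 30 from s).val) (show Fin 60 from t).val
  simp only [row3, rowVal, Mono.val, gm, add_zero]
  rw [← add_assoc, ← add_assoc]
  congr 1

lemma toMat_canon (m n : ℕ) (A : ℕ → List Mono) : toMat m n (fun i => canon (A i)) = toMat m n A := by
  apply Matrix.ext
  intro i j
  exact rowVal_canon _ _

lemma bd_bd1 : K.bd γ 1 * K.bd γ 0 = 0 := by
  rw [bd1, bd0]
  have h := mul_of_check (l := 60) (m := 31) (n := 1) (A := row2) (B := fun i => canon (row1 i))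
    (C := fun _ => []) (by decide +kernel)
  rw [toMat_canon] at h
  exact h.trans (toMat_zero _ _)

lemma bd_bd2 : K.bd γ 2 * K.bd γ 1 = 0 := by
  rw [bd2, bd1]
  have h := mul_of_check (l := 30) (m := 60) (n := 31) (A := row3) (B := fun i => canon (row2 i))
    (C := fun _ => []) (by decide +kernel)
  rw [toMat_canon] at h
  exact h.trans (toMat_zero _ _)

end Model

end Pool.Agent.MPfa412c
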