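import Mathlib

/-!
# Finite-dimensional determinant inequalities

For a complex square matrix `X` and `ε > 0` we study
`ld X ε = log det (X Xᴴ + ε)`.
-/

set_option linter.unusedSectionVars false

open Matrix
open scoped ComplexOrder

namespace Pool.Agent.MPfa412c

variable {n m : Type*} [Fintype n] [DecidableEq n] [Fintype m] [DecidableEq m]

lemma posDef_smul_one {ε : ℝ} (hε : 0 < ε) : ((ε : ℂ) • (1 : Matrix n n ℂ)).PosDef :=
  Matrix.PosDef.one.smul (by exact_mod_cast hε)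

lemma posSemidef_smul_one {ε : ℝ} (hε : 0 ≤ ε) : ((ε : ℂ) • (1 : Matrix n n ℂ)).PosSemidef :=
  Matrix.PosSemidef.one.smul (by exact_mod_cast hε)

lemma posDef_add_smul_one {A : Matrix n n ℂ} (hA : A.PosSemidef) {ε : ℝ} (hε : 0 < ε) :
    (A + (ε : ℂ) • (1 : Matrix n n ℂ)).PosDef :=
  Matrix.PosDef.posSemidef_add hA (posDef_smul_one hε)

lemma det_ofReal_of_posDef {A : Matrix n n ℂ} (hA : A.PosDef) : ((A.det.re : ℝ) : ℂ) = A.det := by
  have := hA.det_pos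
  rw [Complex.lt_def] at this
  apply Complex.ext
  · simp
  · simp [← this.2]

lemma det_re_pos {A : Matrix n n ℂ} (hA : A.PosDef) : 0 < A.det.re := by
  have := hA.det_pos
  rw [Complex.lt_def] at this
  simpa using this.1

lemma prod_ofReal_re (f : n → ℝ) : (∏ i, (RCLike.ofReal (f i) : ℂ)).re = ∏ i, f i := by
  have : (∏ i, (RCLike.ofReal (f i) : ℂ)) = ((∏ i, f i : ℝ) : ℂ) := by
    push_cast; rfl
  rw [this, Complex.ofReal_re]

/-- If `B ≥ 1` then `det B ≥ 1`. -/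
lemma one_le_det_of_one_le {B : Matrix n n ℂ} (hB : (B - 1).PosSemidef) : 1 ≤ B.det.re := by
  have hBh : B.IsHermitian := by
    have h1 := hB.isHermitian
    have h2 : B = (B - 1) + 1 := by simp
    rw [h2]
    exact h1.add Matrix.isHermitian_one
  have hev : ∀ i, 1 ≤ hBh.eigenvalues i := by
    intro i
    have h := hB.re_dotProduct_nonneg (WithLp.ofLp (hBh.eigenvectorBasis i))
    rw [Matrix.sub_mulVec, Matrix.one_mulVec, hBh.mulVec_eigenvectorBasis, dotProduct_sub] at h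
    have h3 : star (WithLp.ofLp (hBh.eigenvectorBasis i)) ⬝ᵥ (WithLp.ofLp (hBh.eigenvectorBasis i)) = 1 := by
      have := (hBh.eigenvectorBasis).orthonormal.1 i
      have h4 : inner ℂ (hBh.eigenvectorBasis i) (hBh.eigenvectorBasis i) = (1 : ℂ) := by
        rw [inner_self_eq_norm_sq_to_K, this]; simp
      rw [EuclideanSpace.inner_eq_star_dotProduct] at h4
      rw [dotProduct_comm]
      exact h4
    rw [dotProduct_smul, h3] at h
    simp at h
    linarith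
  rw [hBh.det_eq_prod_eigenvalues, prod_ofReal_re]
  exact Finset.one_le_prod (fun i _ => hev i)

lemma exists_factor {A : Matrix n n ℂ} (hA : A.PosDef) :
    ∃ C : Matrix n n ℂ, IsUnit C ∧ A = Cᴴ * C := by
  have h : ∃ C : Matrix n n ℂ, A = star C * C := by
    open scoped MatrixOrder Matrix.Norms.L2Operator in
    exact CStarAlgebra.nonneg_iff_eq_star_mul_self.mp (Matrix.nonneg_iff_posSemidef.2 hA.posSemidef)
  obtain ⟨C, hC⟩ := h
  refine ⟨C, ?_, hC⟩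
  have hu : IsUnit A := hA.isUnit
  rw [hC] at hu
  exact isUnit_of_mul_isUnit_right hu

/-- Monotonicity of the determinant on positive definite matrices. -/
lemma det_mono {A B : Matrix n n ℂ} (hA : A.PosDef) (hAB : (B - A).PosSemidef) :
    A.det.re ≤ B.det.re := by
  obtain ⟨C, hCu, hC⟩ := exists_factor hA
  have hdu : IsUnit C.det := (Matrix.isUnit_iff_isUnit_det C).1 hCu
  have h1 : ((C⁻¹)ᴴ * B * C⁻¹ - 1).PosSemidef := by
    have h2 := hAB.conjTranspose_mul_mul_same C⁻¹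
    have h3 : (C⁻¹)ᴴ * (B - A) * C⁻¹ = (C⁻¹)ᴴ * B * C⁻¹ - 1 := by
      rw [Matrix.mul_sub, Matrix.sub_mul, hC]
      congr 1
      rw [← Matrix.mul_assoc, ← Matrix.conjTranspose_mul, Matrix.mul_nonsing_inv _ hdu,
        Matrix.conjTranspose_one, Matrix.one_mul, Matrix.mul_nonsing_inv _ hdu]
    rwa [h3] at h2
  have h4 := one_le_det_of_one_le h1
  have h5 : B = Cᴴ * ((C⁻¹)ᴴ * B * C⁻¹) * C := by
    have : Cᴴ * (C⁻¹)ᴴ = 1 := by
      rw [← Matrix.conjTranspose_mul, Matrix.nonsing_inv_mul _ hdu, Matrix.conjTranspose_one]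
    calc B = (Cᴴ * (C⁻¹)ᴴ) * B * (C⁻¹ * C) := by
          rw [this, Matrix.nonsing_inv_mul _ hdu, Matrix.one_mul, Matrix.mul_one]
      _ = _ := by simp only [Matrix.mul_assoc]
  have h6 : B.det = A.det * ((C⁻¹)ᴴ * B * C⁻¹).det := by
    conv_lhs => rw [h5]
    generalize (C⁻¹)ᴴ * B * C⁻¹ = M
    rw [hC, Matrix.det_mul, Matrix.det_mul, Matrix.det_mul]
    ring
  have h7 := det_ofReal_of_posDef hA
  have h8 : B.det.re = A.det.re * ((C⁻¹)ᴴ * B * C⁻¹).det.re := by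
    rw [h6, ← h7, Complex.re_ofReal_mul, Complex.ofReal_re]
  rw [h8]
  have := det_re_pos hA
  nlinarith

/-- `det (δ + A B) = det (δ + B A)` for square matrices. -/
lemma det_smul_one_add_mul_comm (A B : Matrix n n ℂ) {δ : ℂ} (hδ : δ ≠ 0) :
    (A * B + δ • (1 : Matrix n n ℂ)).det = (B * A + δ • (1 : Matrix n n ℂ)).det := by
  have h1 : A * B + δ • (1 : Matrix n n ℂ) = δ • (1 + (δ⁻¹ • A) * B) := by
    rw [smul_add, Matrix.smul_mul, smul_smul, mul_inv_cancel₀ hδ, one_smul, add_comm]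
  have h2 : B * A + δ • (1 : Matrix n n ℂ) = δ • (1 + B * (δ⁻¹ • A)) := by
    rw [smul_add, Matrix.mul_smul, smul_smul, mul_inv_cancel₀ hδ, one_smul, add_comm]
  rw [h1, h2, Matrix.det_smul, Matrix.det_smul, Matrix.det_one_add_mul_comm]

/-- The regularised log-determinant `log det (X Xᴴ + ε)`. -/
noncomputable def ld (X : Matrix n n ℂ) (ε : ℝ) : ℝ :=
  Real.log (X * Xᴴ + (ε : ℂ) • (1 : Matrix n n ℂ)).det.re

lemma posDef_reg (X : Matrix n n ℂ) {ε : ℝ} (hε : 0 < ε) :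
    (X * Xᴴ + (ε : ℂ) • (1 : Matrix n n ℂ)).PosDef :=
  posDef_add_smul_one (Matrix.posSemidef_self_mul_conjTranspose X) hε

lemma ld_conjTranspose (X : Matrix n n ℂ) {ε : ℝ} (hε : 0 < ε) : ld Xᴴ ε = ld X ε := by
  unfold ld
  rw [Matrix.conjTranspose_conjTranspose, det_smul_one_add_mul_comm]
  exact_mod_cast hε.ne'

lemma det_conj_factor (X P : Matrix n n ℂ) (hP : P.PosDef) {δ : ℝ} (hδ : 0 < δ) :
    (X * P * Xᴴ + (δ : ℂ) • (1 : Matrix n n ℂ)).det
      = P.det * (Xᴴ * X + (δ : ℂ) • P⁻¹).det := by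
  have hdu : IsUnit P.det := (Matrix.isUnit_iff_isUnit_det P).1 hP.isUnit
  rw [Matrix.mul_assoc, det_smul_one_add_mul_comm _ _ (by exact_mod_cast hδ.ne'), ← Matrix.det_mul]
  congr 1
  rw [Matrix.mul_add, Matrix.mul_smul, Matrix.mul_nonsing_inv _ hdu, Matrix.mul_assoc]

/-- Inversion is antitone on positive definite matrices. -/
lemma inv_anti {A B : Matrix n n ℂ} (hA : A.PosDef) (hB : B.PosDef) (hAB : (B - A).PosSemidef) :
    (A⁻¹ - B⁻¹).PosSemidef := by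
  open scoped MatrixOrder Matrix.Norms.L2Operator in
  have hAu : IsUnit A := hA.isUnit
  have hBu : IsUnit B := hB.isUnit
  obtain ⟨a, rfl⟩ := hAu
  obtain ⟨b, rfl⟩ := hBu
  have h := CStarAlgebra.inv_le_inv (a := a) (b := b)
    (Matrix.nonneg_iff_posSemidef.2 hA.posSemidef) (Matrix.le_iff.2 hAB)
  rw [Matrix.le_iff] at h
  simpa using h

lemma smul_one_inv {c : ℝ} (hc : 0 < c) :
    ((c : ℂ) • (1 : Matrix n n ℂ))⁻¹ = ((c⁻¹ : ℝ) : ℂ) • (1 : Matrix n n ℂ) := by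
  apply Matrix.inv_eq_left_inv
  rw [Matrix.smul_mul, Matrix.one_mul, smul_smul]
  push_cast
  rw [inv_mul_cancel₀ (by exact_mod_cast hc.ne'), one_smul]

/-- If `P ≥ c > 0` then `P⁻¹ ≤ c⁻¹`. -/
lemma inv_le_of_le {P : Matrix n n ℂ} {c : ℝ} (hc : 0 < c)
    (hP : (P - (c : ℂ) • (1 : Matrix n n ℂ)).PosSemidef) (hPd : P.PosDef) :
    (((c⁻¹ : ℝ) : ℂ) • (1 : Matrix n n ℂ) - P⁻¹).PosSemidef := by
  have := inv_anti (posDef_smul_one hc) hPd hP
  rwa [smul_one_inv hc] at this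

/-- If `0 < P ≤ K` then `P⁻¹ ≥ K⁻¹`. -/
lemma le_inv_of_le {P : Matrix n n ℂ} {K : ℝ} (hK : 0 < K) (hPd : P.PosDef)
    (hP : ((K : ℂ) • (1 : Matrix n n ℂ) - P).PosSemidef) :
    (P⁻¹ - ((K⁻¹ : ℝ) : ℂ) • (1 : Matrix n n ℂ)).PosSemidef := by
  have := inv_anti hPd (posDef_smul_one hK) hP
  rwa [smul_one_inv hK] at this

lemma PosSemidef_smul_sub {M N : Matrix n n ℂ} {δ : ℝ} (hδ : 0 ≤ δ) (h : (M - N).PosSemidef) :
    ((δ : ℂ) • M - (δ : ℂ) • N).PosSemidef := by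
  rw [← smul_sub]
  exact h.smul (by exact_mod_cast hδ)

/-- Upper submultiplicativity of the regularised log-determinants. -/
lemma ld_mul_le (X Y : Matrix n n ℂ) {ε ε₂ : ℝ} (hε : 0 < ε) (hε₂ : 0 < ε₂) :
    ld (X * Y) ε ≤ ld X (ε / ε₂) + ld Y ε₂ := by
  set P := Y * Yᴴ + (ε₂ : ℂ) • (1 : Matrix n n ℂ) with hPdef
  have hP : P.PosDef := posDef_reg Y hε₂
  have h1 : ((X * P * Xᴴ + (ε : ℂ) • (1 : Matrix n n ℂ))
      - ((X * Y) * (X * Y)ᴴ + (ε : ℂ) • (1 : Matrix n n ℂ))).PosSemidef := by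
    have : (X * P * Xᴴ + (ε : ℂ) • (1 : Matrix n n ℂ))
      - ((X * Y) * (X * Y)ᴴ + (ε : ℂ) • (1 : Matrix n n ℂ)) = X * ((ε₂ : ℂ) • (1 : Matrix n n ℂ)) * Xᴴ := by
      rw [hPdef, Matrix.mul_add, Matrix.add_mul, Matrix.conjTranspose_mul]
      simp only [Matrix.mul_assoc]
      abel
    rw [this]
    exact (posSemidef_smul_one hε₂.le).mul_mul_conjTranspose_same X
  have h2 := det_mono (posDef_reg (X * Y) hε) h1
  rw [det_conj_factor X P hP hε] at h2
  -- `P⁻¹ ≤ ε₂⁻¹`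
  have h3 : (((ε₂⁻¹ : ℝ) : ℂ) • (1 : Matrix n n ℂ) - P⁻¹).PosSemidef := by
    apply inv_le_of_le hε₂ _ hP
    rw [hPdef, add_sub_cancel_right]
    exact Matrix.posSemidef_self_mul_conjTranspose Y
  have h4 : (Xᴴ * X + (ε : ℂ) • P⁻¹).PosDef := by
    apply Matrix.PosDef.posSemidef_add (Matrix.posSemidef_conjTranspose_mul_self X)
    exact hP.inv.smul (by exact_mod_cast hε)
  have h5 : ((Xᴴ * X + (((ε / ε₂ : ℝ)) : ℂ) • (1 : Matrix n n ℂ)) - (Xᴴ * X + (ε : ℂ) • P⁻¹)).PosSemidef := by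
    have : (Xᴴ * X + (((ε / ε₂ : ℝ)) : ℂ) • (1 : Matrix n n ℂ)) - (Xᴴ * X + (ε : ℂ) • P⁻¹)
        = (ε : ℂ) • (((ε₂⁻¹ : ℝ) : ℂ) • (1 : Matrix n n ℂ)) - (ε : ℂ) • P⁻¹ := by
      rw [smul_smul, div_eq_mul_inv]
      push_cast
      abel
    rw [this]
    exact PosSemidef_smul_sub hε.le h3
  have h6 := det_mono h4 h5
  have hPr := det_ofReal_of_posDef hP
  rw [← hPr, Complex.re_ofReal_mul] at h2
  have hPp := det_re_pos hP
  have h7 : ld X (ε / ε₂) = Real.log (Xᴴ * X + (((ε / ε₂ : ℝ)) : ℂ) • (1 : Matrix n n ℂ)).det.re := by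
    unfold ld
    rw [det_smul_one_add_mul_comm]
    exact_mod_cast (div_pos hε hε₂).ne'
  rw [h7]
  unfold ld
  rw [← hPdef, add_comm (Real.log _) (Real.log P.det.re), ← Real.log_mul hPp.ne']
  · apply Real.log_le_log (det_re_pos (posDef_reg (X * Y) hε))
    exact h2.trans (mul_le_mul_of_nonneg_left h6 hPp.le)
  · exact ((det_re_pos h4).trans_le h6).ne'

/-- Lower bound for regularised log-determinants of products. -/
lemma le_ld_mul (X Y : Matrix n n ℂ) {ε δ K K' : ℝ} (hε : 0 < ε) (hδ : 0 < δ) (hK : 0 < K)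
    (hK' : 0 < K')
    (hX : ((K : ℂ) • (1 : Matrix n n ℂ) - X * Xᴴ).PosSemidef)
    (hY : ((K' : ℂ) • (1 : Matrix n n ℂ) - (Y * Yᴴ + (((ε / K : ℝ)) : ℂ) • (1 : Matrix n n ℂ))).PosSemidef) :
    ld X (δ / K') + ld Y (ε / K) ≤ ld (X * Y) (ε + δ) := by
  set P := Y * Yᴴ + (((ε / K : ℝ)) : ℂ) • (1 : Matrix n n ℂ) with hPdef
  have hP : P.PosDef := posDef_reg Y (div_pos hε hK)
  have h1 : (((X * Y) * (X * Y)ᴴ + (((ε + δ : ℝ)) : ℂ) • (1 : Matrix n n ℂ))
      - (X * P * Xᴴ + (δ : ℂ) • (1 : Matrix n n ℂ))).PosSemidef := by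
    have e1 : ((X * Y) * (X * Y)ᴴ + (((ε + δ : ℝ)) : ℂ) • (1 : Matrix n n ℂ))
      - (X * P * Xᴴ + (δ : ℂ) • (1 : Matrix n n ℂ))
        = (((ε / K : ℝ)) : ℂ) • ((K : ℂ) • (1 : Matrix n n ℂ)) - (((ε / K : ℝ)) : ℂ) • (X * Xᴴ) := by
      rw [hPdef, Matrix.mul_add, Matrix.add_mul, Matrix.conjTranspose_mul, smul_smul]
      have e2 : (((ε / K : ℝ)) : ℂ) * K = ε := by
        push_cast
        field_simp [show (K : ℂ) ≠ 0 by exact_mod_cast hK.ne']
      rw [e2]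
      push_cast
      rw [add_smul]
      simp only [Matrix.mul_assoc, Matrix.mul_smul, Matrix.smul_mul, Matrix.mul_one]
      abel
    rw [e1]
    exact PosSemidef_smul_sub (div_pos hε hK).le hX
  have h0 : (X * P * Xᴴ + (δ : ℂ) • (1 : Matrix n n ℂ)).PosDef := by
    apply Matrix.PosDef.posSemidef_add _ (posDef_smul_one hδ)
    exact hP.posSemidef.mul_mul_conjTranspose_same X
  have h2 := det_mono h0 h1
  rw [det_conj_factor X P hP hδ] at h2
  have h3 := le_inv_of_le hK' hP hY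
  have h4 : (Xᴴ * X + (((δ / K' : ℝ)) : ℂ) • (1 : Matrix n n ℂ)).PosDef := by
    apply Matrix.PosDef.posSemidef_add (Matrix.posSemidef_conjTranspose_mul_self X)
    exact posDef_smul_one (div_pos hδ hK')
  have h5 : ((Xᴴ * X + (δ : ℂ) • P⁻¹) - (Xᴴ * X + (((δ / K' : ℝ)) : ℂ) • (1 : Matrix n n ℂ))).PosSemidef := by
    have : (Xᴴ * X + (δ : ℂ) • P⁻¹) - (Xᴴ * X + (((δ / K' : ℝ)) : ℂ) • (1 : Matrix n n ℂ))
        = (δ : ℂ) • P⁻¹ - (δ : ℂ) • (((K'⁻¹ : ℝ) : ℂ) • (1 : Matrix n n ℂ)) := by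
      rw [smul_smul, div_eq_mul_inv]
      push_cast
      abel
    rw [this]
    exact PosSemidef_smul_sub hδ.le h3
  have h6 := det_mono h4 h5
  have hPr := det_ofReal_of_posDef hP
  rw [← hPr, Complex.re_ofReal_mul] at h2
  have hPp := det_re_pos hP
  have h7 : ld X (δ / K') = Real.log (Xᴴ * X + (((δ / K' : ℝ)) : ℂ) • (1 : Matrix n n ℂ)).det.re := by
    unfold ld
    rw [det_smul_one_add_mul_comm]
    exact_mod_cast (div_pos hδ hK').ne'
  rw [h7]
  unfold ld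
  rw [← hPdef, add_comm, ← Real.log_mul hPp.ne' (det_re_pos h4).ne']
  · apply Real.log_le_log (mul_pos hPp (det_re_pos h4))
    exact (mul_le_mul_of_nonneg_left h6 hPp.le).trans h2

/-- Regularised log-determinants dominate the genuine ones. -/
lemma log_det_le_ld (X : Matrix n n ℂ) {ε : ℝ} (hε : 0 < ε) (hX : X.det ≠ 0) :
    2 * Real.log ‖X.det‖ ≤ ld X ε := by
  have hXX : (X * Xᴴ).PosDef := by
    have : IsUnit X := (Matrix.isUnit_iff_isUnit_det X).2 (isUnit_iff_ne_zero.2 hX)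
    exact (Matrix.posSemidef_self_mul_conjTranspose X).posDef_iff_isUnit.2
      (this.mul (by simpa using this.star))
  have h1 : ((X * Xᴴ + (ε : ℂ) • (1 : Matrix n n ℂ)) - X * Xᴴ).PosSemidef := by
    rw [add_sub_cancel_left]
    exact posSemidef_smul_one hε.le
  have h2 := det_mono hXX h1
  have h3 : (X * Xᴴ).det.re = ‖X.det‖ ^ 2 := by
    rw [Matrix.det_mul, Matrix.det_conjTranspose, Complex.star_def, Complex.mul_conj]
    rw [Complex.ofReal_re, Complex.normSq_eq_norm_sq]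
  rw [h3] at h2
  unfold ld
  have hpos : 0 < ‖X.det‖ := norm_pos_iff.2 hX
  calc 2 * Real.log ‖X.det‖ = Real.log (‖X.det‖ ^ 2) := by rw [Real.log_pow]; norm_num
    _ ≤ _ := Real.log_le_log (by positivity) h2

end Pool.Agent.MPfa412c
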