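import Pool.Agent.MPfa412c.Factor

/-!
# The torsions of the explicit manifold
-/

set_option linter.unusedSectionVars false

open MonoidAlgebra

namespace Pool.Agent.MPfa412c.Model

open Data

/-- splitting of the edges -/
def x1 : K.X 0 ⊕ Fin 30 ≃ K.X 1 := (finSumFinEquiv : Fin 1 ⊕ Fin 30 ≃ Fin (1 + 30))

/-- splitting of the triangles -/
def x2 : Fin 30 ⊕ K.X 3 ≃ K.X 2 := (finSumFinEquiv : Fin 30 ⊕ Fin 30 ≃ Fin (30 + 30))

lemma B1_eq : (K.bd γ 0).submatrix (x1 ∘ Sum.inl) id = toMat 1 1 row1 := by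
  rw [bd0]
  rfl

lemma x1_inr (j : Fin 30) : (show Fin 31 from x1 (Sum.inr j)).val = j.val + 1 :=
  Nat.add_comm _ _

lemma x2_inl (j : Fin 30) : (show Fin 60 from x2 (Sum.inl j)).val = j.val := rfl

lemma x2_inr (j : Fin 30) : (show Fin 60 from x2 (Sum.inr j)).val = j.val + 30 :=
  Nat.add_comm _ _

lemma B2_eq : (K.bd γ 1).submatrix (x2 ∘ Sum.inl) (x1 ∘ Sum.inr)
    = toMat 30 30 (fun i => canon (cut 1 (row2 i))) := by
  rw [bd1]
  apply Matrix.ext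
  intro i j
  change rowVal (row2 (show Fin 60 from x2 (Sum.inl i)).val) (show Fin 31 from x1 (Sum.inr j)).val
    = rowVal (canon (cut 1 (row2 i.val))) j.val
  rw [rowVal_canon, rowVal_cut, x1_inr, x2_inl]

lemma B3_eq : (K.bd γ 2).submatrix id (x2 ∘ Sum.inr)
    = toMat 30 30 (fun i => canon (cut 30 (row3 i))) := by
  rw [bd2]
  apply Matrix.ext
  intro i j
  change rowVal (row3 (show Fin 30 from i).val) (show Fin 60 from x2 (Sum.inr j)).val
    = rowVal (canon (cut 30 (row3 (show Fin 30 from i).val))) (show Fin 30 from j).val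
  rw [rowVal_canon, rowVal_cut, x2_inr]

lemma B2_LU : toMat 30 30 (fun i => L2.getD i []) * toMat 30 30 (fun i => U2.getD i [])
    = toMat 30 30 (fun i => canon (cut 1 (row2 i))) :=
  mul_of_check (by decide +kernel)

lemma B3_LU : toMat 30 30 (fun i => L3.getD i []) * toMat 30 30 (fun i => U3.getD i [])
    = toMat 30 30 (fun i => canon (cut 30 (row3 i))) :=
  mul_of_check (by decide +kernel)

lemma low2 : lowerCheck (fun i => L2.getD i []) 30 = true := by decide +kernel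
lemma upp2 : upperCheck (fun i => U2.getD i []) 30 = true := by decide +kernel
lemma low3 : lowerCheck (fun i => L3.getD i []) 30 = true := by decide +kernel
lemma upp3 : upperCheck (fun i => U3.getD i []) 30 = true := by decide +kernel

lemma uL2 : ∀ i : Fin 26, unitCheck i.val (L2.getD i.val []) = true := by decide +kernel
lemma uL3 : ∀ i : Fin 29, unitCheck i.val (L3.getD i.val []) = true := by decide +kernel
lemma uU2 : ∀ i : Fin 30, unitCheck i.val (U2.getD i.val []) = true := by decide +kernel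
lemma uU3 : ∀ i : Fin 30, unitCheck i.val (U3.getD i.val []) = true := by decide +kernel

lemma dty_neg {x : MonoidAlgebra ℤ G3} {n : ℕ} (h : DTy x n) : DTy (-x) n := by
  have h1 := DTy.mul (DTy.negUnit 1) h
  rw [zero_add] at h1
  have h2 : MonoidAlgebra.single (1 : G3) (-1 : ℤ) * x = -x := by
    rw [MonoidAlgebra.single_neg, ← MonoidAlgebra.one_def, neg_mul, one_mul]
  rwa [h2] at h1

lemma special26 : DTy (rowVal (L2.getD 26 []) 26) 1 := by
  have h0 : at0 26 (L2.getD 26 []) = [⟨0, 0, 0, 0, -1⟩, ⟨0, 1, -1, -1, 2⟩, ⟨0, 1, 0, 0, -2⟩] := rfl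
  rw [← rowVal_at0, h0]
  have h1 := DTy.mul (DTy.negUnit (⟨0, 0, 1⟩ : G3)) (DTy.adj DTy.A)
  rw [zero_add] at h1
  have h2 : MonoidAlgebra.single (⟨0, 0, 1⟩ : G3) (-1 : ℤ) * MonoidAlgebra.mapDomain (fun g => g⁻¹) AZ
      = rowVal [⟨0, 0, 0, 0, -1⟩, ⟨0, 1, -1, -1, 2⟩, ⟨0, 1, 0, 0, -2⟩] 0 := by
    unfold AZ
    simp only [MonoidAlgebra.mapDomain_add, MonoidAlgebra.mapDomain_single, mul_add,
      MonoidAlgebra.single_mul_single, rowVal, Mono.val, if_true]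
    have e1 : (⟨0, 0, 1⟩ : G3) * (⟨0, 0, 0⟩ : G3)⁻¹ = ⟨0, 0, 1⟩ := rfl
    have e2 : (⟨0, 0, 1⟩ : G3) * (⟨1, 0, 0⟩ : G3)⁻¹ = ⟨-1, -1, 1⟩ := rfl
    have e3 : (⟨0, 0, 1⟩ : G3) * (⟨0, 0, 1⟩ : G3)⁻¹ = ⟨0, 0, 0⟩ := rfl
    rw [e1, e2, e3]
    norm_num
    abel
  rwa [h2] at h1

lemma special27 : DTy (rowVal (L2.getD 27 []) 27) 1 := by
  have h0 : at0 27 (L2.getD 27 []) = [⟨0, 0, -1, 0, 2⟩, ⟨0, 0, 0, 0, -2⟩, ⟨0, 1, -1, -1, 1⟩] := rfl
  rw [← rowVal_at0, h0]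
  have h1 := DTy.mul DTy.A (DTy.unit (⟨-1, 0, 0⟩ : G3))
  rw [add_zero] at h1
  have h2 : AZ * MonoidAlgebra.single (⟨-1, 0, 0⟩ : G3) (1 : ℤ)
      = rowVal [⟨0, 0, -1, 0, 2⟩, ⟨0, 0, 0, 0, -2⟩, ⟨0, 1, -1, -1, 1⟩] 0 := by
    unfold AZ
    simp only [add_mul, MonoidAlgebra.single_mul_single, rowVal, Mono.val, if_true]
    have e1 : (⟨0, 0, 0⟩ : G3) * (⟨-1, 0, 0⟩ : G3) = ⟨-1, 0, 0⟩ := rfl
    have e2 : (⟨1, 0, 0⟩ : G3) * (⟨-1, 0, 0⟩ : G3) = ⟨0, 0, 0⟩ := rfl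
    have e3 : (⟨0, 0, 1⟩ : G3) * (⟨-1, 0, 0⟩ : G3) = ⟨-1, -1, 1⟩ := rfl
    rw [e1, e2, e3]
    norm_num
  rwa [h2] at h1

lemma rowVal_pair (g : G3) (h : g.y ≠ 0) :
    DTy (rowVal [⟨0, g.y, g.x, g.z, 1⟩, ⟨0, 0, 0, 0, -1⟩] 0) 0 := by
  have h1 := DTy.sub g h
  have h2 : MonoidAlgebra.single g (1 : ℤ) - 1 = rowVal [⟨0, g.y, g.x, g.z, 1⟩, ⟨0, 0, 0, 0, -1⟩] 0 := by
    simp only [rowVal, Mono.val, if_true, add_zero]
    rw [MonoidAlgebra.single_neg, sub_eq_add_neg]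
    rfl
  rwa [h2] at h1

lemma rowVal_pair' (g : G3) (h : g.y ≠ 0) :
    DTy (rowVal [⟨0, g.y, g.x, g.z, -1⟩, ⟨0, 0, 0, 0, 1⟩] 0) 0 := by
  have h1 := dty_neg (DTy.sub g h)
  have h2 : -(MonoidAlgebra.single g (1 : ℤ) - 1) = rowVal [⟨0, g.y, g.x, g.z, -1⟩, ⟨0, 0, 0, 0, 1⟩] 0 := by
    simp only [rowVal, Mono.val, if_true, add_zero]
    rw [MonoidAlgebra.single_neg, neg_sub, sub_eq_neg_add]
    rfl
  rwa [h2] at h1

lemma special28 : DTy (rowVal (L2.getD 28 []) 28) 0 := by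
  have h0 : at0 28 (L2.getD 28 []) = [⟨0, -1, 1, 0, -1⟩, ⟨0, 0, 0, 0, 1⟩] := rfl
  rw [← rowVal_at0, h0]
  exact rowVal_pair' ⟨1, 0, -1⟩ (by decide)

lemma special29 : DTy (rowVal (L2.getD 29 []) 29) 0 := by
  have h0 : at0 29 (L2.getD 29 []) = [⟨0, -1, 1, 1, 1⟩, ⟨0, 0, 0, 0, -1⟩] := rfl
  rw [← rowVal_at0, h0]
  exact rowVal_pair ⟨1, 1, -1⟩ (by decide)

lemma special3 : DTy (rowVal (L3.getD 29 []) 29) 0 := by
  have h0 : at0 29 (L3.getD 29 []) = [⟨0, -1, 1, 0, 1⟩, ⟨0, 0, 0, 0, -1⟩] := rfl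
  rw [← rowVal_at0, h0]
  exact rowVal_pair ⟨1, 0, -1⟩ (by decide)

/-- degrees of the diagonal entries -/
def deg2 (i : Fin 30) : ℕ := if i.val = 26 then 1 else if i.val = 27 then 1 else 0

lemma diagL2 (i : Fin 30) : DTy (toMat 30 30 (fun i => L2.getD i []) i i) (deg2 i) := by
  unfold toMat deg2
  obtain ⟨i, hi⟩ := i
  simp only
  by_cases h : i < 26
  · rw [if_neg (by omega), if_neg (by omega)]
    exact dty_of_unitCheck (uL2 ⟨i, h⟩)
  · have h4 : i = 26 ∨ i = 27 ∨ i = 28 ∨ i = 29 := by omega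
    rcases h4 with h | h | h | h
    · subst h; exact special26
    · subst h; exact special27
    · subst h; exact special28
    · subst h; exact special29

lemma diagL3 (i : Fin 30) : DTy (toMat 30 30 (fun i => L3.getD i []) i i) 0 := by
  unfold toMat
  obtain ⟨i, hi⟩ := i
  simp only
  by_cases h : i < 29
  · exact dty_of_unitCheck (uL3 ⟨i, h⟩)
  · have h4 : i = 29 := by omega
    subst h4; exact special3

lemma diagB1 : DTy (toMat 1 1 row1 0 0) 0 := by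
  have h0 : row1 0 = [⟨0, -1, 1, 0, 1⟩, ⟨0, 0, 0, 0, -1⟩] := rfl
  unfold toMat
  change DTy (rowVal (row1 0) 0) 0
  rw [h0]
  exact rowVal_pair ⟨1, 0, -1⟩ (by decide)

/-- The torsion of the covering of the explicit manifold induced by a good homomorphism. -/
theorem torsion_K {Γ : Type} [Group Γ] (g : Good Γ) :
    K.Acyclic (g.π ∘ γ) ∧ K.DetClass (g.π ∘ γ) ∧ K.torsion (g.π ∘ γ) = -2 * g.dA := by
  have h := K.torsion_good g γ isEmptyX x1 x2 bd_bd1 bd_bd2 0 2 0 ?_ ?_ ?_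
  · refine ⟨h.1, h.2.1, ?_⟩
    rw [h.2.2]
    norm_num
  · rw [B1_eq]
    have h1 := g.lu (toMat 1 1 row1) (Equiv.refl _) (Equiv.refl _) (toMat 1 1 row1) 1
      (by rw [mul_one]; rfl)
      (fun i j hij => absurd hij (by rw [Subsingleton.elim i j]; exact lt_irrefl _))
      (fun i j hij => absurd hij (by rw [Subsingleton.elim i j]; exact lt_irrefl _))
      (fun _ => 0) (fun _ => 0)
      (fun i => by rw [Subsingleton.elim i 0]; exact diagB1)
      (fun i => by rw [Matrix.one_apply_eq]; exact DTy.unit 1)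
    exact ⟨h1.1, h1.2.trans (by simp)⟩
  · rw [B2_eq]
    have h1 := g.lu (toMat 30 30 (fun i => canon (cut 1 (row2 i)))) (Equiv.refl _) (Equiv.refl _)
      (toMat 30 30 (fun i => L2.getD i [])) (toMat 30 30 (fun i => U2.getD i []))
      (by rw [B2_LU]; rfl)
      (fun i j hij => lower_of_check low2 i j hij)
      (fun i j hij => upper_of_check upp2 i j hij)
      deg2 (fun _ => 0) diagL2 (fun i => dty_of_unitCheck (uU2 i))
    have h2 : ∑ i : Fin 30, deg2 i + ∑ _ : Fin 30, 0 = 2 := by decide +kernel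
    exact ⟨h1.1, h1.2.trans (by rw [h2])⟩
  · rw [B3_eq]
    have h1 := g.lu (toMat 30 30 (fun i => canon (cut 30 (row3 i)))) (Equiv.refl _) (Equiv.refl _)
      (toMat 30 30 (fun i => L3.getD i [])) (toMat 30 30 (fun i => U3.getD i []))
      (by rw [B3_LU]; rfl)
      (fun i j hij => lower_of_check low3 i j hij)
      (fun i j hij => upper_of_check upp3 i j hij)
      (fun _ => 0) (fun _ => 0) diagL3 (fun i => dty_of_unitCheck (uU3 i))
    exact ⟨h1.1, h1.2.trans (by simp)⟩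

lemma closure_range : Subgroup.closure (Set.range γ) = ⊤ := by
  rw [eq_top_iff]
  intro g _
  have ha : (HG.ea : G3) ∈ Subgroup.closure (Set.range γ) :=
    Subgroup.subset_closure ⟨(show Fin 31 from 2), rfl⟩
  have ht : (HG.et : G3) ∈ Subgroup.closure (Set.range γ) :=
    Subgroup.subset_closure ⟨(show Fin 31 from 13), rfl⟩
  have hc : (HG.ec : G3) ∈ Subgroup.closure (Set.range γ) := by
    have h : (HG.ec : G3) = HG.et * HG.ea * HG.et⁻¹ * HG.ea⁻¹ := rfl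
    rw [h]
    exact Subgroup.mul_mem _ (Subgroup.mul_mem _ (Subgroup.mul_mem _ ht ha)
      (Subgroup.inv_mem _ ht)) (Subgroup.inv_mem _ ha)
  have hx : ∀ n : ℤ, (⟨n, 0, 0⟩ : G3) ∈ Subgroup.closure (Set.range γ) := by
    intro n
    induction n using Int.induction_on with
    | zero => exact Subgroup.one_mem _
    | succ n ih =>
      have h : (⟨(n : ℤ) + 1, 0, 0⟩ : G3) = ⟨(n : ℤ), 0, 0⟩ * HG.ea := by
        ext <;> simp [HG.ea]
      rw [h]
      exact Subgroup.mul_mem _ ih ha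
    | pred n ih =>
      have h : (⟨-(n : ℤ) - 1, 0, 0⟩ : G3) = ⟨-(n : ℤ), 0, 0⟩ * HG.ea⁻¹ := by
        ext <;> simp [HG.ea, sub_eq_add_neg]
      rw [h]
      exact Subgroup.mul_mem _ ih (Subgroup.inv_mem _ ha)
  have hz : ∀ n : ℤ, (⟨0, n, 0⟩ : G3) ∈ Subgroup.closure (Set.range γ) := by
    intro n
    induction n using Int.induction_on with
    | zero => exact Subgroup.one_mem _
    | succ n ih =>
      have h : (⟨0, (n : ℤ) + 1, 0⟩ : G3) = ⟨0, (n : ℤ), 0⟩ * HG.ec := by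
        ext <;> simp [HG.ec]
      rw [h]
      exact Subgroup.mul_mem _ ih hc
    | pred n ih =>
      have h : (⟨0, -(n : ℤ) - 1, 0⟩ : G3) = ⟨0, -(n : ℤ), 0⟩ * HG.ec⁻¹ := by
        ext <;> simp [HG.ec, sub_eq_add_neg]
      rw [h]
      exact Subgroup.mul_mem _ ih (Subgroup.inv_mem _ hc)
  have hy : ∀ n : ℤ, (⟨0, 0, n⟩ : G3) ∈ Subgroup.closure (Set.range γ) := by
    intro n
    induction n using Int.induction_on with
    | zero => exact Subgroup.one_mem _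
    | succ n ih =>
      have h : (⟨0, 0, (n : ℤ) + 1⟩ : G3) = ⟨0, 0, (n : ℤ)⟩ * HG.et := by
        ext <;> simp [HG.et]
      rw [h]
      exact Subgroup.mul_mem _ ih ht
    | pred n ih =>
      have h : (⟨0, 0, -(n : ℤ) - 1⟩ : G3) = ⟨0, 0, -(n : ℤ)⟩ * HG.et⁻¹ := by
        ext <;> simp [HG.et, sub_eq_add_neg]
      rw [h]
      exact Subgroup.mul_mem _ ih (Subgroup.inv_mem _ ht)
  have h : g = ⟨g.x, 0, 0⟩ * ⟨0, g.z, 0⟩ * ⟨0, 0, g.y⟩ := by
    ext <;> simp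
  rw [h]
  exact Subgroup.mul_mem _ (Subgroup.mul_mem _ (hx _) (hz _)) (hy _)

end Pool.Agent.MPfa412c.Model
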