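import Pool.Agent.MPfa412c.LogInt

/-!
# Group algebras: adjoint, trace, matrices, approximations
-/

set_option linter.unusedSectionVars false

open Matrix MeasureTheory Filter Topology MonoidAlgebra
open scoped ComplexOrder ComplexConjugate

namespace Pool.Agent.MPfa412c

section Alg

variable {Γ : Type*} [Group Γ]

/-- adjoint on the complex group algebra -/
noncomputable def gst (x : MonoidAlgebra ℂ Γ) : MonoidAlgebra ℂ Γ :=
  x.coeff.sum fun g c => MonoidAlgebra.single g⁻¹ (conj c)

/-- real part of the canonical trace -/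
noncomputable def gtr (x : MonoidAlgebra ℂ Γ) : ℝ := (x.coeff 1).re

lemma gst_single (g : Γ) (c : ℂ) : gst (MonoidAlgebra.single g c) = MonoidAlgebra.single g⁻¹ (conj c) := by
  unfold gst
  rw [coeff_single, Finsupp.sum_single_index]
  simp

lemma gst_add (x y : MonoidAlgebra ℂ Γ) : gst (x + y) = gst x + gst y := by
  unfold gst
  rw [coeff_add, Finsupp.sum_add_index']
  · intro g; simp
  · intro g c d; simp [MonoidAlgebra.single_add]

lemma gst_zero : gst (0 : MonoidAlgebra ℂ Γ) = 0 := by
  unfold gst; simp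

lemma gst_gst (x : MonoidAlgebra ℂ Γ) : gst (gst x) = x := by
  induction x using MonoidAlgebra.induction_linear with
  | zero => rw [gst_zero, gst_zero]
  | add x y hx hy => rw [gst_add, gst_add, hx, hy]
  | single g c => rw [gst_single, gst_single]; simp

lemma gst_mul (x y : MonoidAlgebra ℂ Γ) : gst (x * y) = gst y * gst x := by
  induction x using MonoidAlgebra.induction_linear with
  | zero => simp [gst_zero]
  | add x x' hx hx' => rw [add_mul, gst_add, hx, hx', gst_add, mul_add]
  | single g c =>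
    induction y using MonoidAlgebra.induction_linear with
    | zero => simp [gst_zero]
    | add y y' hy hy' => rw [mul_add, gst_add, hy, hy', gst_add, add_mul]
    | single h d =>
      rw [MonoidAlgebra.single_mul_single, gst_single, gst_single, gst_single,
        MonoidAlgebra.single_mul_single]
      simp [mul_comm]

lemma gst_one : gst (1 : MonoidAlgebra ℂ Γ) = 1 := by
  rw [MonoidAlgebra.one_def, gst_single]; simp

lemma gtr_add (x y : MonoidAlgebra ℂ Γ) : gtr (x + y) = gtr x + gtr y := by
  unfold gtr; simp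

lemma gtr_sum {ι : Type*} (s : Finset ι) (f : ι → MonoidAlgebra ℂ Γ) :
    gtr (∑ i ∈ s, f i) = ∑ i ∈ s, gtr (f i) := by
  classical
  induction s using Finset.induction_on with
  | empty => simp [gtr]
  | insert i s hi ih => rw [Finset.sum_insert hi, gtr_add, ih, Finset.sum_insert hi]

end Alg

/-- Approximation of (the trace of) a group by finite-dimensional unitary representations. -/
structure GApprox (Γ : Type*) [Group Γ] where
  ι : Type
  l : Filter ι
  neBot : l.NeBot
  D : ι → Type
  fin : ∀ i, Fintype (D i)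
  dec : ∀ i, DecidableEq (D i)
  ne : ∀ i, Nonempty (D i)
  ρ : ∀ i, Γ →* Matrix (D i) (D i) ℂ
  ρ_inv : ∀ i g, ρ i g⁻¹ = (ρ i g)ᴴ
  tr_lim : ∀ g, g ≠ 1 → Tendsto (fun i => (ρ i g).trace / (Nat.card (D i) : ℂ)) l (𝓝 0)

namespace GApprox

variable {Γ : Type*} [Group Γ] (b : GApprox Γ)

instance (i : b.ι) : Fintype (b.D i) := b.fin i
instance (i : b.ι) : DecidableEq (b.D i) := b.dec i
instance (i : b.ι) : Nonempty (b.D i) := b.ne i

/-- extension to the group algebra -/
noncomputable def lift (i : b.ι) : MonoidAlgebra ℂ Γ →ₐ[ℂ] Matrix (b.D i) (b.D i) ℂ :=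
  MonoidAlgebra.lift ℂ _ Γ (b.ρ i)

lemma lift_single (i : b.ι) (g : Γ) (c : ℂ) :
    b.lift i (MonoidAlgebra.single g c) = c • b.ρ i g := by
  unfold lift
  rw [MonoidAlgebra.lift_single]

lemma lift_gst (i : b.ι) (x : MonoidAlgebra ℂ Γ) : b.lift i (gst x) = (b.lift i x)ᴴ := by
  induction x using MonoidAlgebra.induction_linear with
  | zero => simp [gst_zero]
  | add x y hx hy => rw [gst_add, map_add, hx, hy, map_add, Matrix.conjTranspose_add]
  | single g c =>
    rw [gst_single, lift_single, lift_single, b.ρ_inv, Matrix.conjTranspose_smul]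
    simp

lemma lift_trace_lim (x : MonoidAlgebra ℂ Γ) :
    Tendsto (fun i => (b.lift i x).trace / (Nat.card (b.D i) : ℂ)) b.l (𝓝 (x.coeff 1)) := by
  induction x using MonoidAlgebra.induction_linear with
  | zero => simpa using tendsto_const_nhds
  | add x y hx hy =>
    have := hx.add hy
    simp only [coeff_add, Finsupp.coe_add, Pi.add_apply]
    refine this.congr fun i => ?_
    rw [map_add, Matrix.trace_add, add_div]
  | single g c =>
    classical
    by_cases hg : g = 1
    · subst hg
      simp only [coeff_single, Finsupp.single_eq_same]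
      refine tendsto_const_nhds.congr fun i => ?_
      rw [lift_single, map_one, Matrix.trace_smul, Matrix.trace_one]
      have : (Fintype.card (b.D i) : ℂ) ≠ 0 := by
        exact_mod_cast Fintype.card_ne_zero
      simp [this]
    · have := (b.tr_lim g hg).const_mul c
      rw [mul_zero] at this
      have h2 : (MonoidAlgebra.single g c).coeff 1 = 0 := by
        rw [coeff_single, Finsupp.single_apply, if_neg hg]
      rw [h2]
      refine this.congr fun i => ?_
      rw [lift_single, Matrix.trace_smul, smul_eq_mul, mul_div_assoc]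

/-- adjoint of a matrix over the group algebra -/
noncomputable def _root_.Pool.Agent.MPfa412c.mst {n : Type*} (X : Matrix n n (MonoidAlgebra ℂ Γ)) :
    Matrix n n (MonoidAlgebra ℂ Γ) := fun i j => gst (X j i)

/-- trace of a matrix over the group algebra -/
noncomputable def _root_.Pool.Agent.MPfa412c.mtr {n : Type*} [Fintype n]
    (X : Matrix n n (MonoidAlgebra ℂ Γ)) : ℝ := ∑ i, gtr (X i i)

variable (n : Type) [Fintype n] [DecidableEq n]

/-- the representation on matrices -/
noncomputable def mπ (i : b.ι) :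
    Matrix n n (MonoidAlgebra ℂ Γ) →+* Matrix (n × b.D i) (n × b.D i) ℂ :=
  ((Matrix.compRingEquiv n (b.D i) ℂ) : _ →+* _).comp ((b.lift i).toRingHom.mapMatrix)

lemma mπ_apply (i : b.ι) (X : Matrix n n (MonoidAlgebra ℂ Γ)) (p q : n × b.D i) :
    b.mπ n i X p q = b.lift i (X p.1 q.1) p.2 q.2 := rfl

lemma mπ_st (i : b.ι) (X : Matrix n n (MonoidAlgebra ℂ Γ)) :
    b.mπ n i (mst X) = (b.mπ n i X)ᴴ := by
  ext p q
  rw [mπ_apply, Matrix.conjTranspose_apply, mπ_apply]
  unfold mst
  rw [lift_gst, Matrix.conjTranspose_apply]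

lemma mπ_trace (i : b.ι) (X : Matrix n n (MonoidAlgebra ℂ Γ)) :
    (b.mπ n i X).trace = ∑ p, (b.lift i (X p p)).trace := by
  unfold Matrix.trace
  rw [Fintype.sum_prod_type]
  rfl

/-- boundedness predicate -/
def Bd (X : Matrix n n (MonoidAlgebra ℂ Γ)) : Prop :=
  ∃ K : ℝ, 0 < K ∧ ∀ i, ((K : ℂ) • (1 : Matrix (n × b.D i) (n × b.D i) ℂ)
    - b.mπ n i X * (b.mπ n i X)ᴴ).PosSemidef

lemma Bd_add {X Y : Matrix n n (MonoidAlgebra ℂ Γ)} (hX : b.Bd n X) (hY : b.Bd n Y) :
    b.Bd n (X + Y) := by
  obtain ⟨K, hK, h1⟩ := hX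
  obtain ⟨K', hK', h2⟩ := hY
  refine ⟨2 * K + 2 * K', by positivity, fun i => ?_⟩
  set A := b.mπ n i X
  set B := b.mπ n i Y
  have e : (((2 * K + 2 * K' : ℝ)) : ℂ) • (1 : Matrix (n × b.D i) (n × b.D i) ℂ)
      - b.mπ n i (X + Y) * (b.mπ n i (X + Y))ᴴ
      = (2 : ℂ) • ((K : ℂ) • (1 : Matrix (n × b.D i) (n × b.D i) ℂ) - A * Aᴴ)
        + (2 : ℂ) • ((K' : ℂ) • (1 : Matrix (n × b.D i) (n × b.D i) ℂ) - B * Bᴴ)
        + (A - B) * (A - B)ᴴ := by
    rw [map_add]
    change _ - (A + B) * (A + B)ᴴ = _
    rw [Matrix.conjTranspose_add, Matrix.conjTranspose_sub, Matrix.add_mul, Matrix.mul_add,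
      Matrix.mul_add, Matrix.sub_mul, Matrix.mul_sub, Matrix.mul_sub]
    push_cast
    rw [smul_sub, smul_sub, smul_smul, smul_smul, add_smul]
    module
  rw [e]
  have h0 : (0 : ℂ) ≤ 2 := by norm_num
  exact (((h1 i).smul h0).add ((h2 i).smul h0)).add (Matrix.posSemidef_self_mul_conjTranspose _)

lemma Bd_zero : b.Bd n 0 := by
  refine ⟨1, one_pos, fun i => ?_⟩
  rw [map_zero]
  simp only [Matrix.zero_mul, sub_zero]
  exact posSemidef_smul_one zero_le_one

lemma ρ_mul_conj (i : b.ι) (g : Γ) : b.ρ i g * (b.ρ i g)ᴴ = 1 := by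
  rw [← b.ρ_inv, ← map_mul, mul_inv_cancel, map_one]

lemma Bd_single (p q : n) (g : Γ) (c : ℂ) :
    b.Bd n (Matrix.single p q (MonoidAlgebra.single g c)) := by
  refine ⟨‖c‖ ^ 2 + 1, by positivity, fun i => ?_⟩
  have e : (((‖c‖ ^ 2 + 1 : ℝ)) : ℂ) • (1 : Matrix (n × b.D i) (n × b.D i) ℂ)
      - b.mπ n i (Matrix.single p q (MonoidAlgebra.single g c))
        * (b.mπ n i (Matrix.single p q (MonoidAlgebra.single g c)))ᴴ
      = Matrix.diagonal (fun r : n × b.D i => if r.1 = p then (1 : ℂ) else (((‖c‖ ^ 2 + 1 : ℝ)) : ℂ)) := by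
    have e1 : b.mπ n i (Matrix.single p q (MonoidAlgebra.single g c))
        * (b.mπ n i (Matrix.single p q (MonoidAlgebra.single g c)))ᴴ
        = b.mπ n i (Matrix.single p p (MonoidAlgebra.single 1 ((‖c‖ ^ 2 : ℝ) : ℂ))) := by
      rw [← mπ_st, ← map_mul]
      congr 1
      have e2 : mst (Matrix.single p q (MonoidAlgebra.single g c))
          = Matrix.single q p (MonoidAlgebra.single g⁻¹ (conj c)) := by
        ext r s
        unfold mst
        rw [Matrix.single_apply, Matrix.single_apply]
        by_cases h : p = s ∧ q = r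
        · rw [if_pos h, if_pos h.symm, gst_single]
        · rw [if_neg h, if_neg (fun h' => h h'.symm), gst_zero]
      rw [e2, Matrix.single_mul_single_same, MonoidAlgebra.single_mul_single, mul_inv_cancel,
        Complex.mul_conj, Complex.normSq_eq_norm_sq]
    rw [e1]
    ext r s
    rw [Matrix.sub_apply, Matrix.smul_apply, mπ_apply]
    rw [Matrix.single_apply]
    by_cases hrs : r = s
    · subst hrs
      rw [Matrix.one_apply_eq, Matrix.diagonal_apply_eq]
      by_cases hp : r.1 = p
      · rw [if_pos ⟨hp.symm, hp.symm⟩, if_pos hp, lift_single, map_one]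
        simp
      · rw [if_neg (fun h => hp h.1.symm), if_neg hp]
        simp
    · rw [Matrix.one_apply_ne hrs, Matrix.diagonal_apply_ne _ hrs]
      by_cases hp : p = r.1 ∧ p = s.1
      · rw [if_pos hp, lift_single, map_one]
        have : r.2 ≠ s.2 := fun h => hrs (Prod.ext (hp.1.symm.trans hp.2) h)
        simp [Matrix.one_apply_ne this]
      · rw [if_neg hp]
        simp
  rw [e]
  apply Matrix.PosSemidef.diagonal
  intro r
  simp only [Pi.zero_apply]
  split
  · exact zero_le_one
  · have : (0 : ℝ) ≤ ‖c‖ ^ 2 + 1 := by positivity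
    exact_mod_cast this

lemma Bd_all (X : Matrix n n (MonoidAlgebra ℂ Γ)) : b.Bd n X := by
  have h1 : ∀ (p q : n) (x : MonoidAlgebra ℂ Γ), b.Bd n (Matrix.single p q x) := by
    intro p q x
    induction x using MonoidAlgebra.induction_linear with
    | zero => rw [Matrix.single_zero]; exact b.Bd_zero n
    | add x y hx hy => rw [Matrix.single_add]; exact b.Bd_add n hx hy
    | single g c => exact b.Bd_single n p q g c
  rw [Matrix.matrix_eq_sum_single X]
  have h2 : ∀ (s : Finset n) (f : n → Matrix n n (MonoidAlgebra ℂ Γ)), (∀ i ∈ s, b.Bd n (f i)) →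
      b.Bd n (∑ i ∈ s, f i) := by
    intro s f
    induction s using Finset.induction_on with
    | empty => intro _; simpa using b.Bd_zero n
    | insert i s hi ih =>
      intro hf
      rw [Finset.sum_insert hi]
      exact b.Bd_add n (hf i (Finset.mem_insert_self i s))
        (ih fun j hj => hf j (Finset.mem_insert_of_mem hj))
  exact h2 _ _ fun p _ => h2 _ _ fun q _ => h1 p q _

/-- The induced approximation of the ring of matrices over the group algebra. -/
noncomputable def toT : TApprox (Matrix n n (MonoidAlgebra ℂ Γ)) mst mtr where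
  ι := b.ι
  l := b.l
  neBot := b.neBot
  D := fun i => n × b.D i
  fin := fun i => inferInstance
  dec := fun i => inferInstance
  w := fun i => 1 / (Nat.card (b.D i) : ℝ)
  w_pos := fun i => by
    have : 0 < Nat.card (b.D i) := Nat.card_pos
    positivity
  π := b.mπ n
  π_st := b.mπ_st n
  tr_lim := fun X => by
    have h1 : Tendsto (fun i => ∑ p, (b.lift i (X p p)).trace / (Nat.card (b.D i) : ℂ)) b.l
        (𝓝 (∑ p, (X p p).coeff 1)) := tendsto_finsetSum _ fun p _ => b.lift_trace_lim (X p p)
    have h2 := (Complex.continuous_re.tendsto _).comp h1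
    have h3 : (∑ p, (X p p).coeff 1).re = mtr X := by
      unfold mtr gtr; rw [Complex.re_sum]
    rw [h3] at h2
    refine h2.congr fun i => ?_
    simp only [Function.comp]
    rw [mπ_trace, ← Finset.sum_div]
    have : ((Nat.card (b.D i) : ℂ)) = (((Nat.card (b.D i) : ℝ)) : ℂ) := by push_cast; rfl
    rw [this, Complex.div_ofReal_re]
    ring
  bdd := b.Bd_all n

end GApprox

end Pool.Agent.MPfa412c
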