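import Pool.Agent.MPfa412c.GApprox

/-!
# Log-determinants of matrices over a group algebra
-/

set_option linter.unusedSectionVars false

open Matrix MeasureTheory Filter Topology MonoidAlgebra
open scoped ComplexOrder ComplexConjugate

namespace Pool.Agent.MPfa412c

section findim

variable {n m : Type*} [Fintype n] [DecidableEq n] [Fintype m] [DecidableEq m]

lemma ld_submatrix (A : Matrix n n ℂ) (e f : m ≃ n) (ε : ℝ) : ld (A.submatrix e f) ε = ld A ε := by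
  unfold ld
  rw [Matrix.conjTranspose_submatrix, Matrix.submatrix_mul_equiv]
  have : ((A * Aᴴ).submatrix e e + (ε : ℂ) • (1 : Matrix m m ℂ))
      = (A * Aᴴ + (ε : ℂ) • (1 : Matrix n n ℂ)).submatrix e e := by
    rw [Matrix.submatrix_add, Matrix.submatrix_smul]
    simp
  rw [this, Matrix.det_submatrix_equiv_self]

lemma ld_fromBlocks (P : Matrix n n ℂ) (Q : Matrix m m ℂ) {ε : ℝ} (hε : 0 < ε) :
    ld (Matrix.fromBlocks P 0 0 Q) ε = ld P ε + ld Q ε := by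
  unfold ld
  rw [← Real.log_mul (det_re_pos (posDef_reg P hε)).ne' (det_re_pos (posDef_reg Q hε)).ne']
  congr 1
  rw [Matrix.fromBlocks_conjTranspose, Matrix.fromBlocks_multiply]
  simp only [Matrix.mul_zero, add_zero, Matrix.zero_mul, zero_add, Matrix.conjTranspose_zero]
  rw [← Matrix.fromBlocks_one, Matrix.fromBlocks_smul, Matrix.fromBlocks_add]
  simp only [smul_zero, add_zero]
  rw [Matrix.det_fromBlocks_zero₂₁]
  have h1 := det_ofReal_of_posDef (posDef_reg P hε)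
  rw [← h1, Complex.re_ofReal_mul]
  simp

end findim

namespace GApprox

variable {Γ : Type*} [Group Γ] (b : GApprox Γ)
variable {n m : Type} [Fintype n] [DecidableEq n] [Fintype m] [DecidableEq m]

/-- finiteness of the log determinant -/
def F (X : Matrix n n (MonoidAlgebra ℂ Γ)) : Prop := (b.toT n).Fin X

/-- the log determinant -/
noncomputable def dt (X : Matrix n n (MonoidAlgebra ℂ Γ)) : ℝ := (b.toT n).ldet X

lemma L_congr {X : Matrix n n (MonoidAlgebra ℂ Γ)} {Y : Matrix m m (MonoidAlgebra ℂ Γ)} {ε : ℝ}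
    (hε : 0 < ε) (h : ∀ i : b.ι, ld (b.mπ n i X) ε = ld (b.mπ m i Y) ε) :
    (b.toT n).L X ε = (b.toT m).L Y ε := by
  refine tendsto_nhds_unique ((b.toT n).Li_lim X hε) (((b.toT m).Li_lim Y hε).congr fun i => ?_)
  change 1 / 2 * (1 / (Nat.card (b.D i) : ℝ) * ld (b.mπ m i Y) ε)
    = 1 / 2 * (1 / (Nat.card (b.D i) : ℝ) * ld (b.mπ n i X) ε)
  rw [h i]

lemma L_submatrix (X : Matrix n n (MonoidAlgebra ℂ Γ)) (e f : m ≃ n) {ε : ℝ} (hε : 0 < ε) :
    (b.toT m).L (X.submatrix e f) ε = (b.toT n).L X ε := by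
  apply b.L_congr hε
  intro i
  rw [← ld_submatrix (b.mπ n i X) (e.prodCongr (Equiv.refl (b.D i))) (f.prodCongr (Equiv.refl (b.D i)))]
  rfl

lemma L_fromBlocks (X : Matrix n n (MonoidAlgebra ℂ Γ)) (Y : Matrix m m (MonoidAlgebra ℂ Γ))
    {ε : ℝ} (hε : 0 < ε) :
    (b.toT (n ⊕ m)).L (Matrix.fromBlocks X 0 0 Y) ε = (b.toT n).L X ε + (b.toT m).L Y ε := by
  refine tendsto_nhds_unique ((b.toT (n ⊕ m)).Li_lim _ hε)
    ((((b.toT n).Li_lim X hε).add ((b.toT m).Li_lim Y hε)).congr fun i => ?_)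
  change 1 / 2 * (1 / (Nat.card (b.D i) : ℝ) * ld (b.mπ n i X) ε)
    + 1 / 2 * (1 / (Nat.card (b.D i) : ℝ) * ld (b.mπ m i Y) ε)
    = 1 / 2 * (1 / (Nat.card (b.D i) : ℝ) * ld (b.mπ (n ⊕ m) i (Matrix.fromBlocks X 0 0 Y)) ε)
  have h : ld (b.mπ (n ⊕ m) i (Matrix.fromBlocks X 0 0 Y)) ε
      = ld (Matrix.fromBlocks (b.mπ n i X) 0 0 (b.mπ m i Y)) ε := by
    rw [← ld_submatrix (b.mπ (n ⊕ m) i (Matrix.fromBlocks X 0 0 Y))
      (Equiv.sumProdDistrib n m (b.D i)).symm (Equiv.sumProdDistrib n m (b.D i)).symm]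
    congr 1
    ext p q
    rcases p with ⟨p, k⟩ | ⟨p, k⟩ <;> rcases q with ⟨q, l⟩ | ⟨q, l⟩ <;>
      simp [mπ_apply, Equiv.sumProdDistrib]
  rw [h, ld_fromBlocks _ _ hε]
  ring

theorem F_submatrix {X : Matrix n n (MonoidAlgebra ℂ Γ)} (e f : m ≃ n) (h : b.F X) :
    b.F (X.submatrix e f) ∧ b.dt (X.submatrix e f) = b.dt X := by
  constructor
  · obtain ⟨B, hB⟩ := h
    exact ⟨B, fun ε hε => by rw [b.L_submatrix X e f hε]; exact hB ε hε⟩
  · unfold dt TApprox.ldet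
    exact iInf_congr fun ε => b.L_submatrix X e f ε.2

theorem F_fromBlocks {X : Matrix n n (MonoidAlgebra ℂ Γ)} {Y : Matrix m m (MonoidAlgebra ℂ Γ)}
    (hX : b.F X) (hY : b.F Y) : b.F (Matrix.fromBlocks X 0 0 Y) ∧
      b.dt (Matrix.fromBlocks X 0 0 Y) = b.dt X + b.dt Y := by
  have hF : b.F (Matrix.fromBlocks X 0 0 Y) := by
    obtain ⟨B, hB⟩ := hX
    obtain ⟨B', hB'⟩ := hY
    exact ⟨B + B', fun ε hε => by
      rw [b.L_fromBlocks X Y hε]; linarith [hB ε hε, hB' ε hε]⟩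
  refine ⟨hF, ?_⟩
  refine tendsto_nhds_unique hF.tendsto ((hX.tendsto.add hY.tendsto).congr' ?_)
  filter_upwards [self_mem_nhdsWithin] with ε hε
  exact (b.L_fromBlocks X Y hε).symm

theorem F_of_fromBlocks {X : Matrix n n (MonoidAlgebra ℂ Γ)} {Y : Matrix m m (MonoidAlgebra ℂ Γ)}
    (h : b.F (Matrix.fromBlocks X 0 0 Y)) : b.F X ∧ b.F Y := by
  obtain ⟨B, hB⟩ := h
  have key : ∀ ε : ℝ, 0 < ε → B ≤ (b.toT n).L X ε + (b.toT m).L Y ε := fun ε hε => by
    rw [← b.L_fromBlocks X Y hε]; exact hB ε hε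
  constructor
  · refine ⟨B - (b.toT m).L Y 1, fun ε hε => ?_⟩
    rcases le_total ε 1 with h1 | h1
    · have := (b.toT m).L_mono Y hε h1
      linarith [key ε hε]
    · have := (b.toT n).L_mono X one_pos h1
      linarith [key 1 one_pos]
  · refine ⟨B - (b.toT n).L X 1, fun ε hε => ?_⟩
    rcases le_total ε 1 with h1 | h1
    · have := (b.toT n).L_mono X hε h1
      linarith [key ε hε]
    · have := (b.toT m).L_mono Y one_pos h1
      linarith [key 1 one_pos]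

theorem F_mul {X Y : Matrix n n (MonoidAlgebra ℂ Γ)} (hX : b.F X) (hY : b.F Y) :
    b.F (X * Y) ∧ b.dt (X * Y) = b.dt X + b.dt Y := TApprox.Fin.mul hX hY

theorem F_of_mul {X Y : Matrix n n (MonoidAlgebra ℂ Γ)} (h : b.F (X * Y)) : b.F X ∧ b.F Y :=
  TApprox.Fin.of_mul h

theorem F_mst {X : Matrix n n (MonoidAlgebra ℂ Γ)} (h : b.F X) :
    b.F (mst X) ∧ b.dt (mst X) = b.dt X := TApprox.Fin.adj h

lemma gtr_one : gtr (1 : MonoidAlgebra ℂ Γ) = 1 := by
  unfold gtr; rw [MonoidAlgebra.one_def, coeff_single]; simp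

lemma mtr_one : mtr (1 : Matrix n n (MonoidAlgebra ℂ Γ)) = Fintype.card n := by
  unfold mtr
  simp [gtr_one]

lemma mst_one : mst (1 : Matrix n n (MonoidAlgebra ℂ Γ)) = 1 := by
  ext i j
  unfold mst
  by_cases h : i = j
  · subst h; rw [Matrix.one_apply_eq, gst_one]
  · rw [Matrix.one_apply_ne h, Matrix.one_apply_ne (Ne.symm h), gst_zero]

theorem F_unitary {X : Matrix n n (MonoidAlgebra ℂ Γ)} (h : X * mst X = 1) :
    b.F X ∧ b.dt X = 0 := by
  apply (b.toT n).fin_of_unitary h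
  rw [mtr_one]
  positivity

theorem F_one : b.F (1 : Matrix n n (MonoidAlgebra ℂ Γ)) ∧ b.dt (1 : Matrix n n (MonoidAlgebra ℂ Γ)) = 0 :=
  b.F_unitary (by rw [mst_one, mul_one])

/-- adjoint of a rectangular matrix -/
noncomputable def _root_.Pool.Agent.MPfa412c.rst {p q : Type*} (X : Matrix p q (MonoidAlgebra ℂ Γ)) :
    Matrix q p (MonoidAlgebra ℂ Γ) := fun i j => gst (X j i)

lemma mst_fromBlocks (A : Matrix n n (MonoidAlgebra ℂ Γ)) (B : Matrix n m (MonoidAlgebra ℂ Γ))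
    (C : Matrix m n (MonoidAlgebra ℂ Γ)) (D : Matrix m m (MonoidAlgebra ℂ Γ)) :
    mst (Matrix.fromBlocks A B C D) = Matrix.fromBlocks (mst A) (rst C) (rst B) (mst D) := by
  ext i j
  rcases i with i | i <;> rcases j with j | j <;> rfl

lemma unip_aux (U V : Matrix n n (MonoidAlgebra ℂ Γ)) (h : U * V = 1)
    (E : Matrix n n (MonoidAlgebra ℂ Γ)) (hE : E * mst E = 1)
    (hV : V = E * U * E) : b.F U ∧ b.dt U = 0 := by
  have h1 : b.F (U * V) := by rw [h]; exact b.F_one.1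
  obtain ⟨hU, hVf⟩ := b.F_of_mul h1
  obtain ⟨hEf, hE0⟩ := b.F_unitary hE
  have h2 := (b.F_mul hU hVf).2
  rw [h, b.F_one.2] at h2
  have h3 : b.dt V = b.dt U := by
    have h4 := b.F_mul hEf hU
    have h5 := b.F_mul h4.1 hEf
    rw [hV, h5.2, h4.2, hE0]
    ring
  exact ⟨hU, by linarith⟩

lemma signE_unitary : (Matrix.fromBlocks 1 0 0 (-1) : Matrix (n ⊕ m) (n ⊕ m) (MonoidAlgebra ℂ Γ))
    * mst (Matrix.fromBlocks 1 0 0 (-1)) = 1 := by
  rw [mst_fromBlocks, mst_one]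
  have h1 : mst (-1 : Matrix m m (MonoidAlgebra ℂ Γ)) = -1 := by
    ext i j
    unfold mst
    by_cases h : i = j
    · subst h
      rw [Matrix.neg_apply, Matrix.one_apply_eq]
      have : gst (-1 : MonoidAlgebra ℂ Γ) = -1 := by
        have h2 : gst ((-1 : MonoidAlgebra ℂ Γ) + 1) = gst (-1) + gst 1 := gst_add _ _
        rw [neg_add_cancel, gst_zero, gst_one] at h2
        exact eq_neg_of_add_eq_zero_left h2.symm
      rw [this]
    · rw [Matrix.neg_apply, Matrix.neg_apply, Matrix.one_apply_ne h, Matrix.one_apply_ne (Ne.symm h),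
        neg_zero, gst_zero]
  have h0 : ∀ (p q : Type) , rst (0 : Matrix p q (MonoidAlgebra ℂ Γ)) = 0 := by
    intro p q
    ext i j
    unfold rst
    simp [gst_zero]
  rw [h1, h0, h0, Matrix.fromBlocks_multiply]
  simp

lemma signE_sq : (Matrix.fromBlocks 1 0 0 (-1) : Matrix (n ⊕ m) (n ⊕ m) (MonoidAlgebra ℂ Γ))
    * (Matrix.fromBlocks 1 0 0 (-1)) = 1 := by
  rw [Matrix.fromBlocks_multiply]; simp

theorem F_upper (B : Matrix n m (MonoidAlgebra ℂ Γ)) :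
    b.F (Matrix.fromBlocks 1 B 0 1) ∧ b.dt (Matrix.fromBlocks 1 B 0 1) = 0 := by
  apply b.unip_aux _ (Matrix.fromBlocks 1 (-B) 0 1) _ _ signE_unitary
  · rw [Matrix.fromBlocks_multiply, Matrix.fromBlocks_multiply]; simp
  · rw [Matrix.fromBlocks_multiply]; simp

theorem F_lower (C : Matrix m n (MonoidAlgebra ℂ Γ)) :
    b.F (Matrix.fromBlocks 1 0 C 1) ∧ b.dt (Matrix.fromBlocks 1 0 C 1) = 0 := by
  apply b.unip_aux _ (Matrix.fromBlocks 1 0 (-C) 1) _ _ signE_unitary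
  · rw [Matrix.fromBlocks_multiply, Matrix.fromBlocks_multiply]; simp
  · rw [Matrix.fromBlocks_multiply]; simp

theorem F_blockUpper {X : Matrix n n (MonoidAlgebra ℂ Γ)} {Y : Matrix m m (MonoidAlgebra ℂ Γ)}
    (B : Matrix n m (MonoidAlgebra ℂ Γ)) (hX : b.F X) (hY : b.F Y) :
    b.F (Matrix.fromBlocks X B 0 Y) ∧ b.dt (Matrix.fromBlocks X B 0 Y) = b.dt X + b.dt Y := by
  have e : Matrix.fromBlocks X B 0 Y = (Matrix.fromBlocks 1 0 0 Y) * (Matrix.fromBlocks 1 B 0 1)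
      * (Matrix.fromBlocks X 0 0 1) := by
    rw [Matrix.fromBlocks_multiply, Matrix.fromBlocks_multiply]; simp
  have h1 := b.F_fromBlocks b.F_one.1 hY (X := (1 : Matrix n n _))
  have h2 := b.F_upper B
  have h3 := b.F_fromBlocks hX b.F_one.1 (Y := (1 : Matrix m m _))
  have h4 := b.F_mul h1.1 h2.1
  have h5 := b.F_mul h4.1 h3.1
  rw [e]
  refine ⟨h5.1, ?_⟩
  rw [h5.2, h4.2, h1.2, h2.2, h3.2, b.F_one.2, b.F_one.2]
  ring

theorem F_blockLower {X : Matrix n n (MonoidAlgebra ℂ Γ)} {Y : Matrix m m (MonoidAlgebra ℂ Γ)}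
    (C : Matrix m n (MonoidAlgebra ℂ Γ)) (hX : b.F X) (hY : b.F Y) :
    b.F (Matrix.fromBlocks X 0 C Y) ∧ b.dt (Matrix.fromBlocks X 0 C Y) = b.dt X + b.dt Y := by
  have e : Matrix.fromBlocks X 0 C Y = (Matrix.fromBlocks X 0 0 1) * (Matrix.fromBlocks 1 0 C 1)
      * (Matrix.fromBlocks 1 0 0 Y) := by
    rw [Matrix.fromBlocks_multiply, Matrix.fromBlocks_multiply]; simp
  have h1 := b.F_fromBlocks b.F_one.1 hY (X := (1 : Matrix n n _))
  have h2 := b.F_lower C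
  have h3 := b.F_fromBlocks hX b.F_one.1 (Y := (1 : Matrix m m _))
  have h4 := b.F_mul h3.1 h2.1
  have h5 := b.F_mul h4.1 h1.1
  rw [e]
  refine ⟨h5.1, ?_⟩
  rw [h5.2, h4.2, h1.2, h2.2, h3.2, b.F_one.2, b.F_one.2]
  ring

end GApprox

end Pool.Agent.MPfa412c
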