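import Pool.Agent.MPfa412c.SpecEx

/-!
# Regularised log-determinants in a traced ring with finite-dimensional approximations
-/

set_option linter.unusedSectionVars false

open Matrix MeasureTheory Filter Topology
open scoped ComplexOrder BoundedContinuousFunction

namespace Pool.Agent.MPfa412c

namespace TApprox

variable {S : Type*} [Ring S] {st : S → S} {τ : S → ℝ} (a : TApprox S st τ)

/-- the spectral measure of `x * st x` -/
noncomputable def mu (x : S) : Measure ℝ := (a.exists_isSpec x).choose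

lemma mu_spec (x : S) : IsSpec τ (x * st x) (a.mu x) := (a.exists_isSpec x).choose_spec

/-- regularised log determinant -/
noncomputable def L (x : S) (ε : ℝ) : ℝ := 1 / 2 * ∫ t, Real.log (t + ε) ∂(a.mu x)

lemma contOn_log {ε : ℝ} (hε : 0 < ε) : ContinuousOn (fun t : ℝ => Real.log (t + ε)) (Set.Ici 0) := by
  apply ContinuousOn.log (by fun_prop)
  intro t ht
  have : (0 : ℝ) ≤ t := ht
  positivity

lemma Li_lim (x : S) {ε : ℝ} (hε : 0 < ε) : Tendsto (a.Li x ε) a.l (𝓝 (a.L x ε)) := by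
  have := (a.sp_lim (a.pos_mul_st x) (a.mu_spec x) (contOn_log hε)).const_mul (1 / 2)
  refine this.congr fun i => ?_
  rw [a.Li_eq x hε]

lemma L_eq_of_isSpec {x : S} {μ : Measure ℝ} (hμ : IsSpec τ (x * st x) μ) {ε : ℝ} (hε : 0 < ε) :
    a.L x ε = 1 / 2 * ∫ t, Real.log (t + ε) ∂μ := by
  have h1 := (a.sp_lim (a.pos_mul_st x) hμ (contOn_log hε)).const_mul (1 / 2)
  refine tendsto_nhds_unique (a.Li_lim x hε) (h1.congr fun i => ?_)
  rw [a.Li_eq x hε]

/-- independence of the approximation -/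
lemma L_eq (b : TApprox S st τ) (x : S) {ε : ℝ} (hε : 0 < ε) : a.L x ε = b.L x ε :=
  a.L_eq_of_isSpec (b.mu_spec x) hε

lemma Li_mono (x : S) {ε ε' : ℝ} (hε : 0 < ε) (h : ε ≤ ε') (i : a.ι) : a.Li x ε i ≤ a.Li x ε' i := by
  rw [a.Li_eq x hε, a.Li_eq x (hε.trans_le h)]
  unfold sp
  have hw := a.w_pos i
  apply mul_le_mul_of_nonneg_left _ (by norm_num)
  apply mul_le_mul_of_nonneg_left _ hw.le
  apply Finset.sum_le_sum
  intro k _
  have := ev_nonneg (a.pos_mul_st x i) k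
  apply Real.log_le_log (by positivity)
  linarith

lemma L_mono (x : S) {ε ε' : ℝ} (hε : 0 < ε) (h : ε ≤ ε') : a.L x ε ≤ a.L x ε' :=
  le_of_tendsto_of_tendsto' (a.Li_lim x hε) (a.Li_lim x (hε.trans_le h)) (a.Li_mono x hε h)

lemma L_mul_le (x y : S) {ε ε₂ : ℝ} (hε : 0 < ε) (hε₂ : 0 < ε₂) :
    a.L (x * y) ε ≤ a.L x (ε / ε₂) + a.L y ε₂ := by
  refine le_of_tendsto_of_tendsto' (a.Li_lim (x * y) hε)
    ((a.Li_lim x (div_pos hε hε₂)).add (a.Li_lim y hε₂)) fun i => ?_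
  unfold Li
  rw [map_mul]
  have := ld_mul_le (a.π i x) (a.π i y) hε hε₂
  have hw := a.w_pos i
  nlinarith

lemma le_L_mul (x y : S) : ∃ K K' : ℝ, 0 < K ∧ 0 < K' ∧ ∀ ε δ : ℝ, 0 < ε → ε ≤ 1 → 0 < δ →
    a.L x (δ / K') + a.L y (ε / K) ≤ a.L (x * y) (ε + δ) := by
  obtain ⟨K, hK, hKx⟩ := a.bdd x
  obtain ⟨K₁, hK₁, hKy⟩ := a.bdd y
  refine ⟨K, K₁ + 1 / K, hK, by positivity, fun ε δ hε hε1 hδ => ?_⟩
  refine le_of_tendsto_of_tendsto' ((a.Li_lim x (div_pos hδ (by positivity))).add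
    (a.Li_lim y (div_pos hε hK))) (a.Li_lim (x * y) (by positivity)) fun i => ?_
  unfold Li
  rw [map_mul]
  have h1 : ((((K₁ + 1 / K : ℝ)) : ℂ) • (1 : Matrix (a.D i) (a.D i) ℂ)
      - (a.π i y * (a.π i y)ᴴ + (((ε / K : ℝ)) : ℂ) • (1 : Matrix (a.D i) (a.D i) ℂ))).PosSemidef := by
    have e1 : ((((K₁ + 1 / K : ℝ)) : ℂ) • (1 : Matrix (a.D i) (a.D i) ℂ)
      - (a.π i y * (a.π i y)ᴴ + (((ε / K : ℝ)) : ℂ) • (1 : Matrix (a.D i) (a.D i) ℂ)))
      = ((K₁ : ℂ) • (1 : Matrix (a.D i) (a.D i) ℂ) - a.π i y * (a.π i y)ᴴ)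
        + ((((1 - ε) / K : ℝ)) : ℂ) • (1 : Matrix (a.D i) (a.D i) ℂ) := by
      push_cast
      rw [sub_div, sub_smul, add_smul]
      abel
    rw [e1]
    apply (hKy i).add
    apply posSemidef_smul_one
    apply div_nonneg _ hK.le
    linarith
  have := le_ld_mul (a.π i x) (a.π i y) hε hδ hK (by positivity) (hKx i) h1
  have hw := a.w_pos i
  nlinarith

lemma L_st (x : S) {ε : ℝ} (hε : 0 < ε) : a.L (st x) ε = a.L x ε := by
  refine tendsto_nhds_unique (a.Li_lim (st x) hε) ((a.Li_lim x hε).congr fun i => ?_)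
  unfold Li
  rw [a.π_st, ld_conjTranspose _ hε]

/-- finiteness of the log determinant -/
def Fin (x : S) : Prop := ∃ B : ℝ, ∀ ε : ℝ, 0 < ε → B ≤ a.L x ε

/-- the log determinant -/
noncomputable def ldet (x : S) : ℝ := ⨅ ε : Set.Ioi (0 : ℝ), a.L x ε

lemma Fin.bddBelow {a : TApprox S st τ} {x : S} (h : a.Fin x) :
    BddBelow (Set.range fun ε : Set.Ioi (0 : ℝ) => a.L x ε) := by
  obtain ⟨B, hB⟩ := h
  refine ⟨B, ?_⟩
  rintro _ ⟨ε, rfl⟩
  exact hB ε ε.2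

lemma Fin.ldet_le {a : TApprox S st τ} {x : S} (h : a.Fin x) {ε : ℝ} (hε : 0 < ε) :
    a.ldet x ≤ a.L x ε := ciInf_le h.bddBelow ⟨ε, hε⟩

lemma le_ldet {x : S} {B : ℝ} (h : ∀ ε : ℝ, 0 < ε → B ≤ a.L x ε) : B ≤ a.ldet x :=
  le_ciInf fun ε => h ε ε.2

lemma Fin.exists_lt {a : TApprox S st τ} {x : S} {c : ℝ} (hc : a.ldet x < c) :
    ∃ ε : ℝ, 0 < ε ∧ a.L x ε < c := by
  obtain ⟨ε, hε⟩ := exists_lt_of_ciInf_lt hc
  exact ⟨ε, ε.2, hε⟩

lemma Fin.tendsto {a : TApprox S st τ} {x : S} (h : a.Fin x) :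
    Tendsto (fun ε => a.L x ε) (𝓝[>] (0 : ℝ)) (𝓝 (a.ldet x)) := by
  rw [tendsto_order]
  constructor
  · intro c hc
    filter_upwards [self_mem_nhdsWithin] with ε hε
    exact hc.trans_le (h.ldet_le hε)
  · intro c hc
    obtain ⟨ε₀, hε₀, hlt⟩ := Fin.exists_lt hc
    filter_upwards [Ioo_mem_nhdsGT hε₀] with ε hε
    exact (a.L_mono x hε.1 hε.2.le).trans_lt hlt

theorem Fin.mul {a : TApprox S st τ} {x y : S} (hx : a.Fin x) (hy : a.Fin y) :
    a.Fin (x * y) ∧ a.ldet (x * y) = a.ldet x + a.ldet y := by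
  obtain ⟨K, K', hK, hK', h⟩ := a.le_L_mul x y
  have hlow : ∀ ε : ℝ, 0 < ε → a.ldet x + a.ldet y ≤ a.L (x * y) ε := by
    intro ε hε
    set ε' := min (ε / 2) 1 with hε'
    have h1 : 0 < ε' := by positivity
    have h2 := h ε' (ε / 2) h1 (min_le_right _ _) (by positivity)
    have h3 : a.L (x * y) (ε' + ε / 2) ≤ a.L (x * y) ε := by
      apply a.L_mono _ (by positivity)
      have := min_le_left (ε / 2) 1
      linarith
    have h4 := hx.ldet_le (div_pos (half_pos hε) hK')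
    have h5 := hy.ldet_le (div_pos h1 hK)
    linarith
  have hF : a.Fin (x * y) := ⟨_, hlow⟩
  refine ⟨hF, le_antisymm ?_ (a.le_ldet hlow)⟩
  apply le_of_forall_pos_le_add
  intro e he
  obtain ⟨ε₁, hε₁, h1⟩ := Fin.exists_lt (a := a) (x := x) (c := a.ldet x + e / 2) (by linarith)
  obtain ⟨ε₂, hε₂, h2⟩ := Fin.exists_lt (a := a) (x := y) (c := a.ldet y + e / 2) (by linarith)
  have h3 := a.L_mul_le x y (mul_pos hε₁ hε₂) hε₂
  rw [mul_div_assoc, div_self hε₂.ne', mul_one] at h3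
  have h4 := hF.ldet_le (mul_pos hε₁ hε₂)
  linarith

theorem Fin.of_mul {a : TApprox S st τ} {x y : S} (h : a.Fin (x * y)) : a.Fin x ∧ a.Fin y := by
  obtain ⟨B, hB⟩ := h
  constructor
  · refine ⟨B - a.L y 1, fun ε hε => ?_⟩
    have h1 := a.L_mul_le x y hε one_pos
    rw [div_one] at h1
    have := hB ε hε
    linarith
  · refine ⟨B - a.L x 1, fun ε hε => ?_⟩
    have h1 := a.L_mul_le x y hε hε
    rw [div_self hε.ne'] at h1
    have := hB ε hε
    linarith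

theorem Fin.adj {a : TApprox S st τ} {x : S} (h : a.Fin x) :
    a.Fin (st x) ∧ a.ldet (st x) = a.ldet x := by
  constructor
  · obtain ⟨B, hB⟩ := h
    exact ⟨B, fun ε hε => by rw [a.L_st x hε]; exact hB ε hε⟩
  · unfold ldet
    exact iInf_congr fun ε => a.L_st x ε.2

/-- Independence of the approximation. -/
theorem Fin.indep {a : TApprox S st τ} (b : TApprox S st τ) {x : S} (h : a.Fin x) :
    b.Fin x ∧ b.ldet x = a.ldet x := by
  constructor
  · obtain ⟨B, hB⟩ := h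
    exact ⟨B, fun ε hε => by rw [← a.L_eq b x hε]; exact hB ε hε⟩
  · unfold ldet
    exact iInf_congr fun ε => (a.L_eq b x ε.2).symm

/-- Invariance under trace preserving maps. -/
lemma L_map {x y : S} (h : ∀ m : ℕ, τ ((x * st x) ^ m) = τ ((y * st y) ^ m)) {ε : ℝ} (hε : 0 < ε) :
    a.L x ε = a.L y ε := by
  apply a.L_eq_of_isSpec _ hε
  obtain ⟨h1, h2, h3⟩ := a.mu_spec y
  exact ⟨h1, h2, fun m => by rw [h3, h]⟩

theorem Fin.map {a : TApprox S st τ} {x y : S} (h : ∀ m : ℕ, τ ((x * st x) ^ m) = τ ((y * st y) ^ m))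
    (hx : a.Fin x) : a.Fin y ∧ a.ldet y = a.ldet x := by
  constructor
  · obtain ⟨B, hB⟩ := hx
    exact ⟨B, fun ε hε => by rw [← a.L_map h hε]; exact hB ε hε⟩
  · unfold ldet
    exact iInf_congr fun ε => (a.L_map h ε.2).symm

lemma mu_one_ae {x : S} (hx : x * st x = 1) {ε : ℝ} (hε : 0 < ε) :
    a.L x ε = 1 / 2 * (τ 1 * Real.log (1 + ε)) := by
  refine tendsto_nhds_unique (a.Li_lim x hε) ?_
  have h1 := ((a.tr_lim 1).mul_const (Real.log (1 + ε))).const_mul (1 / 2)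
  refine h1.congr fun i => ?_
  unfold Li ld
  have : a.π i x * (a.π i x)ᴴ = 1 := by rw [← a.π_st, ← map_mul, hx, map_one]
  rw [this, map_one, Matrix.trace_one]
  have h2 : (1 : Matrix (a.D i) (a.D i) ℂ) + (ε : ℂ) • (1 : Matrix (a.D i) (a.D i) ℂ)
      = ((1 + ε : ℝ) : ℂ) • (1 : Matrix (a.D i) (a.D i) ℂ) := by
    push_cast; rw [add_smul, one_smul]
  rw [h2, Matrix.det_smul, Matrix.det_one, mul_one]
  have h3 : ((((1 + ε : ℝ) : ℂ)) ^ Fintype.card (a.D i)).re = (1 + ε) ^ Fintype.card (a.D i) := by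
    rw [← Complex.ofReal_pow, Complex.ofReal_re]
  rw [h3, Real.log_pow]
  simp
  ring

/-- Unitary elements have trivial log determinant. -/
theorem fin_of_unitary {x : S} (hx : x * st x = 1) (hτ : 0 ≤ τ 1) : a.Fin x ∧ a.ldet x = 0 := by
  have hF : a.Fin x := by
    refine ⟨0, fun ε hε => ?_⟩
    rw [a.mu_one_ae hx hε]
    have : 0 ≤ Real.log (1 + ε) := Real.log_nonneg (by linarith)
    positivity
  refine ⟨hF, ?_⟩
  have h1 := hF.tendsto
  have h2 : Tendsto (fun ε : ℝ => 1 / 2 * (τ 1 * Real.log (1 + ε))) (𝓝[>] (0 : ℝ)) (𝓝 0) := by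
    have : Tendsto (fun ε : ℝ => 1 / 2 * (τ 1 * Real.log (1 + ε))) (𝓝 (0 : ℝ))
        (𝓝 (1 / 2 * (τ 1 * Real.log (1 + 0)))) := by
      apply Tendsto.const_mul
      apply Tendsto.const_mul
      apply Tendsto.log _ (by norm_num)
      exact tendsto_const_nhds.add tendsto_id
    simp only [add_zero, Real.log_one, mul_zero] at this
    exact this.mono_left nhdsWithin_le_nhds
  refine tendsto_nhds_unique (h1.congr' ?_) h2
  filter_upwards [self_mem_nhdsWithin] with ε hε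
  exact a.mu_one_ae hx hε

/-- Lower bound from genuine determinants. -/
theorem le_L_of_frequently {x : S} {B ε : ℝ} (hε : 0 < ε)
    (h : ∃ᶠ i in a.l, (a.π i x).det ≠ 0 ∧ B ≤ a.w i * Real.log ‖(a.π i x).det‖) :
    B ≤ a.L x ε := by
  by_contra hc
  push Not at hc
  have h1 := (tendsto_order.1 (a.Li_lim x hε)).2 B hc
  obtain ⟨i, ⟨hi1, hi2⟩, hi3⟩ := (h.and_eventually h1).exists
  have h2 := log_det_le_ld (a.π i x) hε hi1
  have hw := a.w_pos i
  unfold Li at hi3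
  nlinarith

end TApprox

end Pool.Agent.MPfa412c
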