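import Pool.Agent.MPfa412c.LogInt

/-!
# Spectral measures of positive elements and their log-determinants
-/

set_option linter.unusedSectionVars false

open Matrix MeasureTheory Filter Topology
open scoped ComplexOrder

namespace Pool.Agent.MPfa412c

namespace TApprox

variable {S : Type*} [Ring S] {st : S → S} {τ : S → ℝ} (a : TApprox S st τ)

lemma isSpec_sq {H : S} (hH : st H = H) {μ : Measure ℝ} (hμ : IsSpec τ H μ) :
    IsSpec τ (H * st H) (μ.map (fun t => t ^ 2)) := by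
  have := hμ.fin
  have hm : Measurable (fun t : ℝ => t ^ 2) := by fun_prop
  refine ⟨?_, ?_, fun m => ?_⟩
  · exact Measure.isFiniteMeasure_map μ _
  · obtain ⟨C, hC⟩ := hμ.supp
    refine ⟨C ^ 2, ?_⟩
    rw [Measure.map_apply hm measurableSet_Icc.compl]
    refine measure_mono_null ?_ hC
    intro t ht h
    apply ht
    refine ⟨by positivity, ?_⟩
    exact pow_le_pow_left₀ h.1 h.2 2
  · rw [integral_map hm.aemeasurable (by fun_prop)]
    have h1 : ∀ t : ℝ, (t ^ 2) ^ m = t ^ (2 * m) := fun t => by rw [pow_mul]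
    simp_rw [h1]
    rw [hμ.mom, hH, ← pow_two, pow_mul]

theorem Fin.spec_pos {a : TApprox S st τ} {H : S} (hH : st H = H) (hF : a.Fin H) {μ : Measure ℝ}
    (hμ : IsSpec τ H μ) : μ {0} = 0 ∧ IntegrableOn Real.log (Set.Ioi 0) μ ∧
      ∫ t in Set.Ioi 0, Real.log t ∂μ = a.ldet H := by
  have := hμ.fin
  have hm : Measurable (fun t : ℝ => t ^ 2) := by fun_prop
  obtain ⟨h1, h2, h3⟩ := hF.spec (isSpec_sq hH hμ)
  obtain ⟨C, hC⟩ := hμ.supp
  have hpre : (fun t : ℝ => t ^ 2) ⁻¹' (Set.Ioi 0) = {0}ᶜ := by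
    ext t
    simp only [Set.mem_preimage, Set.mem_Ioi, Set.mem_compl_iff, Set.mem_singleton_iff]
    exact ⟨fun h h0 => by rw [h0] at h; simp at h, fun h => by positivity⟩
  have hrestr : (μ.map (fun t : ℝ => t ^ 2)).restrict (Set.Ioi 0)
      = (μ.restrict {0}ᶜ).map (fun t : ℝ => t ^ 2) := by
    rw [Measure.restrict_map hm measurableSet_Ioi, hpre]
  have hae : μ.restrict {0}ᶜ = μ.restrict (Set.Ioi 0) := by
    apply Measure.restrict_congr_set
    have h0 : ∀ᵐ t ∂μ, t ∈ Set.Icc 0 C := by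
      rw [ae_iff]; exact hC
    filter_upwards [h0] with t ht
    apply propext
    change t ≠ 0 ↔ 0 < t
    exact ⟨fun h => lt_of_le_of_ne ht.1 (Ne.symm h), fun h => h.ne'⟩
  refine ⟨?_, ?_, ?_⟩
  · rw [Measure.map_apply hm (measurableSet_singleton 0)] at h1
    refine measure_mono_null ?_ h1
    intro t ht
    rw [Set.mem_singleton_iff] at ht
    simp [ht]
  · unfold IntegrableOn at h2 ⊢
    rw [hrestr, hae] at h2
    have h4 := (integrable_map_measure (by fun_prop) hm.aemeasurable).1 h2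
    have h5 : (Real.log ∘ fun t : ℝ => t ^ 2) = fun t => 2 * Real.log t := by
      ext t
      simp [Real.log_pow]
    rw [h5] at h4
    have h6 := h4.const_mul (1 / 2)
    refine h6.congr (Eventually.of_forall fun t => ?_)
    ring
  · rw [hrestr, hae, integral_map hm.aemeasurable (by fun_prop)] at h3
    have h5 : ∀ t : ℝ, Real.log (t ^ 2) = 2 * Real.log t := fun t => by
      rw [Real.log_pow]; norm_num
    simp_rw [h5] at h3
    rw [integral_const_mul] at h3
    linarith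

lemma ld_pos_aux {n : Type*} [Fintype n] [DecidableEq n] (X R : Matrix n n ℂ) (hR : R.PosSemidef)
    {δ : ℝ} (hδ : 0 < δ) :
    -(Fintype.card n * Real.log 2) + 2 * ld X δ ≤ ld (X * Xᴴ + R) (δ ^ 2) := by
  have hA : (X * Xᴴ + R).PosSemidef := (Matrix.posSemidef_self_mul_conjTranspose X).add hR
  obtain ⟨A, hAdef⟩ : ∃ A, A = X * Xᴴ + R := ⟨_, rfl⟩
  rw [← hAdef] at hA ⊢
  have hAh : Aᴴ = A := hA.isHermitian
  -- A^2 + δ^2 ≥ (1/2) (A + δ)^2
  have hP1 : ((X * Xᴴ) + (δ : ℂ) • (1 : Matrix n n ℂ)).PosDef := posDef_reg X hδ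
  have hP2 : (A + (δ : ℂ) • (1 : Matrix n n ℂ)).PosDef := posDef_add_smul_one hA hδ
  have h1 : (X * Xᴴ + (δ : ℂ) • (1 : Matrix n n ℂ)).det.re ≤ (A + (δ : ℂ) • (1 : Matrix n n ℂ)).det.re := by
    apply det_mono hP1
    have : A + (δ : ℂ) • (1 : Matrix n n ℂ) - (X * Xᴴ + (δ : ℂ) • (1 : Matrix n n ℂ)) = R := by
      rw [hAdef]; abel
    rw [this]; exact hR
  obtain ⟨P, hP⟩ : ∃ P, P = A + (δ : ℂ) • (1 : Matrix n n ℂ) := ⟨_, rfl⟩
  rw [← hP] at hP2 h1
  have hPh : Pᴴ = P := hP2.isHermitian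
  have hc : (0 : ℂ) < ((1 / 2 : ℝ) : ℂ) := by
    have : (0 : ℝ) < 1 / 2 := by norm_num
    exact_mod_cast this
  have hPP : (((1 / 2 : ℝ) : ℂ) • (P * Pᴴ)).PosDef := by
    have h2 : (P * Pᴴ).PosDef := by
      apply Matrix.PosDef.mul_conjTranspose_self
      apply Matrix.vecMul_injective_of_isUnit
      exact hP2.isUnit
    exact h2.smul hc
  have h2 : (((1 / 2 : ℝ) : ℂ) • (P * Pᴴ)).det.re ≤ (A * Aᴴ + ((δ ^ 2 : ℝ) : ℂ) • (1 : Matrix n n ℂ)).det.re := by
    apply det_mono hPP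
    have e : A * Aᴴ + ((δ ^ 2 : ℝ) : ℂ) • (1 : Matrix n n ℂ) - ((1 / 2 : ℝ) : ℂ) • (P * Pᴴ)
        = ((1 / 2 : ℝ) : ℂ) • ((A - (δ : ℂ) • (1 : Matrix n n ℂ)) * (A - (δ : ℂ) • (1 : Matrix n n ℂ))ᴴ) := by
      have e1 : (A - (δ : ℂ) • (1 : Matrix n n ℂ))ᴴ = A - (δ : ℂ) • (1 : Matrix n n ℂ) := by
        rw [Matrix.conjTranspose_sub, hAh, Matrix.conjTranspose_smul]
        simp
      rw [e1, hPh, hAh, hP]
      rw [Matrix.add_mul, Matrix.mul_add, Matrix.mul_add, Matrix.sub_mul, Matrix.mul_sub, Matrix.mul_sub]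
      simp only [Matrix.smul_mul, Matrix.mul_smul, Matrix.one_mul, Matrix.mul_one, smul_smul]
      push_cast
      module
    rw [e]
    exact (Matrix.posSemidef_self_mul_conjTranspose _).smul hc.le
  have h3 : (((1 / 2 : ℝ) : ℂ) • (P * Pᴴ)).det.re = (1 / 2) ^ Fintype.card n * (P.det.re * P.det.re) := by
    rw [Matrix.det_smul, Matrix.det_mul, hPh]
    have h4 := det_ofReal_of_posDef hP2
    rw [← h4, ← Complex.ofReal_pow, ← Complex.ofReal_mul, ← Complex.ofReal_mul, Complex.ofReal_re]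
    simp
  rw [h3] at h2
  have hx : 0 < (X * Xᴴ + (δ : ℂ) • (1 : Matrix n n ℂ)).det.re := det_re_pos hP1
  have hp : 0 < P.det.re := det_re_pos hP2
  unfold ld
  have h5 := Real.log_le_log (by positivity) h2
  rw [Real.log_mul (by positivity) (by positivity), Real.log_mul hp.ne' hp.ne', Real.log_pow] at h5
  have h6 := Real.log_le_log hx h1
  have h7 : Real.log (1 / 2) = - Real.log 2 := by
    rw [one_div, Real.log_inv]
  rw [h7] at h5
  linarith

theorem Fin.of_add_pos {a : TApprox S st τ} {x r : S} (hx : a.Fin x) (hr : a.Pos r) :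
    a.Fin (x * st x + r) := by
  obtain ⟨B, hB⟩ := hx
  refine ⟨-(1 / 2 * (τ 1 * Real.log 2)) + 2 * B, fun ε hε => ?_⟩
  have hδ : 0 < Real.sqrt ε := Real.sqrt_pos.2 hε
  have hsq : Real.sqrt ε ^ 2 = ε := Real.sq_sqrt hε.le
  have h1 := a.Li_lim (x * st x + r) hε
  have h2 := (((a.tr_lim 1).mul_const (Real.log 2)).const_mul (1 / 2)).neg.add
    ((a.Li_lim x hδ).const_mul 2)
  have h3 : -(1 / 2 * (τ 1 * Real.log 2)) + 2 * a.L x (Real.sqrt ε) ≤ a.L (x * st x + r) ε := by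
    refine le_of_tendsto_of_tendsto' h2 h1 fun i => ?_
    have h4 := ld_pos_aux (a.π i x) (a.π i r) (hr i) hδ
    rw [hsq] at h4
    have h5 : a.π i (x * st x + r) = a.π i x * (a.π i x)ᴴ + a.π i r := by
      rw [map_add, map_mul, a.π_st]
    unfold Li
    rw [h5, map_one, Matrix.trace_one]
    have hw := a.w_pos i
    have h6 := mul_le_mul_of_nonneg_left h4 hw.le
    simp only [Complex.natCast_re]
    linarith
  have h7 := hB _ hδ
  linarith

end TApprox

end Pool.Agent.MPfa412c
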