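import Pool.Agent.MPfa412c.Groups
import Pool.Agent.MPfa412c.PosSpec

/-!
# Laplacians of a based chain complex of length three and their log-determinants
-/

set_option linter.unusedSectionVars false

open Matrix MeasureTheory Filter Topology MonoidAlgebra
open scoped ComplexOrder ComplexConjugate

namespace Pool.Agent.MPfa412c

section rect

variable {Γ : Type*} [Group Γ]
variable {m n p q : Type*} [Fintype m] [DecidableEq m] [Fintype n] [DecidableEq n]
  [Fintype p] [DecidableEq p] [Fintype q] [DecidableEq q]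

lemma gst_sum {ι : Type*} (s : Finset ι) (f : ι → MonoidAlgebra ℂ Γ) :
    gst (∑ i ∈ s, f i) = ∑ i ∈ s, gst (f i) := by
  classical
  induction s using Finset.induction_on with
  | empty => simp [gst_zero]
  | insert i s hi ih => rw [Finset.sum_insert hi, gst_add, ih, Finset.sum_insert hi]

lemma rst_mul (X : Matrix m n (MonoidAlgebra ℂ Γ)) (Y : Matrix n p (MonoidAlgebra ℂ Γ)) :
    rst (X * Y) = rst Y * rst X := by
  apply Matrix.ext
  intro i j
  change gst ((X * Y) j i) = (rst Y * rst X) i j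
  rw [Matrix.mul_apply, Matrix.mul_apply, gst_sum]
  exact Finset.sum_congr rfl fun k _ => gst_mul _ _

lemma rst_rst (X : Matrix m n (MonoidAlgebra ℂ Γ)) : rst (rst X) = X := by
  ext i j
  unfold rst
  rw [gst_gst]

lemma rst_add (X Y : Matrix m n (MonoidAlgebra ℂ Γ)) : rst (X + Y) = rst X + rst Y := by
  ext i j
  unfold rst
  rw [Matrix.add_apply, gst_add]
  rfl

lemma rst_zero : rst (0 : Matrix m n (MonoidAlgebra ℂ Γ)) = 0 := by
  ext i j
  unfold rst
  simp [gst_zero]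

lemma rst_one : rst (1 : Matrix m m (MonoidAlgebra ℂ Γ)) = 1 := by
  ext i j
  unfold rst
  by_cases h : i = j
  · subst h; rw [Matrix.one_apply_eq, gst_one]
  · rw [Matrix.one_apply_ne h, Matrix.one_apply_ne (Ne.symm h), gst_zero]

lemma rst_fromBlocks (A : Matrix m p (MonoidAlgebra ℂ Γ)) (B : Matrix m q (MonoidAlgebra ℂ Γ))
    (C : Matrix n p (MonoidAlgebra ℂ Γ)) (D : Matrix n q (MonoidAlgebra ℂ Γ)) :
    rst (Matrix.fromBlocks A B C D) = Matrix.fromBlocks (rst A) (rst C) (rst B) (rst D) := by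
  ext i j
  rcases i with i | i <;> rcases j with j | j <;> rfl

lemma rst_fromRows (A : Matrix m p (MonoidAlgebra ℂ Γ)) (B : Matrix n p (MonoidAlgebra ℂ Γ)) :
    rst (Matrix.fromRows A B) = Matrix.fromCols (rst A) (rst B) := by
  ext i j
  rcases j with j | j <;> rfl

lemma rst_fromCols (A : Matrix p m (MonoidAlgebra ℂ Γ)) (B : Matrix p n (MonoidAlgebra ℂ Γ)) :
    rst (Matrix.fromCols A B) = Matrix.fromRows (rst A) (rst B) := by
  ext i j
  rcases i with i | i <;> rfl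

lemma rst_submatrix {p' q' : Type*} (A : Matrix p q (MonoidAlgebra ℂ Γ)) (e : p' → p) (f : q' → q) :
    rst (A.submatrix e f) = (rst A).submatrix f e := rfl

lemma mst_eq_rst (X : Matrix m m (MonoidAlgebra ℂ Γ)) : mst X = rst X := rfl

end rect

namespace GApprox

variable {Γ : Type*} [Group Γ] (b : GApprox Γ)
variable {m n p : Type} [Fintype m] [DecidableEq m] [Fintype n] [DecidableEq n] [Fintype p]
  [DecidableEq p]

/-- rectangular version of the representations -/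
noncomputable def rπ (i : b.ι) (X : Matrix m n (MonoidAlgebra ℂ Γ)) :
    Matrix (m × b.D i) (n × b.D i) ℂ := fun x y => b.lift i (X x.1 y.1) x.2 y.2

lemma mπ_rst_mul (i : b.ι) (X : Matrix m n (MonoidAlgebra ℂ Γ)) :
    b.mπ n i (rst X * X) = (b.rπ i X)ᴴ * b.rπ i X := by
  ext x y
  rw [mπ_apply, Matrix.mul_apply, map_sum, Matrix.sum_apply, Matrix.mul_apply, Fintype.sum_prod_type]
  apply Finset.sum_congr rfl
  intro k _
  rw [map_mul, Matrix.mul_apply]
  apply Finset.sum_congr rfl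
  intro d _
  rw [Matrix.conjTranspose_apply]
  unfold rst rπ
  rw [lift_gst, Matrix.conjTranspose_apply]

lemma pos_rst_mul (X : Matrix m n (MonoidAlgebra ℂ Γ)) : (b.toT n).Pos (rst X * X) := by
  intro i
  change (b.mπ n i (rst X * X)).PosSemidef
  rw [b.mπ_rst_mul]
  exact Matrix.posSemidef_conjTranspose_mul_self _

lemma pos_mul_rst (X : Matrix m n (MonoidAlgebra ℂ Γ)) : (b.toT m).Pos (X * rst X) := by
  have := b.pos_rst_mul (rst X)
  rwa [rst_rst] at this

lemma pos_add {X Y : Matrix n n (MonoidAlgebra ℂ Γ)} (hX : (b.toT n).Pos X) (hY : (b.toT n).Pos Y) :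
    (b.toT n).Pos (X + Y) := by
  intro i
  rw [map_add]
  exact (hX i).add (hY i)

variable {n0 e1 n3 : Type} [Fintype n0] [DecidableEq n0] [Fintype e1] [DecidableEq e1]
  [Fintype n3] [DecidableEq n3]

section torsion

variable (B1 : Matrix n0 n0 (MonoidAlgebra ℂ Γ)) (P1 : Matrix e1 n0 (MonoidAlgebra ℂ Γ))
  (Q2 : Matrix e1 n0 (MonoidAlgebra ℂ Γ)) (B2 : Matrix e1 e1 (MonoidAlgebra ℂ Γ))
  (R2 : Matrix n3 n0 (MonoidAlgebra ℂ Γ)) (S2 : Matrix n3 e1 (MonoidAlgebra ℂ Γ))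
  (P3 : Matrix n3 e1 (MonoidAlgebra ℂ Γ)) (B3 : Matrix n3 n3 (MonoidAlgebra ℂ Γ))

/-- The log-determinants of the four Laplacians in terms of three square minors of the
differentials. -/
theorem laplacians (D1 : Matrix (n0 ⊕ e1) n0 (MonoidAlgebra ℂ Γ))
    (D2 : Matrix (e1 ⊕ n3) (n0 ⊕ e1) (MonoidAlgebra ℂ Γ))
    (D3 : Matrix n3 (e1 ⊕ n3) (MonoidAlgebra ℂ Γ))
    (hD1 : D1 = Matrix.fromRows B1 P1) (hD2 : D2 = Matrix.fromBlocks Q2 B2 R2 S2)
    (hD3 : D3 = Matrix.fromCols P3 B3)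
    (h21 : D2 * D1 = 0) (h32 : D3 * D2 = 0) (h1 : b.F B1) (h2 : b.F B2) (h3 : b.F B3) :
    b.F (rst D1 * D1) ∧ b.F (D1 * rst D1 + rst D2 * D2) ∧ b.F (D2 * rst D2 + rst D3 * D3) ∧
    b.F (D3 * rst D3) ∧
    1 / 2 * b.dt (D1 * rst D1 + rst D2 * D2) - b.dt (D2 * rst D2 + rst D3 * D3)
      + 3 / 2 * b.dt (D3 * rst D3) = b.dt B1 + b.dt B3 - b.dt B2 := by
  -- the two extreme Laplacians
  have hL0 : b.F (rst D1 * D1) := by
    have e : rst D1 * D1 = mst B1 * mst (mst B1) + rst P1 * P1 := by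
      rw [hD1, rst_fromRows, Matrix.fromCols_mul_fromRows, mst_eq_rst, mst_eq_rst, rst_rst]
    rw [e]
    exact TApprox.Fin.of_add_pos (b.F_mst h1).1 (b.pos_rst_mul P1)
  have hL3 : b.F (D3 * rst D3) := by
    have e : D3 * rst D3 = B3 * mst B3 + P3 * rst P3 := by
      rw [hD3, rst_fromCols, Matrix.fromCols_mul_fromRows, mst_eq_rst, add_comm]
    rw [e]
    exact TApprox.Fin.of_add_pos h3 (b.pos_mul_rst P3)
  -- the big matrix
  obtain ⟨D0, hD0⟩ : ∃ D0, D0 = Matrix.fromBlocks (rst D1) 0 D2 (rst D3) := ⟨_, rfl⟩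
  obtain ⟨L', hL'⟩ : ∃ L', L' = Matrix.fromBlocks B1 0 P1 (1 : Matrix e1 e1 (MonoidAlgebra ℂ Γ)) := ⟨_, rfl⟩
  obtain ⟨R', hR'⟩ : ∃ R', R' = Matrix.fromBlocks (1 : Matrix e1 e1 (MonoidAlgebra ℂ Γ)) 0 P3 B3 := ⟨_, rfl⟩
  have hFL' : b.F L' ∧ b.dt L' = b.dt B1 := by
    have := b.F_blockLower P1 h1 (b.F_one (n := e1)).1
    rw [hL']
    refine ⟨this.1, ?_⟩
    rw [this.2, (b.F_one (n := e1)).2, add_zero]
  have hFR' : b.F R' ∧ b.dt R' = b.dt B3 := by
    have := b.F_blockLower P3 (b.F_one (n := e1)).1 h3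
    rw [hR']
    refine ⟨this.1, ?_⟩
    rw [this.2, (b.F_one (n := e1)).2, zero_add]
  let e : (n0 ⊕ e1) ⊕ n3 ≃ n0 ⊕ (e1 ⊕ n3) := Equiv.sumAssoc n0 e1 n3
  -- the triangular form
  have hid1 : Q2 * B1 + B2 * P1 = 0 := by
    have h := congrArg (fun M => M.submatrix Sum.inl id) h21
    rw [hD1, hD2, Matrix.fromBlocks_mul_fromRows] at h
    apply Matrix.ext
    intro i j
    have h' := congrFun (congrFun h i) j
    simpa using h'
  have hid2 : P3 * Q2 + B3 * R2 = 0 := by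
    rw [hD3, hD2, Matrix.fromCols_mul_fromBlocks] at h32
    apply Matrix.ext
    intro i j
    have h' := congrFun (congrFun h32 i) (Sum.inl j)
    simpa using h'
  have hid3 : P3 * B2 + B3 * S2 = 0 := by
    rw [hD3, hD2, Matrix.fromCols_mul_fromBlocks] at h32
    apply Matrix.ext
    intro i j
    have h' := congrFun (congrFun h32 i) (Sum.inr j)
    simpa using h'
  have htri : (Matrix.fromBlocks (1 : Matrix n0 n0 (MonoidAlgebra ℂ Γ)) 0 0 R' * D0
      * Matrix.fromBlocks L' 0 0 (1 : Matrix n3 n3 (MonoidAlgebra ℂ Γ))).submatrix id e.symm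
      = Matrix.fromBlocks (rst D1 * D1) (Matrix.fromCols (rst P1) 0) 0
        (Matrix.fromBlocks B2 (rst P3) 0 (D3 * rst D3)) := by
    have a1 : rst D1 * L' = Matrix.fromCols (rst D1 * D1) (rst P1) := by
      rw [hD1, hL', rst_fromRows, Matrix.fromCols_mul_fromBlocks, Matrix.fromCols_mul_fromRows]
      simp
    have a2 : R' * D2 * L' = Matrix.fromBlocks 0 B2 0 0 := by
      rw [hR', hD2, hL', Matrix.fromBlocks_multiply, Matrix.fromBlocks_multiply]
      simp only [Matrix.one_mul, Matrix.zero_mul, add_zero, Matrix.mul_zero, Matrix.mul_one, zero_add]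
      rw [hid1, hid2, hid3]
      simp
    have a3 : R' * rst D3 = Matrix.fromRows (rst P3) (D3 * rst D3) := by
      rw [hR', hD3, rst_fromCols, Matrix.fromBlocks_mul_fromRows, Matrix.fromCols_mul_fromRows]
      simp
    have a4 : Matrix.fromBlocks (1 : Matrix n0 n0 (MonoidAlgebra ℂ Γ)) 0 0 R' * D0
      * Matrix.fromBlocks L' 0 0 (1 : Matrix n3 n3 (MonoidAlgebra ℂ Γ))
        = Matrix.fromBlocks (rst D1 * L') 0 (R' * D2 * L') (R' * rst D3) := by
      rw [hD0, Matrix.fromBlocks_multiply, Matrix.fromBlocks_multiply]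
      simp
    rw [a4, a1, a2, a3]
    ext i j
    rcases i with i | i | i <;> rcases j with j | j | j <;> rfl
  have hFtri := b.F_blockUpper (Matrix.fromCols (rst P1) 0) hL0 (b.F_blockUpper (rst P3) h2 hL3).1
  rw [(b.F_blockUpper (rst P3) h2 hL3).2, ← htri] at hFtri
  -- factor
  have hfac : (Matrix.fromBlocks (1 : Matrix n0 n0 (MonoidAlgebra ℂ Γ)) 0 0 R' * D0
      * Matrix.fromBlocks L' 0 0 (1 : Matrix n3 n3 (MonoidAlgebra ℂ Γ))).submatrix id e.symm
      = Matrix.fromBlocks (1 : Matrix n0 n0 (MonoidAlgebra ℂ Γ)) 0 0 R' * D0.submatrix id e.symm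
        * (Matrix.fromBlocks L' 0 0 (1 : Matrix n3 n3 (MonoidAlgebra ℂ Γ))).submatrix e.symm e.symm := by
    ext i j
    simp only [Matrix.submatrix_apply, Matrix.mul_apply, id]
    rw [← Equiv.sum_comp e.symm]
  rw [hfac] at hFtri
  obtain ⟨hFD, hFL''⟩ := b.F_of_mul hFtri.1
  obtain ⟨hFR'', hFD⟩ := b.F_of_mul hFD
  have hsum : b.dt B3 + b.dt (D0.submatrix id e.symm) + b.dt B1
      = b.dt (rst D1 * D1) + (b.dt B2 + b.dt (D3 * rst D3)) := by
    rw [← hFtri.2, (b.F_mul (b.F_mul hFR'' hFD).1 hFL'').2, (b.F_mul hFR'' hFD).2,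
      (b.F_submatrix e.symm e.symm (b.F_fromBlocks hFL'.1 (b.F_one (n := n3)).1).1).2,
      (b.F_fromBlocks hFL'.1 (b.F_one (n := n3)).1).2,
      (b.F_fromBlocks (b.F_one (n := n0)).1 hFR'.1).2, hFL'.2, hFR'.2,
      (b.F_one (n := n0)).2, (b.F_one (n := n3)).2]
    ring
  -- D D^*
  have hadj := b.F_mst hFD
  have hrD0 : rst D0 = Matrix.fromBlocks D1 (rst D2) 0 D3 := by
    rw [hD0, rst_fromBlocks, rst_rst, rst_rst, rst_zero]
  have h21' : rst D1 * rst D2 = 0 := by rw [← rst_mul, h21, rst_zero]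
  have h32' : rst D2 * rst D3 = 0 := by rw [← rst_mul, h32, rst_zero]
  have hDDs : D0.submatrix id e.symm * mst (D0.submatrix id e.symm)
      = Matrix.fromBlocks (rst D1 * D1) 0 0 (D2 * rst D2 + rst D3 * D3) := by
    have : mst (D0.submatrix id e.symm) = (rst D0).submatrix e.symm id := rfl
    rw [this, Matrix.submatrix_mul_equiv]
    rw [hrD0, hD0, Matrix.fromBlocks_multiply]
    simp only [Matrix.zero_mul, add_zero, h21, h21', Matrix.mul_zero]
    rfl
  have hDsD : mst (D0.submatrix id e.symm) * D0.submatrix id e.symm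
      = (Matrix.fromBlocks (D1 * rst D1 + rst D2 * D2) 0 0 (D3 * rst D3)).submatrix e.symm e.symm := by
    have h5 : mst (D0.submatrix id e.symm) = (rst D0).submatrix e.symm (Equiv.refl _) := rfl
    have h6 : D0.submatrix id e.symm = D0.submatrix (Equiv.refl _) e.symm := rfl
    rw [h5, h6, Matrix.submatrix_mul_equiv]
    rw [hrD0, hD0, Matrix.fromBlocks_multiply]
    simp only [Matrix.zero_mul, zero_add, h32, h32', Matrix.mul_zero]
  have hm1 := b.F_mul hFD hadj.1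
  have hm2 := b.F_mul hadj.1 hFD
  rw [hDDs] at hm1
  rw [hDsD] at hm2
  have hback := b.F_submatrix e e hm2.1
  rw [Matrix.submatrix_submatrix] at hback
  have hee : (Matrix.fromBlocks (D1 * rst D1 + rst D2 * D2) 0 0 (D3 * rst D3)).submatrix
      (e.symm ∘ e) (e.symm ∘ e) = Matrix.fromBlocks (D1 * rst D1 + rst D2 * D2) 0 0 (D3 * rst D3) := by
    rw [Equiv.symm_comp_self]; rfl
  rw [hee] at hback
  obtain ⟨hL0', hL2⟩ := b.F_of_fromBlocks hm1.1
  obtain ⟨hL1, hL3'⟩ := b.F_of_fromBlocks hback.1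
  have s1 := (b.F_fromBlocks hL0 hL2).2
  have s2 := (b.F_fromBlocks hL1 hL3).2
  refine ⟨hL0, hL1, hL2, hL3, ?_⟩
  have s3 := hm1.2
  have s4 := hm2.2
  rw [hadj.2] at s3 s4
  rw [hback.2] at s2
  linarith

end torsion

end GApprox

end Pool.Agent.MPfa412c
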