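import Pool.Agent.MPfa412c.Defs
import Pool.Agent.MPfa412c.TorsLemma

/-!
# From the definitions to log-determinants
-/

set_option linter.unusedSectionVars false

open Matrix MeasureTheory Filter Topology MonoidAlgebra
open scoped ComplexOrder ComplexConjugate

namespace Pool.Agent.MPfa412c

section

variable {Γ : Type} [Group Γ]

/-- complexification of the integral group ring -/
noncomputable def toC : MonoidAlgebra ℤ Γ →+* MonoidAlgebra ℂ Γ :=
  MonoidAlgebra.mapRingHom Γ (Int.castRingHom ℂ)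

lemma toC_single (g : Γ) (z : ℤ) : toC (MonoidAlgebra.single g z) = MonoidAlgebra.single g (z : ℂ) := by
  unfold toC
  rw [MonoidAlgebra.coe_mapRingHom, MonoidAlgebra.map_single]
  simp

lemma toC_coeff (x : MonoidAlgebra ℤ Γ) (g : Γ) : (toC x).coeff g = ((x.coeff g : ℤ) : ℂ) := by
  unfold toC
  rw [MonoidAlgebra.coeff_mapRingHom]
  simp

lemma toC_inv (x : MonoidAlgebra ℤ Γ) : toC (MonoidAlgebra.mapDomain (fun g => g⁻¹) x) = gst (toC x) := by
  induction x using MonoidAlgebra.induction_linear with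
  | zero => simp [gst_zero]
  | add x y hx hy => rw [MonoidAlgebra.mapDomain_add, map_add, hx, hy, map_add, gst_add]
  | single g c => rw [MonoidAlgebra.mapDomain_single, toC_single, toC_single, gst_single]; simp

/-- complexification of matrices -/
noncomputable def mC {m n : Type} (A : Matrix m n (MonoidAlgebra ℤ Γ)) :
    Matrix m n (MonoidAlgebra ℂ Γ) := A.map toC

variable {m n p : Type} [Fintype m] [DecidableEq m] [Fintype n] [DecidableEq n] [Fintype p]
  [DecidableEq p]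

lemma mC_adj (A : Matrix m n (MonoidAlgebra ℤ Γ)) : mC (adj A) = rst (mC A) := by
  apply Matrix.ext
  intro i j
  exact toC_inv (A j i)

lemma mC_mul (A : Matrix m n (MonoidAlgebra ℤ Γ)) (B : Matrix n p (MonoidAlgebra ℤ Γ)) :
    mC (A * B) = mC A * mC B := Matrix.map_mul

lemma mC_add (A B : Matrix m n (MonoidAlgebra ℤ Γ)) : mC (A + B) = mC A + mC B := by
  apply Matrix.ext
  intro i j
  exact map_add toC _ _

lemma mC_zero : mC (0 : Matrix m n (MonoidAlgebra ℤ Γ)) = 0 := by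
  apply Matrix.ext
  intro i j
  exact map_zero toC

lemma mC_one : mC (1 : Matrix m m (MonoidAlgebra ℤ Γ)) = 1 := by
  apply Matrix.ext
  intro i j
  change toC ((1 : Matrix m m (MonoidAlgebra ℤ Γ)) i j) = _
  by_cases h : i = j
  · subst h; rw [Matrix.one_apply_eq, Matrix.one_apply_eq, map_one]
  · rw [Matrix.one_apply_ne h, Matrix.one_apply_ne h, map_zero]

lemma mC_pow (A : Matrix m m (MonoidAlgebra ℤ Γ)) (k : ℕ) : mC (A ^ k) = mC A ^ k := by
  induction k with
  | zero => rw [pow_zero, pow_zero, mC_one]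
  | succ k ih => rw [pow_succ, pow_succ, mC_mul, ih]

lemma mtr_mC (A : Matrix n n (MonoidAlgebra ℤ Γ)) :
    mtr (mC A) = ((∑ i, (A i i).coeff 1 : ℤ) : ℝ) := by
  unfold mtr gtr
  push_cast
  apply Finset.sum_congr rfl
  intro i _
  change ((toC (A i i)).coeff 1).re = _
  rw [toC_coeff]
  simp

lemma isSpectralMeasure_iff (H : Matrix n n (MonoidAlgebra ℤ Γ)) (μ : Measure ℝ) :
    IsSpectralMeasure H μ ↔ IsSpec mtr (mC H) μ := by
  constructor
  · rintro ⟨h1, h2, h3⟩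
    exact ⟨h1, h2, fun m => by rw [h3, ← mC_pow, mtr_mC]⟩
  · rintro ⟨h1, h2, h3⟩
    exact ⟨h1, h2, fun m => by rw [h3, ← mC_pow, mtr_mC]⟩

lemma spectralMeasure_spec {H : Matrix n n (MonoidAlgebra ℤ Γ)} (b : GApprox Γ)
    (hpos : (b.toT n).Pos (mC H)) : IsSpectralMeasure H (spectralMeasure H) := by
  have h : ∃ μ, IsSpectralMeasure H μ := by
    obtain ⟨μ, hμ⟩ := (b.toT n).exists_isSpec_pos hpos
    exact ⟨μ, (isSpectralMeasure_iff H μ).2 hμ⟩
  unfold spectralMeasure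
  rw [dif_pos h]
  exact h.choose_spec

theorem spectral_of_F {H : Matrix n n (MonoidAlgebra ℤ Γ)} (b : GApprox Γ)
    (hpos : (b.toT n).Pos (mC H)) (hadj : rst (mC H) = mC H) (hF : b.F (mC H)) :
    spectralMeasure H {0} = 0 ∧ IntegrableOn Real.log (Set.Ioi 0) (spectralMeasure H) ∧
      ∫ x in Set.Ioi 0, Real.log x ∂(spectralMeasure H) = b.dt (mC H) :=
  TApprox.Fin.spec_pos hadj hF ((isSpectralMeasure_iff H _).1 (spectralMeasure_spec b hpos))

lemma spectral_empty [IsEmpty n] (H : Matrix n n (MonoidAlgebra ℤ Γ)) :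
    spectralMeasure H {0} = 0 ∧ IntegrableOn Real.log (Set.Ioi 0) (spectralMeasure H) := by
  have h0 : spectralMeasure H = 0 := by
    unfold spectralMeasure
    split
    · rename_i h
      obtain ⟨h1, h2, h3⟩ := h.choose_spec
      have h4 := h3 0
      simp only [pow_zero, integral_const, smul_eq_mul, mul_one, Finset.univ_eq_empty, Finset.sum_empty,
        Int.cast_zero] at h4
      rw [← Measure.measure_univ_eq_zero]
      rw [Measure.real, ENNReal.toReal_eq_zero_iff] at h4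
      rcases h4 with h4 | h4
      · exact h4
      · exact absurd h4 (measure_ne_top _ _)
    · rfl
  rw [h0]
  refine ⟨by simp, ?_⟩
  unfold IntegrableOn
  rw [Measure.restrict_zero]
  exact integrable_zero_measure

end

namespace Delta

variable (K : Delta) [∀ p, Fintype (K.X p)] [∀ p, DecidableEq (K.X p)] {Γ : Type} [Group Γ]

lemma lap_pos (b : GApprox Γ) (γ : K.X 1 → Γ) (p : ℕ) : (b.toT (K.X p)).Pos (mC (K.lap γ p)) := by
  cases p with
  | zero =>
    unfold lap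
    rw [mC_mul, mC_adj]
    exact b.pos_rst_mul _
  | succ p =>
    unfold lap
    rw [mC_add, mC_mul, mC_mul, mC_adj, mC_adj]
    exact b.pos_add (b.pos_mul_rst _) (b.pos_rst_mul _)

lemma lap_adj (γ : K.X 1 → Γ) (p : ℕ) : rst (mC (K.lap γ p)) = mC (K.lap γ p) := by
  cases p with
  | zero =>
    unfold lap
    rw [mC_mul, mC_adj, rst_mul, rst_rst]
  | succ p =>
    unfold lap
    rw [mC_add, mC_mul, mC_mul, mC_adj, mC_adj, rst_add, rst_mul, rst_mul, rst_rst, rst_rst]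

/-- The torsion in terms of three square minors of the differentials. -/
theorem torsion_eq (b : GApprox Γ) (γ : K.X 1 → Γ) (hdim : ∀ p, 4 ≤ p → IsEmpty (K.X p))
    {e1 : Type} [Fintype e1] [DecidableEq e1] (x1 : K.X 0 ⊕ e1 ≃ K.X 1) (x2 : e1 ⊕ K.X 3 ≃ K.X 2)
    (h21 : K.bd γ 1 * K.bd γ 0 = 0) (h32 : K.bd γ 2 * K.bd γ 1 = 0)
    (h1 : b.F (mC ((K.bd γ 0).submatrix (x1 ∘ Sum.inl) id)))
    (h2 : b.F (mC ((K.bd γ 1).submatrix (x2 ∘ Sum.inl) (x1 ∘ Sum.inr))))
    (h3 : b.F (mC ((K.bd γ 2).submatrix id (x2 ∘ Sum.inr)))) :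
    K.Acyclic γ ∧ K.DetClass γ ∧ K.torsion γ =
      b.dt (mC ((K.bd γ 0).submatrix (x1 ∘ Sum.inl) id))
      + b.dt (mC ((K.bd γ 2).submatrix id (x2 ∘ Sum.inr)))
      - b.dt (mC ((K.bd γ 1).submatrix (x2 ∘ Sum.inl) (x1 ∘ Sum.inr))) := by
  obtain ⟨D1, hD1⟩ : ∃ D1, D1 = mC ((K.bd γ 0).submatrix x1 id) := ⟨_, rfl⟩
  obtain ⟨D2, hD2⟩ : ∃ D2, D2 = mC ((K.bd γ 1).submatrix x2 x1) := ⟨_, rfl⟩
  obtain ⟨D3, hD3⟩ : ∃ D3, D3 = mC ((K.bd γ 2).submatrix id x2) := ⟨_, rfl⟩
  have hD1' : D1 = Matrix.fromRows (mC ((K.bd γ 0).submatrix (x1 ∘ Sum.inl) id))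
      (mC ((K.bd γ 0).submatrix (x1 ∘ Sum.inr) id)) := by
    rw [hD1]
    apply Matrix.ext
    intro i j
    rcases i with i | i <;> rfl
  have hD2' : D2 = Matrix.fromBlocks (mC ((K.bd γ 1).submatrix (x2 ∘ Sum.inl) (x1 ∘ Sum.inl)))
      (mC ((K.bd γ 1).submatrix (x2 ∘ Sum.inl) (x1 ∘ Sum.inr)))
      (mC ((K.bd γ 1).submatrix (x2 ∘ Sum.inr) (x1 ∘ Sum.inl)))
      (mC ((K.bd γ 1).submatrix (x2 ∘ Sum.inr) (x1 ∘ Sum.inr))) := by
    rw [hD2]
    apply Matrix.ext
    intro i j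
    rcases i with i | i <;> rcases j with j | j <;> rfl
  have hD3' : D3 = Matrix.fromCols (mC ((K.bd γ 2).submatrix id (x2 ∘ Sum.inl)))
      (mC ((K.bd γ 2).submatrix id (x2 ∘ Sum.inr))) := by
    rw [hD3]
    apply Matrix.ext
    intro i j
    rcases j with j | j <;> rfl
  have e21 : D2 * D1 = 0 := by
    rw [hD1, hD2, ← mC_mul, Matrix.submatrix_mul_equiv, h21]
    apply Matrix.ext; intro i j; exact map_zero toC
  have e32 : D3 * D2 = 0 := by
    rw [hD3, hD2, ← mC_mul, Matrix.submatrix_mul_equiv, h32]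
    apply Matrix.ext; intro i j; exact map_zero toC
  obtain ⟨l0, l1, l2, l3, lt⟩ := b.laplacians _ _ _ _ _ _ _ _ D1 D2 D3 hD1' hD2' hD3' e21 e32 h1 h2 h3
  -- identify the Laplacians
  have i0 : rst D1 * D1 = mC (K.lap γ 0) := by
    rw [hD1, ← mC_adj, ← mC_mul]
    congr 1
    have : adj ((K.bd γ 0).submatrix x1 id) = (adj (K.bd γ 0)).submatrix id x1 := rfl
    rw [this, Matrix.submatrix_mul_equiv]
    rfl
  have i1 : D1 * rst D1 + rst D2 * D2 = (mC (K.lap γ 1)).submatrix x1 x1 := by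
    rw [hD1, hD2, ← mC_adj, ← mC_adj, ← mC_mul, ← mC_mul, ← mC_add]
    have e1 : adj ((K.bd γ 0).submatrix x1 id) = (adj (K.bd γ 0)).submatrix (Equiv.refl _) x1 := rfl
    have e2 : adj ((K.bd γ 1).submatrix x2 x1) = (adj (K.bd γ 1)).submatrix x1 x2 := rfl
    have e3 : (K.bd γ 0).submatrix x1 id = (K.bd γ 0).submatrix x1 (Equiv.refl _) := rfl
    rw [e1, e2, e3, Matrix.submatrix_mul_equiv, Matrix.submatrix_mul_equiv]
    rfl
  have i2 : D2 * rst D2 + rst D3 * D3 = (mC (K.lap γ 2)).submatrix x2 x2 := by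
    rw [hD3, hD2, ← mC_adj, ← mC_adj, ← mC_mul, ← mC_mul, ← mC_add]
    have e1 : adj ((K.bd γ 2).submatrix id x2) = (adj (K.bd γ 2)).submatrix x2 (Equiv.refl _) := rfl
    have e2 : adj ((K.bd γ 1).submatrix x2 x1) = (adj (K.bd γ 1)).submatrix x1 x2 := rfl
    have e3 : (K.bd γ 2).submatrix id x2 = (K.bd γ 2).submatrix (Equiv.refl _) x2 := rfl
    rw [e1, e2, e3, Matrix.submatrix_mul_equiv, Matrix.submatrix_mul_equiv]
    rfl
  have h4 : adj (K.bd γ 3) * K.bd γ 3 = 0 := by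
    have := hdim 4 le_rfl
    apply Matrix.ext
    intro i j
    rw [Matrix.mul_apply, Finset.univ_eq_empty, Finset.sum_empty]
    rfl
  have i3 : D3 * rst D3 = mC (K.lap γ 3) := by
    rw [hD3, ← mC_adj, ← mC_mul]
    congr 1
    have e1 : adj ((K.bd γ 2).submatrix id x2) = (adj (K.bd γ 2)).submatrix x2 id := rfl
    rw [e1, Matrix.submatrix_mul_equiv]
    change _ = K.bd γ 2 * adj (K.bd γ 2) + adj (K.bd γ 3) * K.bd γ 3
    rw [h4, add_zero]
    rfl
  rw [i0] at l0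
  rw [i1] at l1 lt
  rw [i2] at l2 lt
  rw [i3] at l3 lt
  have k1 := b.F_submatrix x1.symm x1.symm l1
  have k2 := b.F_submatrix x2.symm x2.symm l2
  rw [Matrix.submatrix_submatrix, Equiv.self_comp_symm, Matrix.submatrix_id_id] at k1 k2
  rw [← k1.2, ← k2.2] at lt
  have s0 := spectral_of_F b (K.lap_pos b γ 0) (K.lap_adj γ 0) l0
  have s1 := spectral_of_F b (K.lap_pos b γ 1) (K.lap_adj γ 1) k1.1
  have s2 := spectral_of_F b (K.lap_pos b γ 2) (K.lap_adj γ 2) k2.1
  have s3 := spectral_of_F b (K.lap_pos b γ 3) (K.lap_adj γ 3) l3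
  have s4 : ∀ p, spectralMeasure (K.lap γ (p + 4)) {0} = 0 ∧
      IntegrableOn Real.log (Set.Ioi 0) (spectralMeasure (K.lap γ (p + 4))) := fun p => by
    have := hdim (p + 4) (by omega)
    exact spectral_empty _
  refine ⟨?_, ?_, ?_⟩
  · intro p
    match p with
    | 0 => exact s0.1
    | 1 => exact s1.1
    | 2 => exact s2.1
    | 3 => exact s3.1
    | p + 4 => exact (s4 p).1
  · intro p
    refine ⟨spectralMeasure_spec b (K.lap_pos b γ p), ?_⟩
    match p with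
    | 0 => exact s0.2.1
    | 1 => exact s1.2.1
    | 2 => exact s2.2.1
    | 3 => exact s3.2.1
    | p + 4 => exact (s4 p).2
  · unfold torsion
    rw [Finset.sum_range_succ, Finset.sum_range_succ, Finset.sum_range_succ, Finset.sum_range_succ,
      Finset.sum_range_zero, s0.2.2, s1.2.2, s2.2.2, s3.2.2, ← lt]
    push_cast
    ring

end Delta

end Pool.Agent.MPfa412c
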