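import Pool.Agent.MPfa412c.Ldet

/-!
# The log-determinant as an integral against the spectral measure
-/

set_option linter.unusedSectionVars false

open Matrix MeasureTheory Filter Topology
open scoped ComplexOrder BoundedContinuousFunction

namespace Pool.Agent.MPfa412c

namespace TApprox

variable {S : Type*} [Ring S] {st : S → S} {τ : S → ℝ}

theorem Fin.spec {a : TApprox S st τ} {x : S} (hx : a.Fin x) {μ : Measure ℝ}
    (hμ : IsSpec τ (x * st x) μ) :
    μ {0} = 0 ∧ IntegrableOn Real.log (Set.Ioi 0) μ ∧
      1 / 2 * ∫ t in Set.Ioi 0, Real.log t ∂μ = a.ldet x := by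
  have := hμ.fin
  obtain ⟨C, hC⟩ := hμ.supp
  obtain ⟨B, hB⟩ := id hx
  set C' := max C 1 with hC'
  have hC1 : 1 ≤ C' := le_max_right _ _
  have hae : ∀ᵐ t ∂μ, t ∈ Set.Icc 0 C' := by
    rw [ae_iff]
    refine measure_mono_null ?_ hC
    apply Set.compl_subset_compl.2
    exact Set.Icc_subset_Icc_right (le_max_left _ _)
  have hres : μ = μ.restrict (Set.Icc 0 C') := by
    rw [Measure.restrict_eq_self_of_ae_mem hae]
  have hfi : ∀ g : ℝ → ℝ, ContinuousOn g (Set.Ici 0) → Integrable g μ := by
    intro g hg
    rw [hres]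
    exact (hg.mono (fun t ht => ht.1)).integrableOn_Icc
  set B' := Real.log (C' + 1) with hB'
  let e : ℕ → ℝ := fun n => 1 / ((n : ℝ) + 1)
  have he : ∀ n, 0 < e n := fun n => by positivity
  have he1 : ∀ n, e n ≤ 1 := fun n => by
    simp only [e]
    rw [div_le_one (by positivity)]
    have : (0 : ℝ) ≤ n := Nat.cast_nonneg n
    linarith
  have hanti : Antitone e := by
    intro n m hnm
    simp only [e]
    apply one_div_le_one_div_of_le (by positivity)
    have : (n : ℝ) ≤ m := by exact_mod_cast hnm
    linarith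
  have hetend : Tendsto e atTop (𝓝 0) := tendsto_one_div_add_atTop_nhds_zero_nat
  let f : ℕ → ℝ → ℝ := fun n t => Real.log (t + e n)
  have hfI : ∀ n, Integrable (f n) μ := fun n => hfi _ (contOn_log (he n))
  have hLf : ∀ n, a.L x (e n) = 1 / 2 * ∫ t, f n t ∂μ := fun n => a.L_eq_of_isSpec hμ (he n)
  let G : ℕ → ℝ → ENNReal := fun n t => ENNReal.ofReal (B' - f n t)
  have hGmeas : ∀ n, AEMeasurable (G n) μ := fun n =>
    ((hfI n).aestronglyMeasurable.aemeasurable.const_sub B').ennreal_ofReal
  have hfle : ∀ n, ∀ t ∈ Set.Icc 0 C', f n t ≤ B' := by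
    intro n t ht
    apply Real.log_le_log
    · have := he n; linarith [ht.1]
    · have := he1 n; linarith [ht.2]
  have hmono : ∀ᵐ t ∂μ, Monotone fun n => G n t := by
    filter_upwards [hae] with t ht
    intro n m hnm
    simp only [G]
    apply ENNReal.ofReal_le_ofReal
    have : f m t ≤ f n t := by
      apply Real.log_le_log
      · have := he m; linarith [ht.1]
      · linarith [hanti hnm]
    linarith
  have hlint : ∀ n, ∫⁻ t, G n t ∂μ ≤ ENNReal.ofReal (B' * μ.real Set.univ - 2 * B) := by
    intro n
    have h1 : ∫⁻ t, G n t ∂μ = ENNReal.ofReal (∫ t, (B' - f n t) ∂μ) := by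
      have hI : Integrable (fun t => B' - f n t) μ := (integrable_const _).sub (hfI n)
      rw [ofReal_integral_eq_lintegral_ofReal hI]
      filter_upwards [hae] with t ht
      have := hfle n t ht
      simp only [Pi.zero_apply]
      linarith
    rw [h1]
    apply ENNReal.ofReal_le_ofReal
    rw [integral_sub (integrable_const _) (hfI n), integral_const, smul_eq_mul]
    have := hB (e n) (he n)
    rw [hLf] at this
    nlinarith
  have hsup : ∫⁻ t, ⨆ n, G n t ∂μ ≤ ENNReal.ofReal (B' * μ.real Set.univ - 2 * B) := by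
    rw [lintegral_iSup' hGmeas hmono]
    exact iSup_le hlint
  have hsupfin : ∫⁻ t, ⨆ n, G n t ∂μ ≠ ⊤ := (hsup.trans_lt ENNReal.ofReal_lt_top).ne
  have hsupm : AEMeasurable (fun t => ⨆ n, G n t) μ := AEMeasurable.iSup hGmeas
  have hfin : ∀ᵐ t ∂μ, ⨆ n, G n t < ⊤ := ae_lt_top' hsupm hsupfin
  -- the atom at zero
  have h0top : ⨆ n, G n 0 = ⊤ := by
    rw [iSup_eq_top]
    intro b hb
    have hl : Tendsto (fun n : ℕ => B' - f n 0) atTop atTop := by
      simp only [f, e, zero_add]
      have : (fun n : ℕ => B' - Real.log (1 / ((n : ℝ) + 1))) = fun n : ℕ => B' + Real.log ((n : ℝ) + 1) := by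
        ext n
        rw [one_div, Real.log_inv]; ring
      rw [this]
      apply tendsto_atTop_add_const_left
      apply Real.tendsto_log_atTop.comp
      apply tendsto_atTop_add_const_right
      exact tendsto_natCast_atTop_atTop
    obtain ⟨n, hn⟩ := (hl.eventually_gt_atTop b.toReal).exists
    refine ⟨n, ?_⟩
    simp only [G]
    rw [← ENNReal.ofReal_toReal hb.ne]
    rw [ENNReal.ofReal_lt_ofReal_iff_of_nonneg ENNReal.toReal_nonneg]
    exact hn
  have hzero : μ {0} = 0 := by
    have h2 : ({0} : Set ℝ) ⊆ {t | ¬ (⨆ n, G n t < ⊤)} := by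
      intro t ht
      rw [Set.mem_singleton_iff] at ht
      subst ht
      simp [h0top]
    exact measure_mono_null h2 (ae_iff.1 hfin)
  have haepos : ∀ᵐ t ∂μ, t ∈ Set.Ioc 0 C' := by
    have h3 : ∀ᵐ t ∂μ, t ≠ 0 := by
      rw [ae_iff]; simpa using hzero
    filter_upwards [hae, h3] with t h4 h5
    exact ⟨lt_of_le_of_ne h4.1 (Ne.symm h5), h4.2⟩
  have hlim : ∀ t : ℝ, 0 < t → Tendsto (fun n => f n t) atTop (𝓝 (Real.log t)) := by
    intro t ht
    have h6 : Tendsto (fun n => t + e n) atTop (𝓝 (t + 0)) := tendsto_const_nhds.add hetend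
    rw [add_zero] at h6
    exact h6.log ht.ne'
  have hIlog : Integrable Real.log μ := by
    have h7 : Integrable (fun t => B' - Real.log t) μ := by
      refine ⟨(measurable_const.sub Real.measurable_log).aestronglyMeasurable, ?_⟩
      rw [hasFiniteIntegral_iff_ofReal]
      · refine lt_of_le_of_lt ?_ (hsup.trans_lt ENNReal.ofReal_lt_top)
        apply lintegral_mono_ae
        filter_upwards [haepos] with t ht
        apply le_of_tendsto' (x := atTop) (f := fun n => G n t)
        · exact ENNReal.tendsto_ofReal (tendsto_const_nhds.sub (hlim t ht.1))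
        · intro n
          exact le_iSup (fun n => G n t) n
      · filter_upwards [haepos] with t ht
        simp only [Pi.zero_apply, sub_nonneg]
        apply Real.log_le_log ht.1
        linarith [ht.2]
    have h8 := (integrable_const B').sub h7
    refine h8.congr (Filter.Eventually.of_forall fun t => ?_)
    simp
  refine ⟨hzero, hIlog.integrableOn, ?_⟩
  have hrestr : ∫ t in Set.Ioi 0, Real.log t ∂μ = ∫ t, Real.log t ∂μ := by
    rw [Measure.restrict_eq_self_of_ae_mem]
    filter_upwards [haepos] with t ht using ht.1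
  rw [hrestr]
  have hdc : Tendsto (fun n => ∫ t, f n t ∂μ) atTop (𝓝 (∫ t, Real.log t ∂μ)) := by
    apply tendsto_integral_of_dominated_convergence (fun t => |Real.log t| + |B'|)
    · exact fun n => (hfI n).aestronglyMeasurable
    · exact hIlog.abs.add (integrable_const _)
    · intro n
      filter_upwards [haepos] with t ht
      have h9 := hfle n t ⟨ht.1.le, ht.2⟩
      have h10 : Real.log t ≤ f n t := by
        apply Real.log_le_log ht.1
        linarith [he n]
      rw [Real.norm_eq_abs, abs_le]
      constructor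
      · have := neg_abs_le (Real.log t)
        have := abs_nonneg B'
        linarith
      · have := le_abs_self B'
        have := abs_nonneg (Real.log t)
        linarith
    · filter_upwards [haepos] with t ht using hlim t ht.1
  have hL : Tendsto (fun n => a.L x (e n)) atTop (𝓝 (a.ldet x)) := by
    refine hx.tendsto.comp ?_
    rw [tendsto_nhdsWithin_iff]
    exact ⟨hetend, Filter.Eventually.of_forall he⟩
  refine tendsto_nhds_unique (hdc.const_mul (1 / 2)) (hL.congr fun n => ?_)
  rw [hLf]

/-- Jensen-type upper bound. -/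
theorem L_le_log {a : TApprox S st τ} {x : S} (hτ : τ 1 = 1) {ε : ℝ} (hε : 0 < ε) :
    a.L x ε ≤ 1 / 2 * Real.log (τ (x * st x) + ε) := by
  have hμ := a.mu_spec x
  have := hμ.fin
  obtain ⟨C, hC⟩ := hμ.supp
  have hae : ∀ᵐ t ∂(a.mu x), t ∈ Set.Icc 0 C := by
    rw [ae_iff]; exact hC
  have hres : a.mu x = (a.mu x).restrict (Set.Icc 0 C) := by
    rw [Measure.restrict_eq_self_of_ae_mem hae]
  have hfi : ∀ g : ℝ → ℝ, ContinuousOn g (Set.Ici 0) → Integrable g (a.mu x) := by
    intro g hg
    rw [hres]
    exact (hg.mono (fun t ht => ht.1)).integrableOn_Icc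
  have h0 : (a.mu x).real Set.univ = 1 := by
    have := hμ.mom 0
    simp only [pow_zero, hτ] at this
    simpa using this
  have hm : ∫ t, t ∂(a.mu x) = τ (x * st x) := by
    have := hμ.mom 1
    simpa using this
  have hprob : IsProbabilityMeasure (a.mu x) := by
    constructor
    have : (a.mu x Set.univ).toReal = 1 := h0
    rw [← ENNReal.ofReal_toReal (measure_ne_top (a.mu x) Set.univ), this, ENNReal.ofReal_one]
  set c := τ (x * st x) + ε with hc
  have hcpos : 0 < c := by
    have : 0 ≤ τ (x * st x) := by
      rw [← hm]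
      apply integral_nonneg_of_ae
      filter_upwards [hae] with t ht using ht.1
    linarith
  -- tangent line inequality log s ≤ log c + (s - c)/c
  have htan : ∀ t : ℝ, 0 ≤ t → Real.log (t + ε) ≤ Real.log c + (t + ε - c) / c := by
    intro t ht
    have h1 : 0 < (t + ε) / c := by positivity
    have h2 := Real.log_le_sub_one_of_pos h1
    rw [Real.log_div (by positivity) hcpos.ne'] at h2
    have h3 : (t + ε - c) / c = (t + ε) / c - 1 := by field_simp
    rw [h3]; linarith
  unfold L
  apply mul_le_mul_of_nonneg_left _ (by norm_num)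
  calc ∫ t, Real.log (t + ε) ∂(a.mu x) ≤ ∫ t, (Real.log c + (t + ε - c) / c) ∂(a.mu x) := by
        apply integral_mono_ae (hfi _ (contOn_log hε)) (hfi _ (by fun_prop))
        filter_upwards [hae] with t ht using htan t ht.1
    _ = Real.log c := by
        have e1 : ∀ t : ℝ, Real.log c + (t + ε - c) / c = (1 / c) * t + (Real.log c + (ε - c) / c) := by
          intro t; field_simp; ring
        simp_rw [e1]
        rw [integral_add (hfi _ (by fun_prop)) (integrable_const _), integral_const_mul, hm,
          integral_const, smul_eq_mul, h0, one_mul]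
        rw [hc]
        field_simp
        ring

end TApprox

end Pool.Agent.MPfa412c
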