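import Pool.Agent.MPfa412c.Manifold

/-!
# Checking connectedness of links for complexes with one vertex
-/

namespace Pool.Agent.MPfa412c

namespace Delta

/-- faces in the vertex link, raw version, from dimension one to zero -/
def dL (K : Delta) (i : Fin 2) (q : K.X 2 × Fin 3) : K.X 1 × Fin 2 :=
  (K.d 1 (q.2.succAbove i) q.1, i.predAbove q.2)

/-- faces in the link of a link vertex, raw version, from dimension one to zero -/
def dLL (K : Delta) (i : Fin 2) (e : (K.X 3 × Fin 4) × Fin 3) : (K.X 2 × Fin 3) × Fin 2 :=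
  ((K.d 2 (e.1.2.succAbove (e.2.succAbove i)) e.1.1, (e.2.succAbove i).predAbove e.1.2),
    i.predAbove e.2)

/-- the link vertex over which a corner lies -/
def ovr (K : Delta) (q : (K.X 2 × Fin 3) × Fin 2) : K.X 1 × Fin 2 := K.dL (Fin.rev q.2) q.1

theorem link_connected_of (K : Delta) [Subsingleton (K.X 0)] (v : K.X 0) (root : K.X 1 × Fin 2)
    (rank : K.X 1 × Fin 2 → ℕ)
    (h : ∀ s, s = root ∨ ∃ q : K.X 2 × Fin 3, (K.dL 0 q = s ∧ rank (K.dL 1 q) < rank s) ∨
      (K.dL 1 q = s ∧ rank (K.dL 0 q) < rank s)) : (K.link v).Connected := by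
  refine connected_of_rank (K := K.link v) ⟨root, Subsingleton.elim _ _⟩ (fun s => rank s.1) ?_
  intro s
  rcases h s.1 with h1 | ⟨q, ⟨h1, h2⟩ | ⟨h1, h2⟩⟩
  · left; exact Subtype.ext h1
  · right
    refine ⟨⟨q, Subsingleton.elim _ _⟩, Or.inl ⟨Subtype.ext h1, h2⟩⟩
  · right
    refine ⟨⟨q, Subsingleton.elim _ _⟩, Or.inr ⟨Subtype.ext h1, h2⟩⟩

theorem link_link_connected_of (K : Delta) [Subsingleton (K.X 0)]
    (root : K.X 1 × Fin 2 → (K.X 2 × Fin 3) × Fin 2)
    (rank : (K.X 2 × Fin 3) × Fin 2 → ℕ)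
    (hroot : ∀ w, K.ovr (root w) = w)
    (h : ∀ q, q = root (K.ovr q) ∨ ∃ e : (K.X 3 × Fin 4) × Fin 3,
      (K.dLL 0 e = q ∧ rank (K.dLL 1 e) < rank q) ∨ (K.dLL 1 e = q ∧ rank (K.dLL 0 e) < rank q))
    (v : K.X 0) (w : (K.link v).X 0) : ((K.link v).link w).Connected := by
  -- the raw description of the vertex of a link edge
  have hover : ∀ (q : (K.link v).X 1) (k : Fin 2), ((K.link v).vertex 1 k q).1 = K.ovr (q.1, k) := by
    intro q k
    rw [vertex_one]
    rfl
  have hr : (K.link v).vertex 1 (root w.1).2 ⟨(root w.1).1, Subsingleton.elim _ _⟩ = w := by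
    apply Subtype.ext
    rw [hover]
    exact hroot w.1
  refine connected_of_rank (K := (K.link v).link w) ⟨(⟨(root w.1).1, Subsingleton.elim _ _⟩, (root w.1).2), hr⟩
    (fun s => rank (s.1.1.1, s.1.2)) ?_
  intro s
  obtain ⟨⟨⟨q, hq⟩, k⟩, hs⟩ := s
  have hs' : K.ovr (q, k) = w.1 := by
    have := congrArg Subtype.val hs
    rw [hover] at this
    exact this
  have key : ∀ (e : (K.X 3 × Fin 4) × Fin 3) (i : Fin 2), K.dLL i e = (q, k) →
      (K.link v).vertex 2 e.2 ⟨e.1, Subsingleton.elim _ _⟩ = w := by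
    intro e i he
    have h1 := (K.link v).vertex_d 1 (e.2.succAbove i) (i.predAbove e.2) ⟨e.1, Subsingleton.elim _ _⟩
    rw [Fin.succAbove_succAbove_predAbove] at h1
    rw [← h1]
    apply Subtype.ext
    rw [hover, ← hs']
    exact congrArg K.ovr he
  rcases h (q, k) with h1 | ⟨e, ⟨h1, h2⟩ | ⟨h1, h2⟩⟩
  · left
    apply Subtype.ext
    rw [hs'] at h1
    have h3 : q = (root w.1).1 := congrArg Prod.fst h1
    have h4 : k = (root w.1).2 := congrArg Prod.snd h1
    exact Prod.ext (Subtype.ext h3) h4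
  · right
    refine ⟨⟨(⟨e.1, Subsingleton.elim _ _⟩, e.2), key e 0 h1⟩, Or.inl ⟨?_, h2⟩⟩
    apply Subtype.ext
    have h3 : (K.dLL 0 e).1 = q := congrArg Prod.fst h1
    have h4 : (K.dLL 0 e).2 = k := congrArg Prod.snd h1
    exact Prod.ext (Subtype.ext h3) h4
  · right
    refine ⟨⟨(⟨e.1, Subsingleton.elim _ _⟩, e.2), key e 1 h1⟩, Or.inr ⟨?_, h2⟩⟩
    apply Subtype.ext
    have h3 : (K.dLL 1 e).1 = q := congrArg Prod.fst h1
    have h4 : (K.dLL 1 e).2 = k := congrArg Prod.snd h1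
    exact Prod.ext (Subtype.ext h3) h4

/-- Counting simplices of the vertex link. -/
lemma card_link (K : Delta) [Subsingleton (K.X 0)] (v : K.X 0) (p : ℕ) :
    Nat.card ((K.link v).X p) = Nat.card (K.X (p + 1)) * (p + 2) := by
  have e : (K.link v).X p ≃ K.X (p + 1) × Fin (p + 2) :=
    { toFun := fun s => s.1
      invFun := fun s => ⟨s, Subsingleton.elim _ _⟩
      left_inv := fun s => rfl
      right_inv := fun s => rfl }
  rw [Nat.card_congr e, Nat.card_prod, Nat.card_fin]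

end Delta

end Pool.Agent.MPfa412c
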