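import Pool.Agent.MPfa412c.Data
import Pool.Agent.MPfa412c.OneVertex
import Pool.Agent.MPfa412c.Assemble

/-!
# The explicit triangulated 3-manifold
-/

set_option linter.unusedSectionVars false

open MonoidAlgebra

namespace Pool.Agent.MPfa412c.Model

open Data

/-- numbers of simplices -/
def sz : ℕ → ℕ
  | 0 => 1
  | 1 => 31
  | 2 => 60
  | 3 => 30
  | _ => 0

/-- faces of triangles -/
def face2 (i f : ℕ) : ℕ :=
  match i, t2.getD f (0, 0, 0) with
  | 0, q => q.1
  | 1, q => q.2.1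
  | _, q => q.2.2

/-- faces of tetrahedra -/
def face3 (i t : ℕ) : ℕ :=
  match i, t3.getD t (0, 0, 0, 0) with
  | 0, q => q.1
  | 1, q => q.2.1
  | 2, q => q.2.2.1
  | _, q => q.2.2.2

/-- the face maps -/
def dd : ∀ p : ℕ, Fin (p + 2) → Fin (sz (p + 1)) → Fin (sz p)
  | 0, _, _ => (0 : Fin 1)
  | 1, i, f => Fin.ofNat 31 (face2 i f)
  | 2, i, t => Fin.ofNat 60 (face3 i t)
  | _ + 3, _, x => x.elim0

lemma comm_one : ∀ (i j : Fin 3) (_ : i ≤ j) (x : Fin 30),
    dd 1 i (dd 2 j.succ x) = dd 1 j (dd 2 i.castSucc x) := by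
  decide +kernel

/-- the complex -/
def K : Delta where
  X p := Fin (sz p)
  d := dd
  comm := fun p => match p with
    | 0 => fun _ _ _ _ => Subsingleton.elim (α := Fin 1) _ _
    | 1 => comm_one
    | 2 => fun _ _ _ x => Fin.elim0 x
    | _ + 3 => fun _ _ _ x => Fin.elim0 x

instance instFintypeX (p : ℕ) : Fintype (K.X p) := inferInstanceAs (Fintype (Fin (sz p)))
instance instDecX (p : ℕ) : DecidableEq (K.X p) := inferInstanceAs (DecidableEq (Fin (sz p)))
instance instSub : Subsingleton (K.X 0) := inferInstanceAs (Subsingleton (Fin 1))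

/-- the cocycle -/
def γ (e : K.X 1) : G3 :=
  ⟨(tg.getD (show Fin 31 from e).val (0, 0, 0)).1, (tg.getD (show Fin 31 from e).val (0, 0, 0)).2.1,
    (tg.getD (show Fin 31 from e).val (0, 0, 0)).2.2⟩

lemma cocycle : K.IsCocycle γ := by
  unfold Delta.IsCocycle
  decide +kernel

/-- raw tetrahedra containing a triangle -/
lemma two_cofaces : ∀ f : Fin 60,
    (Finset.univ.filter fun t : Fin 30 × Fin 4 => dd 2 t.2 t.1 = f).card = 2 := by
  decide +kernel

/-- rank in the vertex link -/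
def rankL (s : Fin 31 × Fin 2) : ℕ := tabL.getD (s.1.val * 2 + s.2.val) 0 % 100

/-- code of the connecting edge in the vertex link -/
def codeL (s : Fin 31 × Fin 2) : ℕ := tabL.getD (s.1.val * 2 + s.2.val) 0 / 100

/-- connecting edge -/
def edgeL (s : Fin 31 × Fin 2) : Fin 60 × Fin 3 :=
  (Fin.ofNat 60 (codeL s / 6), Fin.ofNat 3 (codeL s / 2 % 3))

lemma checkL : ∀ s : K.X 1 × Fin 2, s = ((0 : Fin 31), (0 : Fin 2)) ∨
    ((K.dL 0 (edgeL s) = s ∧ rankL (K.dL 1 (edgeL s)) < rankL s) ∨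
      (K.dL 1 (edgeL s) = s ∧ rankL (K.dL 0 (edgeL s)) < rankL s)) := by
  decide +kernel

/-- rank in the links of link vertices -/
def rankLL (q : (Fin 60 × Fin 3) × Fin 2) : ℕ :=
  tabLL.getD ((q.1.1.val * 3 + q.1.2.val) * 2 + q.2.val) 0 % 100

/-- code of the connecting edge -/
def codeLL (q : (Fin 60 × Fin 3) × Fin 2) : ℕ :=
  tabLL.getD ((q.1.1.val * 3 + q.1.2.val) * 2 + q.2.val) 0 / 100

/-- connecting edge -/
def edgeLL (q : (Fin 60 × Fin 3) × Fin 2) : (Fin 30 × Fin 4) × Fin 3 :=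
  ((Fin.ofNat 30 (codeLL q / 24), Fin.ofNat 4 (codeLL q / 6 % 4)), Fin.ofNat 3 (codeLL q / 2 % 3))

/-- roots -/
def rootLL (w : Fin 31 × Fin 2) : (Fin 60 × Fin 3) × Fin 2 :=
  ((Fin.ofNat 60 (tabR.getD (w.1.val * 2 + w.2.val) 0 / 6),
    Fin.ofNat 3 (tabR.getD (w.1.val * 2 + w.2.val) 0 / 2 % 3)),
    Fin.ofNat 2 (tabR.getD (w.1.val * 2 + w.2.val) 0 % 2))

lemma checkR : ∀ w : K.X 1 × Fin 2, K.ovr (rootLL w) = w := by
  decide +kernel

lemma checkLL : ∀ q : (K.X 2 × Fin 3) × Fin 2, q = rootLL (K.ovr q) ∨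
    ((K.dLL 0 (edgeLL q) = q ∧ rankLL (K.dLL 1 (edgeLL q)) < rankLL q) ∨
      (K.dLL 1 (edgeLL q) = q ∧ rankLL (K.dLL 0 (edgeLL q)) < rankLL q)) := by
  decide +kernel

lemma isEmptyX : ∀ p, 4 ≤ p → IsEmpty (K.X p) := by
  intro p hp
  obtain ⟨q, rfl⟩ := Nat.exists_eq_add_of_le' hp
  exact inferInstanceAs (IsEmpty (Fin 0))

/-- The complex is a closed 3-manifold. -/
theorem isClosed3Manifold : K.IsClosed3Manifold := by
  refine Delta.isClosed3Manifold_of (fun p => inferInstanceAs (Finite (Fin (sz p)))) isEmptyX ?_ ?_ ?_ ?_ ?_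
  · refine ⟨⟨(0 : Fin 1)⟩, fun v w => ?_⟩
    have : v = w := Subsingleton.elim _ _
    rw [this]
    exact Relation.EqvGen.refl _
  · intro f
    have h := two_cofaces f
    have h2 : Nat.card (K.cof 2 f) = Nat.card {t : Fin 30 × Fin 4 // dd 2 t.2 t.1 = f} := rfl
    rw [h2, Nat.card_eq_fintype_card, Fintype.card_subtype]
    exact h
  · intro v
    refine K.link_connected_of v ((0 : Fin 31), (0 : Fin 2)) rankL ?_
    intro s
    rcases checkL s with h | h
    · exact Or.inl h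
    · exact Or.inr ⟨edgeL s, h⟩
  · refine K.link_link_connected_of rootLL rankLL checkR ?_
    intro q
    rcases checkLL q with h | h
    · exact Or.inl h
    · exact Or.inr ⟨edgeLL q, h⟩
  · intro v
    rw [Delta.card_link, Delta.card_link, Delta.card_link]
    have h1 : Nat.card (K.X (0 + 1)) = 31 := Nat.card_fin 31
    have h2 : Nat.card (K.X (1 + 1)) = 60 := Nat.card_fin 60
    have h3 : Nat.card (K.X (2 + 1)) = 30 := Nat.card_fin 30
    rw [h1, h2, h3]
    norm_num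

end Pool.Agent.MPfa412c.Model
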