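import Pool.Agent.MPfa412c.Tri

/-!
# Log-determinants of `1 - g` for `g` of infinite order in a quotient `ℤ`
-/

set_option linter.unusedSectionVars false

open Matrix MeasureTheory Filter Topology MonoidAlgebra
open scoped ComplexOrder ComplexConjugate

namespace Pool.Agent.MPfa412c

/-- unit complex numbers have unit roots of any nonzero integral order -/
lemma exists_unit_zpow {m : ℤ} (hm : m ≠ 0) {w : ℂ} (hw : ‖w‖ = 1) : ∃ z : ℂ, ‖z‖ = 1 ∧ z ^ m = w := by
  refine ⟨Complex.exp (((w.arg / m : ℝ) : ℂ) * Complex.I), Complex.norm_exp_ofReal_mul_I _, ?_⟩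
  rw [← Complex.exp_int_mul]
  have h1 : (m : ℂ) * ((((w.arg / m : ℝ) : ℂ)) * Complex.I) = (w.arg : ℂ) * Complex.I := by
    have : (m : ℂ) ≠ 0 := by exact_mod_cast hm
    push_cast
    field_simp
  rw [h1]
  have h2 := Complex.norm_mul_exp_arg_mul_I w
  rw [hw] at h2
  simpa using h2

namespace GApprox

variable {Γ : Type*} [Group Γ] (b : GApprox Γ)

lemma one_sub_u_aux' (φ : Γ →* Multiplicative ℤ) {g : Γ} (hg : φ g ≠ 1) :
    b.F (sc (1 - u g)) ∧ 0 ≤ b.dt (sc (1 - u g)) := by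
  have hm : Multiplicative.toAdd (φ g) ≠ 0 := fun h => hg (by
    rw [← ofAdd_toAdd (φ g), h, ofAdd_zero])
  -- choose twists
  have hex : ∀ i : b.ι, ∃ z : ℂ, ‖z‖ = 1 ∧ 1 ≤ ‖(b.lift i (1 - chr φ z g • u g)).det‖ := by
    intro i
    obtain ⟨w, hw, h⟩ := exists_unit_det_ge (1 : Matrix (b.D i) (b.D i) ℂ) (-(b.ρ i g))
    obtain ⟨z, hz, hzw⟩ := exists_unit_zpow hm hw
    refine ⟨z, hz, ?_⟩
    rw [Matrix.det_one, norm_one] at h
    rw [map_sub, map_one, map_smul, lift_u]
    unfold chr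
    rw [hzw]
    rwa [smul_neg, ← sub_eq_add_neg] at h
  choose z hz hdet using hex
  have hb : ∀ ε : ℝ, 0 < ε → 0 ≤ (b.toT Unit).L (sc (1 - u g)) ε := by
    intro ε hε
    rw [(b.toT Unit).L_eq ((b.twist φ z hz).toT Unit) _ hε]
    apply (b.twist φ z hz).le_L_sc hε
    intro i
    rw [twist_lift]
    have h1 : tw φ (z i) (hz i) (1 - u g) = 1 - chr φ (z i) g • u g := by
      rw [map_sub, map_one, tw_u]
    rw [h1]
    have h2 := hdet i
    refine ⟨fun h0 => ?_, ?_⟩
    · have h3 : (b.lift i (1 - chr φ (z i) g • u g)).det = 0 := h0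
      rw [h3, norm_zero] at h2
      linarith
    · rw [zero_mul]
      exact Real.log_nonneg h2
  exact ⟨⟨0, hb⟩, (b.toT Unit).le_ldet hb⟩

/-- `log det (1 - g) = 0` for `g` mapped to a non-trivial element of `ℤ`. -/
theorem F_one_sub_u' (φ : Γ →* Multiplicative ℤ) {g : Γ} (hg : φ g ≠ 1) :
    b.F (sc (1 - u g)) ∧ b.dt (sc (1 - u g)) = 0 := by
  obtain ⟨hF, h0⟩ := b.one_sub_u_aux' φ hg
  have hm : Multiplicative.toAdd (φ g) ≠ 0 := fun h => hg (by
    rw [← ofAdd_toAdd (φ g), h, ofAdd_zero])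
  refine ⟨hF, le_antisymm ?_ h0⟩
  -- doubling
  have hpow : ∀ k : ℕ, b.F (sc (1 - u g ^ (2 ^ k))) ∧
      b.dt (sc (1 - u g ^ (2 ^ k))) = 2 ^ k * b.dt (sc (1 - u g)) := by
    intro k
    induction k with
    | zero => simpa using hF
    | succ k ih =>
      -- choose z with (z ^ m) ^ (2^k) = -1
      obtain ⟨z, hz, hzk⟩ : ∃ z : ℂ, ‖z‖ = 1 ∧ (chr φ z g) ^ (2 ^ k) = -1 := by
        obtain ⟨y, hy, hyk⟩ : ∃ z : ℂ, ‖z‖ = 1 ∧ z ^ (2 ^ k) = -1 := by
          refine ⟨Complex.exp (Real.pi / 2 ^ k * Complex.I), ?_, ?_⟩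
          · have := Complex.norm_exp_ofReal_mul_I (Real.pi / 2 ^ k)
            push_cast at this
            exact this
          · rw [← Complex.exp_nat_mul]
            rw [show (((2 ^ k : ℕ) : ℂ)) * (Real.pi / 2 ^ k * Complex.I) = Real.pi * Complex.I by
              push_cast
              field_simp]
            exact Complex.exp_pi_mul_I
        obtain ⟨z, hz, hzy⟩ := exists_unit_zpow hm hy
        refine ⟨z, hz, ?_⟩
        unfold chr
        rw [hzy, hyk]
      have h1 : tw φ z hz (1 - u g ^ (2 ^ k)) = 1 + u g ^ (2 ^ k) := by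
        rw [map_sub, map_one, map_pow, tw_u, smul_pow, hzk]
        simp
      have h2 := b.F_tw φ hz ih.1
      rw [h1] at h2
      have h3 := b.F_mul ih.1 h2.1
      rw [sc_mul] at h3
      have h4 : (1 - u g ^ (2 ^ k)) * (1 + u g ^ (2 ^ k)) = 1 - u g ^ (2 ^ (k + 1)) := by
        rw [pow_succ 2 k, pow_mul]
        noncomm_ring
      rw [h4] at h3
      refine ⟨h3.1, ?_⟩
      rw [h3.2, h2.2, ih.2]
      ring
  have hup : ∀ k : ℕ, 2 ^ k * b.dt (sc (1 - u g)) ≤ 1 / 2 * Real.log 2 := by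
    intro k
    rw [← (hpow k).2]
    have hgk : g ^ (2 ^ k) ≠ 1 := by
      intro h
      have h1 := congrArg φ h
      rw [map_pow, map_one φ] at h1
      have h2 := congrArg Multiplicative.toAdd h1
      rw [toAdd_pow, toAdd_one, smul_eq_zero] at h2
      rcases h2 with h2 | h2
      · exact absurd h2 (by positivity)
      · exact hm h2
    have htr : gtr ((1 - u g ^ (2 ^ k)) * gst (1 - u g ^ (2 ^ k))) = 2 := by
      classical
      rw [u_pow]
      set h := g ^ (2 ^ k)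
      have e1 : gst (1 - u h) = 1 - u h⁻¹ := by
        rw [gst_sub, gst_one, gst_u]
      rw [e1]
      have e2 : (1 - u h) * (1 - u h⁻¹) = 1 + 1 - u h - u h⁻¹ := by
        have : u h * u h⁻¹ = 1 := by rw [u_mul, mul_inv_cancel, u_one]
        rw [sub_mul, mul_sub, mul_sub, this]
        simp
        abel
      rw [e2]
      unfold gtr
      have e3 : (1 : MonoidAlgebra ℂ Γ).coeff 1 = 1 := by
        rw [MonoidAlgebra.one_def, coeff_single]; simp
      rw [coeff_sub, coeff_sub, coeff_add]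
      simp only [Finsupp.coe_sub, Finsupp.coe_add, Pi.sub_apply, Pi.add_apply, e3, coeff_u_one]
      rw [if_neg hgk, if_neg (by simpa using hgk)]
      norm_num
    have h5 := b.dt_le_log (hpow k).1 (by rw [htr]; norm_num)
    rwa [htr] at h5
  by_contra hc
  push Not at hc
  -- 2^k c unbounded
  obtain ⟨k, hk⟩ := pow_unbounded_of_one_lt (Real.log 2 / b.dt (sc (1 - u g))) one_lt_two
  have h6 := hup k
  rw [div_lt_iff₀ hc] at hk
  have : 0 < Real.log 2 := Real.log_pos one_lt_two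
  linarith

/-- `log det (g - 1) = 0` -/
theorem F_u_sub_one (φ : Γ →* Multiplicative ℤ) {g : Γ} (hg : φ g ≠ 1) :
    b.F (sc (u g - 1)) ∧ b.dt (sc (u g - 1)) = 0 := by
  have h1 := b.F_one_sub_u' φ hg
  have h2 : b.F (sc (-1 : MonoidAlgebra ℂ Γ)) ∧ b.dt (sc (-1 : MonoidAlgebra ℂ Γ)) = 0 := by
    apply b.F_unitary
    have : gst (-1 : MonoidAlgebra ℂ Γ) = -1 := by
      have := gst_sub (0 : MonoidAlgebra ℂ Γ) 1
      rw [gst_zero, gst_one] at this
      simpa using this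
    rw [mst_sc, sc_mul, this]
    simp [sc_one]
  have h3 := b.F_mul h2.1 h1.1
  rw [sc_mul] at h3
  have h4 : (-1 : MonoidAlgebra ℂ Γ) * (1 - u g) = u g - 1 := by rw [neg_one_mul, neg_sub]
  rw [h4] at h3
  exact ⟨h3.1, by rw [h3.2, h2.2, h1.2, add_zero]⟩

end GApprox

end Pool.Agent.MPfa412c
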