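import Pool.Agent.MPfa412c.Chain

/-!
# Sparse matrices over the integral group ring of the Heisenberg group
-/

set_option linter.unusedSectionVars false

open MonoidAlgebra

namespace Pool.Agent.MPfa412c

/-- A monomial in a row vector: column `j`, group element `(x, z, y)`, coefficient `c`. -/
structure Mono where
  j : ℕ
  y : ℤ
  x : ℤ
  z : ℤ
  c : ℤ
deriving DecidableEq

/-- the value of a monomial in column `j` -/
noncomputable def Mono.val (m : Mono) (j : ℕ) : MonoidAlgebra ℤ G3 :=
  if m.j = j then MonoidAlgebra.single ⟨m.x, m.z, m.y⟩ m.c else 0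

/-- the value of a sparse row in column `j` -/
noncomputable def rowVal : List Mono → ℕ → MonoidAlgebra ℤ G3
  | [], _ => 0
  | m :: r, j => m.val j + rowVal r j

lemma rowVal_append (r s : List Mono) (j : ℕ) : rowVal (r ++ s) j = rowVal r j + rowVal s j := by
  induction r with
  | nil => simp [rowVal]
  | cons m r ih => rw [List.cons_append, rowVal, rowVal, ih, add_assoc]

/-- comparison of integers through the sign of the difference -/
def cmpZ (a b : ℤ) (l e g : Bool) : Bool :=
  match a - b with
  | Int.ofNat 0 => e
  | Int.ofNat (_ + 1) => g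
  | Int.negSucc _ => l

/-- same position and group element -/
def Mono.same (m n : Mono) : Bool := m.j == n.j && m.y == n.y && m.x == n.x && m.z == n.z

/-- ordering used for merging -/
def Mono.lt (m n : Mono) : Bool :=
  if m.j == n.j then
    if m.y == n.y then
      if m.x == n.x then decide (m.z < n.z) else decide (m.x < n.x)
    else decide (m.y < n.y)
  else Nat.blt m.j n.j

lemma Mono.val_same {m n : Mono} (h : m.same n = true) (j : ℕ) :
    m.val j + n.val j = Mono.val ⟨m.j, m.y, m.x, m.z, m.c + n.c⟩ j := by
  unfold Mono.same at h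
  simp only [Bool.and_eq_true, beq_iff_eq] at h
  obtain ⟨⟨⟨h1, h2⟩, h3⟩, h4⟩ := h
  unfold Mono.val
  rw [← h1, ← h2, ← h3, ← h4]
  by_cases hj : m.j = j
  · simp only [hj, if_true, MonoidAlgebra.single_add]
  · simp [hj]

/-- merging, inner recursion -/
def mergeAux (m : Mono) (r : List Mono) (f : List Mono → List Mono) : List Mono → List Mono
  | [] => m :: r
  | n :: s =>
    if m.same n then
      match m.c + n.c with
      | Int.ofNat 0 => f s
      | Int.ofNat (k + 1) => ⟨m.j, m.y, m.x, m.z, Int.ofNat (k + 1)⟩ :: f s
      | Int.negSucc k => ⟨m.j, m.y, m.x, m.z, Int.negSucc k⟩ :: f s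
    else if m.lt n then m :: f (n :: s) else n :: mergeAux m r f s

/-- merging of sparse rows -/
def merge : List Mono → List Mono → List Mono
  | [] => fun s => s
  | m :: r => mergeAux m r (merge r)

lemma rowVal_mergeAux (m : Mono) (r : List Mono) (f : List Mono → List Mono) (j : ℕ)
    (hf : ∀ s, rowVal (f s) j = rowVal r j + rowVal s j) (s : List Mono) :
    rowVal (mergeAux m r f s) j = rowVal (m :: r) j + rowVal s j := by
  induction s with
  | nil => simp [mergeAux, rowVal]
  | cons n s ih =>
    unfold mergeAux
    split
    · rename_i h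
      have h1 := Mono.val_same h j
      have h2 : rowVal (m :: r) j + rowVal (n :: s) j
          = Mono.val ⟨m.j, m.y, m.x, m.z, m.c + n.c⟩ j + (rowVal r j + rowVal s j) := by
        rw [rowVal, rowVal, ← h1]; abel
      rw [h2]
      split
      · rename_i h3
        have h4 : m.c + n.c = 0 := h3
        rw [hf, h4]
        unfold Mono.val
        simp
      · rename_i k h3
        rw [rowVal, hf, h3]
      · rename_i k h3
        rw [rowVal, hf, h3]
    · split
      · simp only [rowVal, hf]
        abel
      · rw [rowVal, ih]
        rw [rowVal, rowVal]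
        abel

lemma rowVal_merge (r s : List Mono) (j : ℕ) : rowVal (merge r s) j = rowVal r j + rowVal s j := by
  induction r generalizing s with
  | nil => simp [merge, rowVal]
  | cons m r ih =>
    unfold merge
    exact rowVal_mergeAux m r _ j (fun s => ih s) s

/-- scaling a row from the left by a group ring monomial -/
def scale (m : Mono) : List Mono → List Mono
  | [] => []
  | n :: s => ⟨n.j, m.y + n.y, m.x + n.x, m.z + n.z + m.y * n.x, m.c * n.c⟩ :: scale m s

lemma rowVal_scale (m : Mono) (s : List Mono) (j : ℕ) :
    rowVal (scale m s) j = MonoidAlgebra.single ⟨m.x, m.z, m.y⟩ m.c * rowVal s j := by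
  induction s with
  | nil => simp [scale, rowVal]
  | cons n s ih =>
    unfold scale
    rw [rowVal, rowVal, ih, mul_add]
    congr 1
    unfold Mono.val
    by_cases hj : n.j = j
    · simp only [hj, if_true]
      rw [MonoidAlgebra.single_mul_single]
      congr 1
    · simp [hj]

/-- product of a row with a matrix given by its rows -/
def rowMul (U : ℕ → List Mono) : List Mono → List Mono
  | [] => []
  | m :: r => merge (scale m (U m.j)) (rowMul U r)

lemma rowVal_rowMul (U : ℕ → List Mono) (n : ℕ) (r : List Mono) (hr : ∀ m ∈ r, m.j < n) (j : ℕ) :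
    rowVal (rowMul U r) j = ∑ k ∈ Finset.range n, rowVal r k * rowVal (U k) j := by
  induction r with
  | nil => simp [rowMul, rowVal]
  | cons m r ih =>
    rw [rowMul, rowVal_merge, ih (fun m' hm' => hr m' (List.mem_cons_of_mem _ hm')), rowVal_scale]
    simp only [rowVal]
    simp_rw [add_mul]
    rw [Finset.sum_add_distrib]
    congr 1
    rw [Finset.sum_eq_single m.j]
    · unfold Mono.val; rw [if_pos rfl]
    · intro b _ hb
      unfold Mono.val
      rw [if_neg (Ne.symm hb), zero_mul]
    · intro h
      exact absurd (Finset.mem_range.2 (hr m List.mem_cons_self)) h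

/-- boolean equality of sparse rows -/
def rowSame : List Mono → List Mono → Bool
  | [], [] => true
  | m :: r, n :: s => m.same n && m.c == n.c && rowSame r s
  | _, _ => false

lemma eq_of_rowSame : ∀ {r s : List Mono}, rowSame r s = true → r = s := by
  intro r
  induction r with
  | nil =>
    intro s h
    cases s with
    | nil => rfl
    | cons n s => simp [rowSame] at h
  | cons m r ih =>
    intro s h
    cases s with
    | nil => simp [rowSame] at h
    | cons n s =>
      unfold rowSame Mono.same at h
      simp only [Bool.and_eq_true, beq_iff_eq] at h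
      obtain ⟨⟨⟨⟨⟨h1, h2⟩, h3⟩, h4⟩, h5⟩, h6⟩ := h
      rw [ih h6]
      congr 1
      cases m; cases n
      simp_all

/-- the matrix given by rows -/
noncomputable def toMat (m n : ℕ) (A : ℕ → List Mono) : Matrix (Fin m) (Fin n) (MonoidAlgebra ℤ G3) :=
  fun i j => rowVal (A i) j

/-- the check -/
def mulCheck (n : ℕ) (A B C : ℕ → List Mono) : ℕ → Bool
  | 0 => true
  | i + 1 => (A i).all (fun m => Nat.blt m.j n) && rowSame (rowMul B (A i)) (C i) && mulCheck n A B C i

theorem mul_of_check {l m n : ℕ} {A B C : ℕ → List Mono} (h : mulCheck m A B C l = true) :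
    toMat l m A * toMat m n B = toMat l n C := by
  have key : ∀ (l : ℕ), mulCheck m A B C l = true → ∀ i, i < l →
      (∀ x ∈ A i, x.j < m) ∧ rowMul B (A i) = C i := by
    intro l
    induction l with
    | zero => intro _ i hi; omega
    | succ l ih =>
      intro h i hi
      unfold mulCheck at h
      simp only [Bool.and_eq_true, List.all_eq_true] at h
      obtain ⟨⟨h1, h2⟩, h3⟩ := h
      have h2 := eq_of_rowSame h2
      rcases Nat.lt_succ_iff_lt_or_eq.1 hi with hi' | hi'
      · exact ih h3 i hi'
      · subst hi'
        refine ⟨fun x hx => ?_, h2⟩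
        have := h1 x hx
        rwa [Nat.blt_eq] at this
  apply Matrix.ext
  intro i j
  obtain ⟨h1, h2⟩ := key l h i i.2
  rw [Matrix.mul_apply]
  unfold toMat
  rw [← h2, rowVal_rowMul B m (A i) h1, ← Fin.sum_univ_eq_sum_range (fun k => rowVal (A i) k * rowVal (B k) j)]

end Pool.Agent.MPfa412c
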