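import Pool.Agent.MPfa412c.FinDet

/-!
# Spectral measures and approximation by finite-dimensional representations
-/

set_option linter.unusedSectionVars false

open Matrix MeasureTheory Filter Topology
open scoped ComplexOrder

namespace Pool.Agent.MPfa412c

section Hermitian

variable {n : Type*} [Fintype n] [DecidableEq n]

lemma trace_pow_eq_sum {H : Matrix n n ℂ} (hH : H.IsHermitian) (m : ℕ) :
    (H ^ m).trace = ∑ k, ((hH.eigenvalues k ^ m : ℝ) : ℂ) := by
  conv_lhs => rw [hH.spectral_theorem]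
  rw [← map_pow, Matrix.diagonal_pow, Unitary.conjStarAlgAut_apply, Matrix.trace_mul_cycle,
    Unitary.coe_star_mul_self, Matrix.one_mul, Matrix.trace_diagonal]
  simp

lemma det_add_smul_one_eq {H : Matrix n n ℂ} (hH : H.IsHermitian) (ε : ℝ) :
    (H + (ε : ℂ) • (1 : Matrix n n ℂ)).det.re = ∏ k, (hH.eigenvalues k + ε) := by
  have h1 : (H + (ε : ℂ) • (1 : Matrix n n ℂ))
      = Unitary.conjStarAlgAut ℂ _ hH.eigenvectorUnitary
        (diagonal (fun k => (RCLike.ofReal (hH.eigenvalues k + ε) : ℂ))) := by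
    have h2 : (diagonal (fun k => (RCLike.ofReal (hH.eigenvalues k + ε) : ℂ)) : Matrix n n ℂ)
        = diagonal (RCLike.ofReal ∘ hH.eigenvalues) + (ε : ℂ) • (1 : Matrix n n ℂ) := by
      ext i j
      by_cases h : i = j
      · subst h; simp
      · simp [h]
    rw [h2, map_add, map_smul, map_one, ← hH.spectral_theorem]
  have h3 : (H + (ε : ℂ) • (1 : Matrix n n ℂ)).det
      = ∏ k, (RCLike.ofReal (hH.eigenvalues k + ε) : ℂ) := by
    rw [h1, Unitary.conjStarAlgAut_apply, Matrix.det_mul_comm, ← Matrix.mul_assoc,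
      Unitary.coe_star_mul_self, Matrix.one_mul, Matrix.det_diagonal]
  rw [h3, prod_ofReal_re]

lemma psd_eigenvalues_le {H : Matrix n n ℂ} (hH : H.IsHermitian) {K : ℝ}
    (hK : ((K : ℂ) • (1 : Matrix n n ℂ) - H).PosSemidef) (i : n) : hH.eigenvalues i ≤ K := by
  have h := hK.re_dotProduct_nonneg (WithLp.ofLp (hH.eigenvectorBasis i))
  rw [Matrix.sub_mulVec, Matrix.smul_mulVec, Matrix.one_mulVec, hH.mulVec_eigenvectorBasis,
    dotProduct_sub] at h
  have h3 : star (WithLp.ofLp (hH.eigenvectorBasis i)) ⬝ᵥ (WithLp.ofLp (hH.eigenvectorBasis i)) = 1 := by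
    have := (hH.eigenvectorBasis).orthonormal.1 i
    have h4 : inner ℂ (hH.eigenvectorBasis i) (hH.eigenvectorBasis i) = (1 : ℂ) := by
      rw [inner_self_eq_norm_sq_to_K, this]; simp
    rw [EuclideanSpace.inner_eq_star_dotProduct] at h4
    rw [dotProduct_comm]
    exact h4
  rw [dotProduct_smul, dotProduct_smul, h3] at h
  simp at h
  linarith

open scoped Classical in
/-- eigenvalues of a Hermitian matrix (junk value `0` otherwise) -/
noncomputable def ev (A : Matrix n n ℂ) : n → ℝ :=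
  if h : A.IsHermitian then h.eigenvalues else 0

lemma ev_eq {A : Matrix n n ℂ} (h : A.IsHermitian) : ev A = h.eigenvalues := dif_pos h

lemma ev_nonneg {A : Matrix n n ℂ} (h : A.PosSemidef) (k : n) : 0 ≤ ev A k := by
  rw [ev_eq h.isHermitian]
  exact h.eigenvalues_nonneg k

lemma ld_eq_sum (X : Matrix n n ℂ) {ε : ℝ} (hε : 0 < ε) :
    ld X ε = ∑ k, Real.log (ev (X * Xᴴ) k + ε) := by
  unfold ld
  have hp := Matrix.posSemidef_self_mul_conjTranspose X
  rw [det_add_smul_one_eq hp.isHermitian ε, Real.log_prod, ev_eq hp.isHermitian]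
  intro k _
  have := hp.eigenvalues_nonneg k
  positivity

lemma sum_ev_pow {A : Matrix n n ℂ} (h : A.IsHermitian) (m : ℕ) :
    ∑ k, ev A k ^ m = (A ^ m).trace.re := by
  rw [trace_pow_eq_sum h, ev_eq h]
  simp only [Complex.re_sum, Complex.ofReal_re]

lemma sum_ev_le {A : Matrix n n ℂ} (h : A.PosSemidef) {K : ℝ}
    (hK : ((K : ℂ) • (1 : Matrix n n ℂ) - A * Aᴴ).PosSemidef) (k : n) : ev A k ≤ Real.sqrt K := by
  have hH := h.isHermitian
  rw [ev_eq hH]
  apply Real.le_sqrt_of_sq_le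
  -- test against the eigenvector
  have h1 := hK.re_dotProduct_nonneg (WithLp.ofLp (hH.eigenvectorBasis k))
  rw [hH.eq, Matrix.sub_mulVec, Matrix.smul_mulVec, Matrix.one_mulVec, ← Matrix.mulVec_mulVec,
    hH.mulVec_eigenvectorBasis, Matrix.mulVec_smul, hH.mulVec_eigenvectorBasis, dotProduct_sub] at h1
  have h3 : star (WithLp.ofLp (hH.eigenvectorBasis k)) ⬝ᵥ (WithLp.ofLp (hH.eigenvectorBasis k)) = 1 := by
    have := (hH.eigenvectorBasis).orthonormal.1 k
    have h4 : inner ℂ (hH.eigenvectorBasis k) (hH.eigenvectorBasis k) = (1 : ℂ) := by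
      rw [inner_self_eq_norm_sq_to_K, this]; simp
    rw [EuclideanSpace.inner_eq_star_dotProduct] at h4
    rw [dotProduct_comm]
    exact h4
  rw [dotProduct_smul, dotProduct_smul, dotProduct_smul, h3] at h1
  simp at h1
  nlinarith

end Hermitian

/-- `μ` is the spectral measure of the positive element `H` with respect to the trace `τ`. -/
structure IsSpec {S : Type*} [Ring S] (τ : S → ℝ) (H : S) (μ : Measure ℝ) : Prop where
  fin : IsFiniteMeasure μ
  supp : ∃ C : ℝ, μ (Set.Icc 0 C)ᶜ = 0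
  mom : ∀ m : ℕ, ∫ x, x ^ m ∂μ = τ (H ^ m)

/-- Approximation of a traced ring with involution by finite-dimensional representations. -/
structure TApprox (S : Type*) [Ring S] (st : S → S) (τ : S → ℝ) where
  ι : Type
  l : Filter ι
  neBot : l.NeBot
  D : ι → Type
  fin : ∀ i, Fintype (D i)
  dec : ∀ i, DecidableEq (D i)
  w : ι → ℝ
  w_pos : ∀ i, 0 < w i
  π : ∀ i, S →+* Matrix (D i) (D i) ℂ
  π_st : ∀ i x, π i (st x) = (π i x)ᴴ
  tr_lim : ∀ x, Tendsto (fun i => w i * (π i x).trace.re) l (𝓝 (τ x))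
  bdd : ∀ x, ∃ K : ℝ, 0 < K ∧ ∀ i, ((K : ℂ) • (1 : Matrix (D i) (D i) ℂ)
    - π i x * (π i x)ᴴ).PosSemidef

namespace TApprox

variable {S : Type*} [Ring S] {st : S → S} {τ : S → ℝ} (a : TApprox S st τ)

instance (i : a.ι) : Fintype (a.D i) := a.fin i
instance (i : a.ι) : DecidableEq (a.D i) := a.dec i
instance : a.l.NeBot := a.neBot

/-- positivity of an element in all representations -/
def Pos (H : S) : Prop := ∀ i, (a.π i H).PosSemidef

lemma pos_mul_st (x : S) : a.Pos (x * st x) := fun i => by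
  rw [map_mul, a.π_st]; exact Matrix.posSemidef_self_mul_conjTranspose _

/-- finite stage regularised log determinant -/
noncomputable def Li (x : S) (ε : ℝ) (i : a.ι) : ℝ := 1 / 2 * (a.w i * ld (a.π i x) ε)

/-- finite stage spectral sum of a function. -/
noncomputable def sp (H : S) (f : ℝ → ℝ) (i : a.ι) : ℝ := a.w i * ∑ k, f (ev (a.π i H) k)

lemma Li_eq (x : S) {ε : ℝ} (hε : 0 < ε) (i : a.ι) :
    a.Li x ε i = 1 / 2 * a.sp (x * st x) (fun t => Real.log (t + ε)) i := by
  unfold Li sp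
  rw [ld_eq_sum _ hε, map_mul, a.π_st]

lemma sp_pow_lim {H : S} (hH : a.Pos H) (m : ℕ) :
    Tendsto (a.sp H (fun t => t ^ m)) a.l (𝓝 (τ (H ^ m))) := by
  refine (a.tr_lim (H ^ m)).congr fun i => ?_
  unfold sp
  rw [sum_ev_pow (hH i).isHermitian, map_pow]

lemma sp_add (H : S) (f g : ℝ → ℝ) (i : a.ι) :
    a.sp H (fun t => f t + g t) i = a.sp H f i + a.sp H g i := by
  unfold sp; rw [Finset.sum_add_distrib]; ring

lemma sp_smul (H : S) (c : ℝ) (f : ℝ → ℝ) (i : a.ι) :
    a.sp H (fun t => c * f t) i = c * a.sp H f i := by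
  unfold sp; rw [← Finset.mul_sum]; ring

lemma ev_bdd {H : S} (hH : a.Pos H) : ∃ K : ℝ, 0 < K ∧ ∀ i k, ev (a.π i H) k ≤ K := by
  obtain ⟨K, hK0, hK⟩ := a.bdd H
  exact ⟨Real.sqrt K, Real.sqrt_pos.2 hK0, fun i k => sum_ev_le (hH i) (hK i) k⟩

lemma sp_mono {H : S} (hH : a.Pos H) {f g : ℝ → ℝ} {K : ℝ} {i : a.ι}
    (hK : ∀ k, ev (a.π i H) k ≤ K)
    (h : ∀ t ∈ Set.Icc 0 K, f t ≤ g t) : a.sp H f i ≤ a.sp H g i := by
  unfold sp
  apply mul_le_mul_of_nonneg_left _ (a.w_pos i).le
  apply Finset.sum_le_sum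
  intro k _
  exact h _ ⟨ev_nonneg (hH i) _, hK k⟩

/-- Polynomials. -/
lemma sp_poly_lim {H : S} (hH : a.Pos H) {μ : Measure ℝ} (hμ : IsSpec τ H μ) (p : Polynomial ℝ) :
    Tendsto (a.sp H (fun t => p.eval t)) a.l (𝓝 (∫ t, p.eval t ∂μ)) := by
  have := hμ.fin
  obtain ⟨C, hC⟩ := hμ.supp
  have hint : ∀ m : ℕ, Integrable (fun t : ℝ => t ^ m) μ := by
    intro m
    have h1 : μ = μ.restrict (Set.Icc 0 C) := by
      rw [Measure.restrict_eq_self_of_ae_mem]
      rw [ae_iff]; exact hC
    rw [h1]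
    exact (continuous_pow m).continuousOn.integrableOn_Icc
  induction p using Polynomial.induction_on' with
  | add p q hp hq =>
    have hi : ∀ p : Polynomial ℝ, Integrable (fun t : ℝ => p.eval t) μ := by
      intro p
      induction p using Polynomial.induction_on' with
      | add p q hp hq =>
        have h := hp.add hq
        refine h.congr (Filter.Eventually.of_forall fun t => ?_)
        simp
      | monomial m c => simpa using (hint m).const_mul c
    have h1 : (fun t => (p + q).eval t) = fun t => p.eval t + q.eval t := by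
      ext t; simp
    rw [h1, integral_add (hi p) (hi q)]
    refine (hp.add hq).congr fun i => ?_
    rw [a.sp_add]
  | monomial m c =>
    simp only [Polynomial.eval_monomial]
    rw [integral_const_mul]
    have h2 := (a.sp_pow_lim hH m).const_mul c
    rw [← hμ.mom] at h2
    refine h2.congr fun i => ?_
    rw [a.sp_smul]

/-- Continuous functions. -/
lemma sp_lim {H : S} (hH : a.Pos H) {μ : Measure ℝ} (hμ : IsSpec τ H μ) {f : ℝ → ℝ}
    (hf : ContinuousOn f (Set.Ici 0)) :
    Tendsto (a.sp H f) a.l (𝓝 (∫ t, f t ∂μ)) := by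
  have := hμ.fin
  obtain ⟨C, hC⟩ := hμ.supp
  obtain ⟨K, hK0, hK⟩ := a.ev_bdd hH
  set C' := max C K with hC'
  have hCC : μ (Set.Icc 0 C')ᶜ = 0 := by
    refine measure_mono_null ?_ hC
    apply Set.compl_subset_compl.2
    exact Set.Icc_subset_Icc_right (le_max_left _ _)
  have hae : ∀ᵐ t ∂μ, t ∈ Set.Icc 0 C' := by
    rw [ae_iff]; exact hCC
  have hres : μ = μ.restrict (Set.Icc 0 C') := by
    rw [Measure.restrict_eq_self_of_ae_mem hae]
  have hfi : ∀ g : ℝ → ℝ, ContinuousOn g (Set.Ici 0) → Integrable g μ := by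
    intro g hg
    rw [hres]
    exact (hg.mono (fun t ht => ht.1)).integrableOn_Icc
  -- bound on masses
  have hone : Tendsto (a.sp H (fun _ => (1 : ℝ))) a.l (𝓝 (∫ _t, (1 : ℝ) ∂μ)) := by
    simpa using a.sp_poly_lim hH hμ 1
  set M := (∫ _t, (1 : ℝ) ∂μ) with hM
  have hMnn : 0 ≤ M := integral_nonneg (fun _ => zero_le_one)
  rw [Metric.tendsto_nhds]
  intro e he
  -- polynomial approximation
  obtain ⟨p, hp⟩ := exists_polynomial_near_of_continuousOn 0 C' f (hf.mono (fun t ht => ht.1))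
    (e / (3 * (M + 1))) (by positivity)
  have hpl := a.sp_poly_lim hH hμ p
  rw [Metric.tendsto_nhds] at hpl hone
  filter_upwards [hpl (e / 3) (by positivity), hone 1 one_pos] with i h1 h2
  have hm : a.sp H (fun _ => (1 : ℝ)) i ≤ M + 1 := by
    rw [Real.dist_eq] at h2
    have := abs_lt.1 h2
    linarith [this.2]
  have h3 : |a.sp H f i - a.sp H (fun t => p.eval t) i| ≤ e / 3 := by
    have hpos : (0 : ℝ) < M + 1 := by linarith
    have key : ∀ t ∈ Set.Icc 0 K, |f t - p.eval t| ≤ e / (3 * (M + 1)) := by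
      intro t ht
      have := hp t ⟨ht.1, ht.2.trans (le_max_right _ _)⟩
      rw [abs_sub_comm]
      exact this.le
    have e1 : a.sp H f i - a.sp H (fun t => p.eval t) i = a.sp H (fun t => f t - p.eval t) i := by
      unfold sp; rw [Finset.sum_sub_distrib]; ring
    rw [e1, abs_le]
    have e2 : e / (3 * (M + 1)) * a.sp H (fun _ => (1 : ℝ)) i ≤ e / 3 := by
      calc e / (3 * (M + 1)) * a.sp H (fun _ => (1 : ℝ)) i ≤ e / (3 * (M + 1)) * (M + 1) := by
            apply mul_le_mul_of_nonneg_left hm (by positivity)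
        _ = e / 3 := by field_simp
    constructor
    · have := a.sp_mono hH (hK i) (f := fun _ => (-(e / (3 * (M + 1)))) * 1) (g := fun t => f t - p.eval t)
        (fun t ht => by have := (abs_le.1 (key t ht)).1; linarith)
      rw [a.sp_smul] at this
      linarith
    · have := a.sp_mono hH (hK i) (f := fun t => f t - p.eval t) (g := fun _ => ((e / (3 * (M + 1)))) * 1)
        (fun t ht => by have := (abs_le.1 (key t ht)).2; linarith)
      rw [a.sp_smul] at this
      linarith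
  have h4 : |(∫ t, p.eval t ∂μ) - ∫ t, f t ∂μ| ≤ e / 3 * (M / (M + 1)) := by
    rw [← integral_sub (hfi _ (by fun_prop)) (hfi _ hf)]
    have : ‖∫ t, (p.eval t - f t) ∂μ‖ ≤ ∫ _t, e / (3 * (M + 1)) ∂μ := by
      apply norm_integral_le_of_norm_le (integrable_const _)
      filter_upwards [hae] with t ht
      exact (hp t ht).le
    rw [Real.norm_eq_abs] at this
    refine this.trans (le_of_eq ?_)
    have e3 : ∫ _t, e / (3 * (M + 1)) ∂μ = e / (3 * (M + 1)) * M := by
      rw [hM, ← integral_const_mul]; simp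
    rw [e3]; field_simp
  have h5 : e / 3 * (M / (M + 1)) ≤ e / 3 := by
    have : M / (M + 1) ≤ 1 := by rw [div_le_one (by linarith)]; linarith
    nlinarith
  rw [Real.dist_eq] at h1 ⊢
  calc |a.sp H f i - ∫ t, f t ∂μ|
      = |(a.sp H f i - a.sp H (fun t => p.eval t) i) + (a.sp H (fun t => p.eval t) i - ∫ t, p.eval t ∂μ)
        + ((∫ t, p.eval t ∂μ) - ∫ t, f t ∂μ)| := by ring_nf
    _ ≤ |a.sp H f i - a.sp H (fun t => p.eval t) i| + |a.sp H (fun t => p.eval t) i - ∫ t, p.eval t ∂μ|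
        + |(∫ t, p.eval t ∂μ) - ∫ t, f t ∂μ| := by
        apply (abs_add_le _ _).trans
        gcongr
        exact abs_add_le _ _
    _ < e := by linarith

end TApprox

end Pool.Agent.MPfa412c
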