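import Pool.Agent.MPfa412c.Spec

/-!
# Existence of spectral measures
-/

set_option linter.unusedSectionVars false

open Matrix MeasureTheory Filter Topology
open scoped ComplexOrder BoundedContinuousFunction

namespace Pool.Agent.MPfa412c

namespace TApprox

variable {S : Type*} [Ring S] {st : S → S} {τ : S → ℝ} (a : TApprox S st τ)

/-- the finite stage spectral measure -/
noncomputable def mi (H : S) (i : a.ι) : Measure ℝ :=
  ENNReal.ofReal (a.w i) • ∑ k, Measure.dirac (ev (a.π i H) k)

instance (H : S) (i : a.ι) : IsFiniteMeasure (a.mi H i) := by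
  unfold mi
  exact Measure.smul_finite _ ENNReal.ofReal_ne_top

lemma integral_mi (H : S) (i : a.ι) (f : ℝ → ℝ) :
    ∫ t, f t ∂(a.mi H i) = a.sp H f i := by
  unfold mi sp
  rw [integral_smul_measure, ENNReal.toReal_ofReal (a.w_pos i).le, smul_eq_mul]
  congr 1
  rw [integral_finsetSum_measure]
  · simp
  · intro k _
    exact integrable_dirac (by simp)

lemma mi_compl {H : S} (hH : a.Pos H) {K : ℝ} {i : a.ι}
    (hK : ∀ k, ev (a.π i H) k ≤ K) :
    a.mi H i (Set.Icc 0 K)ᶜ = 0 := by
  unfold mi
  simp only [Measure.smul_apply, Measure.finsetSum_apply, smul_eq_mul]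
  rw [Finset.sum_eq_zero, mul_zero]
  intro k _
  rw [Measure.dirac_apply' _ measurableSet_Icc.compl]
  simp only [Set.indicator_apply_eq_zero, Set.mem_compl_iff, Pi.one_apply, one_ne_zero, imp_false,
    not_not]
  exact ⟨ev_nonneg (hH i) _, hK k⟩

theorem exists_isSpec_pos (a : TApprox S st τ) {H : S} (hH : a.Pos H) :
    ∃ μ : Measure ℝ, IsSpec τ H μ := by
  obtain ⟨K, hK0, hK⟩ := a.ev_bdd hH
  -- masses
  have hone : Tendsto (a.sp H (fun _ => (1 : ℝ))) a.l (𝓝 (τ (H ^ 0))) := by
    simpa using a.sp_pow_lim hH 0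
  set M : ℝ := τ (H ^ 0) with hM
  let F : a.ι → FiniteMeasure ℝ := fun i => ⟨a.mi H i, inferInstance⟩
  let Cn : NNReal := ⟨|M| + 1, by positivity⟩
  have hcomp := isCompact_setOfPred_finiteMeasure_le_of_isCompact (E := ℝ) Cn
    (isCompact_Icc (a := (0 : ℝ)) (b := K))
  have hmem : ∀ᶠ i in a.l, F i ∈ {μ : FiniteMeasure ℝ | μ.mass ≤ Cn ∧ μ (Set.Icc 0 K)ᶜ = 0} := by
    rw [Metric.tendsto_nhds] at hone
    filter_upwards [hone 1 one_pos] with i hi
    constructor
    · have h1 : ((F i).mass : ℝ) = a.sp H (fun _ => (1 : ℝ)) i := by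
        rw [← integral_mi, integral_const, smul_eq_mul, mul_one]
        rfl
      rw [← NNReal.coe_le_coe, h1]
      change _ ≤ |M| + 1
      rw [Real.dist_eq] at hi
      have := (abs_lt.1 hi).2
      have := le_abs_self M
      linarith
    · have := a.mi_compl hH (hK i)
      exact (FiniteMeasure.null_iff_toMeasure_null (F i) _).2 this
  let u : Ultrafilter a.ι := Ultrafilter.of a.l
  have hu : (u : Filter a.ι) ≤ a.l := Ultrafilter.of_le a.l
  obtain ⟨ν, hν, hνl⟩ := hcomp.ultrafilter_le_nhds (u.map F) (by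
    rw [le_principal_iff]
    exact hu hmem)
  have hten : Tendsto F u (𝓝 ν) := hνl
  rw [FiniteMeasure.tendsto_iff_forall_integral_tendsto] at hten
  refine ⟨ν, ⟨inferInstance, ⟨K, ?_⟩, ?_⟩⟩
  · have := hν.2
    rw [FiniteMeasure.null_iff_toMeasure_null] at this
    exact this
  · intro m
    -- truncated power
    let g : ℝ →ᵇ ℝ := BoundedContinuousFunction.ofNormedAddCommGroup
      (fun t => (max 0 (min t K)) ^ m) (by fun_prop) (K ^ m) (by
        intro t
        rw [Real.norm_eq_abs, abs_of_nonneg (by positivity)]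
        apply pow_le_pow_left₀ (by positivity)
        exact max_le hK0.le (min_le_right _ _))
    have hg : ∀ t ∈ Set.Icc 0 K, g t = t ^ m := by
      intro t ht
      simp only [g, BoundedContinuousFunction.coe_ofNormedAddCommGroup]
      rw [min_eq_left ht.2, max_eq_right ht.1]
    have h1 := hten g
    have h2 : ∀ i, ∫ t, g t ∂((F i : FiniteMeasure ℝ) : Measure ℝ) = a.sp H (fun t => t ^ m) i := by
      intro i
      change ∫ t, g t ∂(a.mi H i) = _
      rw [integral_mi]
      unfold sp
      congr 1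
      apply Finset.sum_congr rfl
      intro k _
      exact hg _ ⟨ev_nonneg (hH i) _, hK i k⟩
    have h3 : ∫ t, g t ∂(ν : Measure ℝ) = ∫ t, t ^ m ∂(ν : Measure ℝ) := by
      apply integral_congr_ae
      have hν2 := hν.2
      rw [FiniteMeasure.null_iff_toMeasure_null] at hν2
      have : ∀ᵐ t ∂(ν : Measure ℝ), t ∈ Set.Icc 0 K := by
        rw [ae_iff]; exact hν2
      filter_upwards [this] with t ht
      exact hg t ht
    rw [h3] at h1
    have h4 := (a.sp_pow_lim hH m).mono_left hu
    exact tendsto_nhds_unique (h1.congr h2) h4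

theorem exists_isSpec (a : TApprox S st τ) (x : S) : ∃ μ : Measure ℝ, IsSpec τ (x * st x) μ :=
  a.exists_isSpec_pos (a.pos_mul_st x)

end TApprox

end Pool.Agent.MPfa412c
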