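import Pool.Agent.MPfa412c.Sparse

/-!
# Triangular matrices over the group algebra
-/

set_option linter.unusedSectionVars false

open Matrix MeasureTheory Filter Topology MonoidAlgebra
open scoped ComplexOrder ComplexConjugate

namespace Pool.Agent.MPfa412c

/-- splitting off the first index -/
def finSplit (n : ℕ) : Unit ⊕ Fin n ≃ Fin (n + 1) where
  toFun s := match s with
    | Sum.inl _ => 0
    | Sum.inr i => i.succ
  invFun := Fin.cases (Sum.inl ()) (fun i => Sum.inr i)
  left_inv s := by rcases s with s | s <;> rfl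
  right_inv i := by
    refine Fin.cases ?_ (fun i => ?_) i <;> rfl

namespace GApprox

variable {Γ : Type*} [Group Γ] (b : GApprox Γ)

lemma F_empty (T : Matrix (Fin 0) (Fin 0) (MonoidAlgebra ℂ Γ)) : b.F T ∧ b.dt T = 0 := by
  have : T = 1 := Subsingleton.elim _ _
  rw [this]
  exact b.F_one

theorem F_upperTri : ∀ {n : ℕ} (T : Matrix (Fin n) (Fin n) (MonoidAlgebra ℂ Γ)),
    (∀ i j, j < i → T i j = 0) → (∀ i, b.F (sc (T i i))) →
    b.F T ∧ b.dt T = ∑ i, b.dt (sc (T i i)) := by
  intro n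
  induction n with
  | zero =>
    intro T _ _
    simpa using b.F_empty T
  | succ n ih =>
    intro T h hF
    obtain ⟨h1, h2⟩ := ih (T.submatrix Fin.succ Fin.succ)
      (fun i j hij => h _ _ (by simpa using hij)) (fun i => hF i.succ)
    have e : T.submatrix (finSplit n) (finSplit n)
        = Matrix.fromBlocks (sc (T 0 0)) (fun _ j => T 0 j.succ) 0 (T.submatrix Fin.succ Fin.succ) := by
      apply Matrix.ext
      intro i j
      rcases i with i | i <;> rcases j with j | j
      · rfl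
      · rfl
      · exact h _ _ (Fin.succ_pos i)
      · rfl
    have h3 := b.F_blockUpper (fun _ j => T 0 j.succ) (hF 0) h1
    rw [← e, h2] at h3
    have h4 := b.F_submatrix (finSplit n).symm (finSplit n).symm h3.1
    rw [Matrix.submatrix_submatrix, Equiv.self_comp_symm, Matrix.submatrix_id_id] at h4
    refine ⟨h4.1, ?_⟩
    rw [h4.2, h3.2, Fin.sum_univ_succ]
    rfl

theorem F_lowerTri {n : ℕ} (T : Matrix (Fin n) (Fin n) (MonoidAlgebra ℂ Γ))
    (h : ∀ i j, i < j → T i j = 0) (hF : ∀ i, b.F (sc (T i i))) :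
    b.F T ∧ b.dt T = ∑ i, b.dt (sc (T i i)) := by
  have h0 : ∀ i, b.F (sc (mst T i i)) ∧ b.dt (sc (mst T i i)) = b.dt (sc (T i i)) := fun i =>
    b.F_mst (hF i)
  obtain ⟨h1, h2⟩ := b.F_upperTri (mst T) (fun i j hij => by
    unfold mst
    rw [h j i hij, gst_zero]) (fun i => (h0 i).1)
  have h3 := b.F_mst h1
  have h4 : mst (mst T) = T := rst_rst T
  rw [h4] at h3
  refine ⟨h3.1, ?_⟩
  rw [h3.2, h2]
  exact Finset.sum_congr rfl fun i _ => (h0 i).2

/-- A product of a lower and an upper triangular matrix, up to permutations. -/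
theorem F_LU {n : ℕ} (B L U : Matrix (Fin n) (Fin n) (MonoidAlgebra ℂ Γ)) (σ τ : Fin n ≃ Fin n)
    (hB : B.submatrix σ τ = L * U)
    (hL : ∀ i j, i < j → L i j = 0) (hLF : ∀ i, b.F (sc (L i i)))
    (hU : ∀ i j, j < i → U i j = 0) (hUF : ∀ i, b.F (sc (U i i))) :
    b.F B ∧ b.dt B = ∑ i, b.dt (sc (L i i)) + ∑ i, b.dt (sc (U i i)) := by
  have h1 := b.F_lowerTri L hL hLF
  have h2 := b.F_upperTri U hU hUF
  have h3 := b.F_mul h1.1 h2.1
  rw [← hB] at h3
  have h4 := b.F_submatrix σ.symm τ.symm h3.1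
  rw [Matrix.submatrix_submatrix, Equiv.self_comp_symm, Equiv.self_comp_symm, Matrix.submatrix_id_id] at h4
  exact ⟨h4.1, by rw [h4.2, h3.2, h1.2, h2.2]⟩

end GApprox

end Pool.Agent.MPfa412c
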