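import Pool.Agent.MPfa412c.GLd

/-!
# Twisting by characters; log-determinants of `1 - g` and lower bounds
-/

set_option linter.unusedSectionVars false

open Matrix MeasureTheory Filter Topology MonoidAlgebra
open scoped ComplexOrder ComplexConjugate

namespace Pool.Agent.MPfa412c

section findim

variable {n : Type*} [Fintype n] [DecidableEq n]

lemma exists_unit_det_ge (P T : Matrix n n ℂ) :
    ∃ z : ℂ, ‖z‖ = 1 ∧ ‖P.det‖ ≤ ‖(P + z • T).det‖ := by
  have hd : Differentiable ℂ (fun z : ℂ => (P + z • T).det) := by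
    simp only [Matrix.det_apply, Matrix.add_apply, Matrix.smul_apply, smul_eq_mul]
    apply Differentiable.fun_sum
    intro σ _
    apply Differentiable.const_smul
    apply Differentiable.fun_finsetProd
    intro i _
    fun_prop
  obtain ⟨z, hz, hmax⟩ := Complex.exists_mem_frontier_isMaxOn_norm
    (U := Metric.ball (0 : ℂ) 1) Metric.isBounded_ball ⟨0, by simp⟩ hd.diffContOnCl
  have hz1 : ‖z‖ = 1 := by
    rw [frontier_ball (0 : ℂ) one_ne_zero] at hz
    simpa using hz
  refine ⟨z, hz1, ?_⟩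
  have := hmax (show (0 : ℂ) ∈ closure (Metric.ball (0 : ℂ) 1) from subset_closure (by simp))
  simpa using this

lemma det_one_add_nilpotent {N : Matrix n n ℂ} (h : IsNilpotent N) : (1 + N).det = 1 := by
  have h1 := Matrix.isNilpotent_charpoly_sub_pow_of_isNilpotent h
  have h2 : N.charpoly = Polynomial.X ^ Fintype.card n := by
    have := h1.eq_zero
    exact sub_eq_zero.1 this
  have h3 : N.charpoly.eval (-1) = (-1 - N).det := by
    rw [Matrix.eval_charpoly]
    congr 2
    ext i j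
    by_cases hij : i = j
    · subst hij; simp
    · simp [hij]
  rw [h2] at h3
  have h4 : (1 + N) = -(-1 - N) := by abel
  rw [h4, Matrix.det_neg, ← h3]
  simp [← mul_pow]

end findim

section twist

variable {Γ : Type*} [Group Γ]

/-- the character `g ↦ z ^ φ(g)` -/
noncomputable def chr (φ : Γ →* Multiplicative ℤ) (z : ℂ) (g : Γ) : ℂ := z ^ (Multiplicative.toAdd (φ g))

lemma chr_mul (φ : Γ →* Multiplicative ℤ) {z : ℂ} (hz : ‖z‖ = 1) (g h : Γ) :
    chr φ z (g * h) = chr φ z g * chr φ z h := by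
  unfold chr
  rw [map_mul, toAdd_mul, zpow_add₀]
  rintro rfl
  simp at hz

lemma chr_one (φ : Γ →* Multiplicative ℤ) (z : ℂ) : chr φ z 1 = 1 := by
  unfold chr; simp

lemma chr_norm (φ : Γ →* Multiplicative ℤ) {z : ℂ} (hz : ‖z‖ = 1) (g : Γ) : ‖chr φ z g‖ = 1 := by
  unfold chr; rw [norm_zpow, hz, _root_.one_zpow]

lemma chr_inv (φ : Γ →* Multiplicative ℤ) {z : ℂ} (hz : ‖z‖ = 1) (g : Γ) :
    chr φ z g⁻¹ = conj (chr φ z g) := by
  have h1 : chr φ z g⁻¹ = (chr φ z g)⁻¹ := by
    unfold chr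
    rw [map_inv, toAdd_inv, _root_.zpow_neg]
  rw [h1, Complex.inv_eq_conj (chr_norm φ hz g)]

/-- the twisting automorphism of the group algebra -/
noncomputable def tw (φ : Γ →* Multiplicative ℤ) (z : ℂ) (hz : ‖z‖ = 1) :
    MonoidAlgebra ℂ Γ →ₐ[ℂ] MonoidAlgebra ℂ Γ :=
  MonoidAlgebra.lift ℂ _ Γ
    { toFun := fun g => MonoidAlgebra.single g (chr φ z g)
      map_one' := by rw [chr_one]; rfl
      map_mul' := fun g h => by
        rw [MonoidAlgebra.single_mul_single, chr_mul φ hz] }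

lemma tw_single (φ : Γ →* Multiplicative ℤ) {z : ℂ} (hz : ‖z‖ = 1) (g : Γ) (c : ℂ) :
    tw φ z hz (MonoidAlgebra.single g c) = MonoidAlgebra.single g (c * chr φ z g) := by
  unfold tw
  rw [MonoidAlgebra.lift_single]
  simp

lemma tw_gst (φ : Γ →* Multiplicative ℤ) {z : ℂ} (hz : ‖z‖ = 1) (x : MonoidAlgebra ℂ Γ) :
    tw φ z hz (gst x) = gst (tw φ z hz x) := by
  induction x using MonoidAlgebra.induction_linear with
  | zero => simp [gst_zero]
  | add x y hx hy => rw [gst_add, map_add, hx, hy, map_add, gst_add]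
  | single g c =>
    rw [gst_single, tw_single, tw_single, gst_single, chr_inv φ hz, map_mul]

lemma tw_coeff_one (φ : Γ →* Multiplicative ℤ) {z : ℂ} (hz : ‖z‖ = 1) (x : MonoidAlgebra ℂ Γ) :
    (tw φ z hz x).coeff 1 = x.coeff 1 := by
  induction x using MonoidAlgebra.induction_linear with
  | zero => simp
  | add x y hx hy => rw [map_add, coeff_add, coeff_add, Finsupp.add_apply, Finsupp.add_apply, hx, hy]
  | single g c =>
    classical
    rw [tw_single, coeff_single, coeff_single, Finsupp.single_apply, Finsupp.single_apply]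
    by_cases h : g = 1
    · subst h; simp [chr_one]
    · simp [h]

namespace GApprox

variable (b : GApprox Γ)
variable {n : Type} [Fintype n] [DecidableEq n]

/-- twisted approximation -/
noncomputable def twist (φ : Γ →* Multiplicative ℤ) (z : b.ι → ℂ) (hz : ∀ i, ‖z i‖ = 1) : GApprox Γ where
  ι := b.ι
  l := b.l
  neBot := b.neBot
  D := b.D
  fin := b.fin
  dec := b.dec
  ne := b.ne
  ρ := fun i =>
    { toFun := fun g => chr φ (z i) g • b.ρ i g
      map_one' := by rw [chr_one, map_one, one_smul]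
      map_mul' := fun g h => by
        rw [chr_mul φ (hz i), map_mul, Matrix.smul_mul, Matrix.mul_smul, smul_smul] }
  ρ_inv := fun i g => by
    change chr φ (z i) g⁻¹ • b.ρ i g⁻¹ = (chr φ (z i) g • b.ρ i g)ᴴ
    rw [chr_inv φ (hz i), b.ρ_inv, Matrix.conjTranspose_smul]
    rfl
  tr_lim := fun g hg => by
    have h := b.tr_lim g hg
    rw [tendsto_zero_iff_norm_tendsto_zero] at h ⊢
    refine h.congr fun i => ?_
    change _ = ‖(chr φ (z i) g • b.ρ i g).trace / _‖
    rw [Matrix.trace_smul, smul_eq_mul, mul_div_assoc, norm_mul, chr_norm φ (hz i), one_mul]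

lemma twist_lift (φ : Γ →* Multiplicative ℤ) (z : b.ι → ℂ) (hz : ∀ i, ‖z i‖ = 1) (i : b.ι)
    (x : MonoidAlgebra ℂ Γ) : (b.twist φ z hz).lift i x = b.lift i (tw φ (z i) (hz i) x) := by
  induction x using MonoidAlgebra.induction_linear with
  | zero => rw [map_zero, map_zero, map_zero]; rfl
  | add x y hx hy => rw [map_add, hx, hy, map_add, map_add]; rfl
  | single g c =>
    rw [lift_single, tw_single, lift_single]
    change c • (chr φ (z i) g • b.ρ i g) = _
    rw [smul_smul]

/-- scalars as `1 × 1` matrices -/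
noncomputable def _root_.Pool.Agent.MPfa412c.sc (x : MonoidAlgebra ℂ Γ) :
    Matrix Unit Unit (MonoidAlgebra ℂ Γ) := fun _ _ => x

lemma sc_mul (x y : MonoidAlgebra ℂ Γ) : sc x * sc y = sc (x * y) := by
  ext i j; simp [sc, Matrix.mul_apply]

lemma mst_sc (x : MonoidAlgebra ℂ Γ) : mst (sc x) = sc (gst x) := rfl

lemma sc_one : sc (1 : MonoidAlgebra ℂ Γ) = 1 := by
  ext i j; simp [sc]

lemma mtr_sc (x : MonoidAlgebra ℂ Γ) : mtr (sc x) = gtr x := by
  simp [mtr, sc]

lemma sc_pow (x : MonoidAlgebra ℂ Γ) (m : ℕ) : sc x ^ m = sc (x ^ m) := by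
  induction m with
  | zero => rw [pow_zero, pow_zero, sc_one]
  | succ m ih => rw [pow_succ, pow_succ, ih, sc_mul]

/-- invariance of log determinants under twisting -/
theorem F_tw (φ : Γ →* Multiplicative ℤ) {z : ℂ} (hz : ‖z‖ = 1) {x : MonoidAlgebra ℂ Γ}
    (h : b.F (sc x)) : b.F (sc (tw φ z hz x)) ∧ b.dt (sc (tw φ z hz x)) = b.dt (sc x) := by
  apply TApprox.Fin.map _ h
  intro m
  rw [mst_sc, mst_sc, sc_mul, sc_mul, sc_pow, sc_pow, mtr_sc, mtr_sc, ← tw_gst, ← map_mul, ← map_pow]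
  unfold gtr
  rw [tw_coeff_one]

/-- determinant bound for scalars -/
lemma le_L_sc {x : MonoidAlgebra ℂ Γ} {B ε : ℝ} (hε : 0 < ε)
    (h : ∀ i, (b.lift i x).det ≠ 0 ∧ B * Nat.card (b.D i) ≤ Real.log ‖(b.lift i x).det‖) :
    B ≤ (b.toT Unit).L (sc x) ε := by
  apply (b.toT Unit).le_L_of_frequently hε
  apply Filter.Frequently.of_forall
  intro i
  obtain ⟨h1, h2⟩ := h i
  have h3 : ((b.toT Unit).π i (sc x)).det = (b.lift i x).det := by
    change (b.mπ Unit i (sc x)).det = _
    rw [← Matrix.det_submatrix_equiv_self (Equiv.punitProd (b.D i)).symm]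
    rfl
  rw [h3]
  refine ⟨h1, ?_⟩
  change B ≤ 1 / (Nat.card (b.D i) : ℝ) * _
  have h4 : (0 : ℝ) < Nat.card (b.D i) := by
    have : 0 < Nat.card (b.D i) := Nat.card_pos
    exact_mod_cast this
  rw [one_div, inv_mul_eq_div, le_div_iff₀ h4]
  exact h2

/-- abbreviation for group elements in the group algebra -/
noncomputable def _root_.Pool.Agent.MPfa412c.u (g : Γ) : MonoidAlgebra ℂ Γ := MonoidAlgebra.single g 1

lemma u_mul (g h : Γ) : u g * u h = u (g * h) := by
  unfold u; rw [MonoidAlgebra.single_mul_single, one_mul]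

lemma u_one : u (1 : Γ) = 1 := rfl

lemma gst_u (g : Γ) : gst (u g) = u g⁻¹ := by
  unfold u; rw [gst_single, map_one]

lemma u_pow (g : Γ) (k : ℕ) : u g ^ k = u (g ^ k) := by
  induction k with
  | zero => rw [pow_zero, pow_zero, u_one]
  | succ k ih => rw [pow_succ, pow_succ, ih, u_mul]

lemma coeff_u_one [DecidableEq Γ] (g : Γ) : (u g).coeff 1 = if g = 1 then 1 else 0 := by
  unfold u; rw [coeff_single, Finsupp.single_apply]

lemma lift_u (i : b.ι) (g : Γ) : b.lift i (u g) = b.ρ i g := by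
  unfold u; rw [lift_single, one_smul]

lemma tw_u (φ : Γ →* Multiplicative ℤ) {z : ℂ} (hz : ‖z‖ = 1) (g : Γ) :
    tw φ z hz (u g) = chr φ z g • u g := by
  unfold u
  rw [tw_single, MonoidAlgebra.smul_single, smul_eq_mul, one_mul, mul_one]

theorem F_u (g : Γ) : b.F (sc (u g)) ∧ b.dt (sc (u g)) = 0 := by
  apply b.F_unitary
  rw [mst_sc, sc_mul, gst_u, u_mul, mul_inv_cancel, u_one, sc_one]

/-- Jensen bound for scalars -/
lemma dt_le_log {x : MonoidAlgebra ℂ Γ} (h : b.F (sc x)) (hp : 0 < gtr (x * gst x)) :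
    b.dt (sc x) ≤ 1 / 2 * Real.log (gtr (x * gst x)) := by
  have h1 : ∀ ε : ℝ, 0 < ε → b.dt (sc x) ≤ 1 / 2 * Real.log (gtr (x * gst x) + ε) := by
    intro ε hε
    have h2 := h.ldet_le hε
    have h3 := TApprox.L_le_log (a := b.toT Unit) (x := sc x) (by rw [mtr_one]; simp) hε
    rw [mst_sc, sc_mul, mtr_sc] at h3
    exact h2.trans h3
  have h4 : Tendsto (fun ε : ℝ => 1 / 2 * Real.log (gtr (x * gst x) + ε)) (𝓝[>] 0)
      (𝓝 (1 / 2 * Real.log (gtr (x * gst x)))) := by
    have : Tendsto (fun ε : ℝ => 1 / 2 * Real.log (gtr (x * gst x) + ε)) (𝓝 0)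
      (𝓝 (1 / 2 * Real.log (gtr (x * gst x) + 0))) := by
      apply Tendsto.const_mul
      apply Tendsto.log _ (by linarith)
      exact tendsto_const_nhds.add tendsto_id
    rw [add_zero] at this
    exact this.mono_left nhdsWithin_le_nhds
  refine ge_of_tendsto h4 ?_
  filter_upwards [self_mem_nhdsWithin] with ε hε using h1 ε hε

lemma one_sub_u_aux (φ : Γ →* Multiplicative ℤ) {g : Γ} (hg : φ g = Multiplicative.ofAdd 1) :
    b.F (sc (1 - u g)) ∧ 0 ≤ b.dt (sc (1 - u g)) := by
  -- choose twists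
  have hex : ∀ i : b.ι, ∃ z : ℂ, ‖z‖ = 1 ∧ 1 ≤ ‖(b.lift i (1 - z • u g)).det‖ := by
    intro i
    obtain ⟨z, hz, h⟩ := exists_unit_det_ge (1 : Matrix (b.D i) (b.D i) ℂ) (-(b.ρ i g))
    refine ⟨z, hz, ?_⟩
    rw [Matrix.det_one, norm_one] at h
    rw [map_sub, map_one, map_smul, lift_u]
    rwa [smul_neg, ← sub_eq_add_neg] at h
  choose z hz hdet using hex
  have hb : ∀ ε : ℝ, 0 < ε → 0 ≤ (b.toT Unit).L (sc (1 - u g)) ε := by
    intro ε hε
    rw [(b.toT Unit).L_eq ((b.twist φ z hz).toT Unit) _ hε]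
    apply (b.twist φ z hz).le_L_sc hε
    intro i
    rw [twist_lift]
    have h1 : tw φ (z i) (hz i) (1 - u g) = 1 - z i • u g := by
      rw [map_sub, map_one, tw_u]
      congr 2
      unfold chr
      rw [hg]
      simp
    rw [h1]
    have h2 := hdet i
    refine ⟨fun h0 => ?_, ?_⟩
    · have h3 : (b.lift i (1 - z i • u g)).det = 0 := h0
      rw [h3, norm_zero] at h2
      linarith
    · rw [zero_mul]
      exact Real.log_nonneg h2
  exact ⟨⟨0, hb⟩, (b.toT Unit).le_ldet hb⟩

/-- `log det (1 - g) = 0` for `g` mapped to a generator of `ℤ`. -/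
theorem F_one_sub_u (φ : Γ →* Multiplicative ℤ) {g : Γ} (hg : φ g = Multiplicative.ofAdd 1) :
    b.F (sc (1 - u g)) ∧ b.dt (sc (1 - u g)) = 0 := by
  obtain ⟨hF, h0⟩ := b.one_sub_u_aux φ hg
  refine ⟨hF, le_antisymm ?_ h0⟩
  -- doubling
  have hpow : ∀ k : ℕ, b.F (sc (1 - u g ^ (2 ^ k))) ∧
      b.dt (sc (1 - u g ^ (2 ^ k))) = 2 ^ k * b.dt (sc (1 - u g)) := by
    intro k
    induction k with
    | zero => simpa using hF
    | succ k ih =>
      -- choose z with z ^ (2^k) = -1
      obtain ⟨z, hz, hzk⟩ : ∃ z : ℂ, ‖z‖ = 1 ∧ z ^ (2 ^ k) = -1 := by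
        refine ⟨Complex.exp (Real.pi / 2 ^ k * Complex.I), ?_, ?_⟩
        · have := Complex.norm_exp_ofReal_mul_I (Real.pi / 2 ^ k)
          push_cast at this
          exact this
        · rw [← Complex.exp_nat_mul]
          rw [show (((2 ^ k : ℕ) : ℂ)) * (Real.pi / 2 ^ k * Complex.I) = Real.pi * Complex.I by
            push_cast
            field_simp]
          exact Complex.exp_pi_mul_I
      have h1 : tw φ z hz (1 - u g ^ (2 ^ k)) = 1 + u g ^ (2 ^ k) := by
        rw [map_sub, map_one, map_pow, tw_u, smul_pow]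
        have : chr φ z g = z := by
          unfold chr; rw [hg]; simp
        rw [this, hzk]
        simp
      have h2 := b.F_tw φ hz ih.1
      rw [h1] at h2
      have h3 := b.F_mul ih.1 h2.1
      rw [sc_mul] at h3
      have h4 : (1 - u g ^ (2 ^ k)) * (1 + u g ^ (2 ^ k)) = 1 - u g ^ (2 ^ (k + 1)) := by
        rw [pow_succ 2 k, pow_mul]
        noncomm_ring
      rw [h4] at h3
      refine ⟨h3.1, ?_⟩
      rw [h3.2, h2.2, ih.2]
      ring
  have hup : ∀ k : ℕ, 2 ^ k * b.dt (sc (1 - u g)) ≤ 1 / 2 * Real.log 2 := by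
    intro k
    rw [← (hpow k).2]
    have hgk : g ^ (2 ^ k) ≠ 1 := by
      intro h
      have h1 := congrArg φ h
      rw [map_pow, hg, map_one φ] at h1
      have h2 := congrArg Multiplicative.toAdd h1
      simp at h2
    have htr : gtr ((1 - u g ^ (2 ^ k)) * gst (1 - u g ^ (2 ^ k))) = 2 := by
      classical
      rw [u_pow]
      set h := g ^ (2 ^ k)
      have e1 : gst (1 - u h) = 1 - u h⁻¹ := by
        have : gst (1 - u h) + gst (u h) = gst 1 := by rw [← gst_add]; simp
        rw [gst_one, gst_u] at this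
        exact eq_sub_of_add_eq this
      rw [e1]
      have e2 : (1 - u h) * (1 - u h⁻¹) = 1 + 1 - u h - u h⁻¹ := by
        have : u h * u h⁻¹ = 1 := by rw [u_mul, mul_inv_cancel, u_one]
        rw [sub_mul, mul_sub, mul_sub, this]
        simp
        abel
      rw [e2]
      unfold gtr
      have e3 : (1 : MonoidAlgebra ℂ Γ).coeff 1 = 1 := by
        rw [MonoidAlgebra.one_def, coeff_single]; simp
      rw [coeff_sub, coeff_sub, coeff_add]
      simp only [Finsupp.coe_sub, Finsupp.coe_add, Pi.sub_apply, Pi.add_apply, e3, coeff_u_one]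
      rw [if_neg hgk, if_neg (by simpa using hgk)]
      norm_num
    have h5 := b.dt_le_log (hpow k).1 (by rw [htr]; norm_num)
    rwa [htr] at h5
  by_contra hc
  push Not at hc
  -- 2^k c unbounded
  obtain ⟨k, hk⟩ := pow_unbounded_of_one_lt (Real.log 2 / b.dt (sc (1 - u g))) one_lt_two
  have h6 := hup k
  rw [div_lt_iff₀ hc] at hk
  have : 0 < Real.log 2 := Real.log_pos one_lt_two
  linarith

end GApprox

end twist

end Pool.Agent.MPfa412c
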